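import Mathlib

/-!
Basic integration on the circle and the torus: normalised measure, Poisson kernel, Poisson formula.
-/

set_option autoImplicit false

open MeasureTheory Complex Set Metric

namespace Pool.Agent.Lib.MP_7d8448_an

/-- normalised Lebesgue measure on `[0, 2π]` -/
noncomputable def mu : Measure ℝ :=
  (ENNReal.ofReal (2 * Real.pi))⁻¹ • volume.restrict (Icc 0 (2 * Real.pi))

/-- the point `e^{iθ}` of the unit circle -/
noncomputable def ee (θ : ℝ) : ℂ := Complex.exp (θ * I)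

lemma norm_ee (θ : ℝ) : ‖ee θ‖ = 1 := by
  simp [ee, Complex.norm_exp]

lemma ee_ne_zero (θ : ℝ) : ee θ ≠ 0 := by
  simp [ee]

@[fun_prop]
lemma continuous_ee : Continuous ee := by
  unfold ee; fun_prop

lemma ee_natmul (n : ℕ) (θ : ℝ) : ee θ ^ n = ee (n * θ) := by
  simp only [ee, ← Complex.exp_nat_mul]
  congr 1
  push_cast
  ring

lemma ee_add (a b : ℝ) : ee (a + b) = ee a * ee b := by
  simp only [ee, ← Complex.exp_add]
  congr 1
  push_cast
  ring

instance : IsProbabilityMeasure mu := by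
  constructor
  have h : (0:ℝ) < 2 * Real.pi := by positivity
  simp only [mu, Measure.smul_apply, Measure.restrict_apply MeasurableSet.univ, univ_inter,
    Real.volume_Icc, sub_zero, smul_eq_mul]
  exact ENNReal.inv_mul_cancel (by simpa using h) ENNReal.ofReal_ne_top

lemma ae_mem_Icc : ∀ᵐ θ ∂mu, θ ∈ Icc 0 (2 * Real.pi) := by
  unfold mu
  apply Measure.ae_smul_measure
  exact ae_restrict_mem measurableSet_Icc

lemma integrable_mu {E : Type*} [NormedAddCommGroup E] [SecondCountableTopology E] {f : ℝ → E}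
    (hf : Continuous f) : Integrable f mu := by
  obtain ⟨C, hC⟩ := (isCompact_Icc (a := (0:ℝ)) (b := 2 * Real.pi)).exists_bound_of_continuousOn
    hf.continuousOn
  apply Integrable.of_bound hf.aestronglyMeasurable C
  filter_upwards [ae_mem_Icc] with θ hθ using hC θ hθ

/-- normalised Lebesgue measure on `[0, 2π]²` -/
noncomputable def mu2 : Measure (ℝ × ℝ) := mu.prod mu

instance : IsProbabilityMeasure mu2 := by unfold mu2; infer_instance

lemma ae_mem_Icc2 : ∀ᵐ x ∂mu2, x ∈ Icc 0 (2 * Real.pi) ×ˢ Icc 0 (2 * Real.pi) := by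
  unfold mu2
  have h1 : ∀ᵐ x ∂(mu.prod mu), x.1 ∈ Icc 0 (2 * Real.pi) :=
    Measure.quasiMeasurePreserving_fst.ae ae_mem_Icc
  have h2 : ∀ᵐ x ∂(mu.prod mu), x.2 ∈ Icc 0 (2 * Real.pi) :=
    Measure.quasiMeasurePreserving_snd.ae ae_mem_Icc
  filter_upwards [h1, h2] with x h1 h2 using ⟨h1, h2⟩

lemma integrable_mu2 {E : Type*} [NormedAddCommGroup E] [SecondCountableTopology E] {f : ℝ × ℝ → E}
    (hf : Continuous f) : Integrable f mu2 := by
  obtain ⟨C, hC⟩ := ((isCompact_Icc (a := (0:ℝ)) (b := 2 * Real.pi)).prod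
    (isCompact_Icc (a := (0:ℝ)) (b := 2 * Real.pi))).exists_bound_of_continuousOn
    hf.continuousOn
  apply Integrable.of_bound hf.aestronglyMeasurable C
  filter_upwards [ae_mem_Icc2] with θ hθ using hC θ hθ

/-- product of two copies of `mu2` -/
lemma integrable_mu22 {E : Type*} [NormedAddCommGroup E] [SecondCountableTopology E]
    {f : (ℝ × ℝ) × (ℝ × ℝ) → E}
    (hf : Continuous f) : Integrable f (mu2.prod mu2) := by
  obtain ⟨C, hC⟩ := (((isCompact_Icc (a := (0:ℝ)) (b := 2 * Real.pi)).prod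
    (isCompact_Icc (a := (0:ℝ)) (b := 2 * Real.pi))).prod
    ((isCompact_Icc (a := (0:ℝ)) (b := 2 * Real.pi)).prod
    (isCompact_Icc (a := (0:ℝ)) (b := 2 * Real.pi)))).exists_bound_of_continuousOn
    hf.continuousOn
  apply Integrable.of_bound hf.aestronglyMeasurable C
  have h1 : ∀ᵐ x ∂(mu2.prod mu2), x.1 ∈ Icc 0 (2 * Real.pi) ×ˢ Icc 0 (2 * Real.pi) :=
    Measure.quasiMeasurePreserving_fst.ae ae_mem_Icc2
  have h2 : ∀ᵐ x ∂(mu2.prod mu2), x.2 ∈ Icc 0 (2 * Real.pi) ×ˢ Icc 0 (2 * Real.pi) :=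
    Measure.quasiMeasurePreserving_snd.ae ae_mem_Icc2
  filter_upwards [h1, h2] with θ h1 h2 using hC θ ⟨h1, h2⟩

lemma integral_mu_eq {E : Type*} [NormedAddCommGroup E] [NormedSpace ℝ E] (f : ℝ → E) :
    ∫ θ, f θ ∂mu = (2 * Real.pi)⁻¹ • ∫ θ in (0:ℝ)..(2 * Real.pi), f θ := by
  have h : (0:ℝ) < 2 * Real.pi := by positivity
  rw [mu, integral_smul_measure, intervalIntegral.integral_of_le h.le, integral_Icc_eq_integral_Ioc,
    ENNReal.toReal_inv, ENNReal.toReal_ofReal h.le]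

lemma circleAverage_eq {E : Type*} [NormedAddCommGroup E] [NormedSpace ℝ E] (f : ℂ → E) :
    Real.circleAverage f 0 1 = ∫ θ, f (ee θ) ∂mu := by
  rw [integral_mu_eq, Real.circleAverage_def]
  simp [circleMap, ee]

/-- Poisson kernel of the unit disc -/
noncomputable def PK (z : ℂ) (θ : ℝ) : ℝ := (1 - ‖z‖ ^ 2) / ‖ee θ - z‖ ^ 2

lemma ee_sub_ne {z : ℂ} (hz : ‖z‖ < 1) (θ : ℝ) : ee θ - z ≠ 0 := by
  intro h
  rw [sub_eq_zero] at h
  rw [← h, norm_ee] at hz
  exact lt_irrefl _ hz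

lemma PK_pos {z : ℂ} (hz : ‖z‖ < 1) (θ : ℝ) : 0 < PK z θ := by
  unfold PK
  have h1 : 0 < ‖ee θ - z‖ := norm_pos_iff.mpr (ee_sub_ne hz θ)
  have h2 : ‖z‖ ^ 2 < 1 := by nlinarith [norm_nonneg z]
  have h3 : 0 < 1 - ‖z‖ ^ 2 := by linarith
  positivity

lemma continuous_PK {z : ℂ} (hz : ‖z‖ < 1) : Continuous (PK z) := by
  unfold PK
  apply Continuous.div (by fun_prop) (by fun_prop)
  intro θ
  exact pow_ne_zero 2 (norm_ne_zero_iff.mpr (ee_sub_ne hz θ))

/-- joint continuity of the Poisson kernel -/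
lemma continuous_PK_comp {X : Type*} [TopologicalSpace X] {a : X → ℂ} {b : X → ℝ}
    (ha : Continuous a) (hb : Continuous b) (h : ∀ x, ‖a x‖ < 1) :
    Continuous (fun x => PK (a x) (b x)) := by
  unfold PK
  apply Continuous.div (by fun_prop) (by fun_prop)
  intro θ
  exact pow_ne_zero 2 (norm_ne_zero_iff.mpr (ee_sub_ne (h θ) _))

lemma PK_le {z : ℂ} (hz : ‖z‖ < 1) (θ : ℝ) : PK z θ ≤ (1 + ‖z‖) / (1 - ‖z‖) := by
  unfold PK
  have h1 : 1 - ‖z‖ ≤ ‖ee θ - z‖ := by
    have := norm_sub_norm_le (ee θ) z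
    rwa [norm_ee] at this
  have h2 : 0 < 1 - ‖z‖ := by linarith
  have h0 : 0 < ‖ee θ - z‖ := by linarith
  rw [div_le_div_iff₀ (by positivity) h2]
  have h3 : (1 - ‖z‖) ^ 2 ≤ ‖ee θ - z‖ ^ 2 := by gcongr
  have h4 : 0 ≤ 1 + ‖z‖ := by positivity
  nlinarith [mul_le_mul_of_nonneg_left h3 h4]

lemma PK_symm (r α θ : ℝ) : PK (r * ee α) θ = PK (r * ee θ) α := by
  unfold PK
  have h1 : ‖ee θ - r * ee α‖ = ‖ee α - r * ee θ‖ := by
    have e1 : (ee θ - r * ee α) = ee θ * ee α * (starRingEnd ℂ) (ee α - r * ee θ) := by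
      have h1 : ee θ * (starRingEnd ℂ) (ee θ) = 1 := by
        rw [Complex.mul_conj, Complex.normSq_eq_norm_sq, norm_ee]; simp
      have h2 : ee α * (starRingEnd ℂ) (ee α) = 1 := by
        rw [Complex.mul_conj, Complex.normSq_eq_norm_sq, norm_ee]; simp
      simp only [map_sub, map_mul, Complex.conj_ofReal]
      linear_combination (-(ee θ)) * h2 + (r : ℂ) * ee α * h1
    rw [e1, norm_mul, norm_mul, norm_ee, norm_ee, RCLike.norm_conj, one_mul, one_mul]
  rw [h1]
  simp [norm_ee]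

/-- Poisson formula for holomorphic functions -/
theorem poisson {h : ℂ → ℂ} (hh : DiffContOnCl ℂ h (ball 0 1)) {z : ℂ} (hz : ‖z‖ < 1) :
    ∫ θ, (PK z θ : ℂ) * h (ee θ) ∂mu = h z := by
  have h1 := hh.circleAverage_poissonKernel_smul' (w := z) (by simpa using hz)
  rw [circleAverage_eq] at h1
  rw [← h1]
  apply integral_congr_ae
  filter_upwards with θ
  simp [PK, norm_ee]

theorem integral_PK {z : ℂ} (hz : ‖z‖ < 1) : ∫ θ, PK z θ ∂mu = 1 := by
  have h1 := poisson (h := fun _ => 1) (diffContOnCl_const) hz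
  simp only [mul_one] at h1
  rw [integral_complex_ofReal] at h1
  exact_mod_cast h1

theorem integral_PK_symm {r : ℝ} (hr : 0 ≤ r) (hr1 : r < 1) (θ : ℝ) :
    ∫ α, PK (r * ee α) θ ∂mu = 1 := by
  simp_rw [fun α => PK_symm r α θ]
  apply integral_PK
  rw [norm_mul, norm_ee, mul_one, Complex.norm_real, Real.norm_eq_abs, abs_of_nonneg hr]
  exact hr1

lemma norm_real_mul_ee {r : ℝ} (hr : 0 ≤ r) (α : ℝ) : ‖(r:ℂ) * ee α‖ = r := by
  rw [norm_mul, norm_ee, mul_one, Complex.norm_real, Real.norm_eq_abs, abs_of_nonneg hr]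

/-- continuity of parametric integrals -/
lemma continuous_integral_mu {f : ℝ × ℝ → ℝ} (hf : Continuous f) :
    Continuous (fun θ => ∫ φ, f (θ, φ) ∂mu) := by
  simp_rw [integral_mu_eq, smul_eq_mul]
  apply Continuous.mul continuous_const
  apply intervalIntegral.continuous_parametric_intervalIntegral_of_continuous'
  fun_prop

end Pool.Agent.Lib.MP_7d8448_an
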