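import Pool.Agent.Lib.MP_7d8448_an.Dilation

/-!
Polynomials are dense in `H¹` of the bidisc.
-/

set_option autoImplicit false

open MeasureTheory Complex Set Metric

namespace Pool.Agent.Lib.MP_7d8448_an

lemma conj_ee_mul (θ : ℝ) : ee θ * (starRingEnd ℂ) (ee θ) = 1 := by
  rw [Complex.mul_conj, Complex.normSq_eq_norm_sq, norm_ee]; simp

lemma norm_mul_conj_ee (z : ℂ) (θ : ℝ) : ‖z * (starRingEnd ℂ) (ee θ)‖ = ‖z‖ := by
  rw [norm_mul, RCLike.norm_conj, norm_ee, mul_one]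

lemma one_sub_ne {u : ℂ} (hu : ‖u‖ < 1) : 1 - u ≠ 0 := by
  intro h
  rw [sub_eq_zero] at h
  rw [← h] at hu
  simp at hu

lemma cauchy1 {h : ℂ → ℂ} (hh : DiffContOnCl ℂ h (ball 0 1)) {z : ℂ} (hz : ‖z‖ < 1) :
    ∫ θ, (1 - z * (starRingEnd ℂ) (ee θ))⁻¹ * h (ee θ) ∂mu = h z := by
  have h1 := DiffContOnCl.circleAverage_smul_div (c := 0) (R := 1) (w := z) (f := h)
    (by simpa using hh) (by simpa using hz)
  rw [circleAverage_eq] at h1
  rw [← h1]
  apply integral_congr_ae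
  filter_upwards with θ
  simp only [sub_zero, smul_eq_mul]
  congr 1
  have h2 := ee_sub_ne hz θ
  have h3 := one_sub_ne (u := z * (starRingEnd ℂ) (ee θ)) (by rw [norm_mul_conj_ee]; exact hz)
  rw [inv_eq_one_div, div_eq_div_iff h3 h2, one_mul, mul_sub, mul_one]
  have h4 := conj_ee_mul θ
  linear_combination (-z) * (-h4)

lemma cauchy2 {G : ℂ × ℂ → ℂ} {R : ℝ} (hR : 1 < R) (hG : DifferentiableOn ℂ G (ball 0 R))
    {z : ℂ × ℂ} (hz : ‖z‖ < 1) :
    ∫ x, (1 - z.1 * (starRingEnd ℂ) (ee x.1))⁻¹ * (1 - z.2 * (starRingEnd ℂ) (ee x.2))⁻¹ *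
      G (dil 1 x) ∂mu2 = G z := by
  have hz1 := fst_norm_lt hz
  have hz2 := snd_norm_lt hz
  have hc : Continuous (fun x : ℝ × ℝ => G (dil 1 x)) :=
    continuous_on_circles hG (continuous_dil 1) (fun x => by rw [norm_dil zero_le_one]; exact hR)
  have hint : Integrable (fun x : ℝ × ℝ => (1 - z.1 * (starRingEnd ℂ) (ee x.1))⁻¹ *
      (1 - z.2 * (starRingEnd ℂ) (ee x.2))⁻¹ * G (dil 1 x)) mu2 := by
    apply integrable_mu2
    apply Continuous.mul _ hc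
    apply Continuous.mul
    · apply Continuous.inv₀ (by fun_prop)
      intro x
      exact one_sub_ne (by rw [norm_mul_conj_ee]; exact hz1)
    · apply Continuous.inv₀ (by fun_prop)
      intro x
      exact one_sub_ne (by rw [norm_mul_conj_ee]; exact hz2)
  unfold mu2 at hint ⊢
  rw [integral_prod _ hint]
  have hd : ∀ {h : ℂ → ℂ}, DifferentiableOn ℂ h (ball 0 R) → DiffContOnCl ℂ h (ball 0 1) := by
    intro h hh
    apply DifferentiableOn.diffContOnCl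
    rw [closure_ball (0:ℂ) one_ne_zero]
    exact hh.mono (closedBall_subset_ball hR)
  have h1 := cauchy1 (hd (slice_fst hG (hz2.trans hR))) hz1
  have : G z = G (z.1, z.2) := rfl
  rw [this, ← h1]
  congr 1
  ext θ
  have h2 := cauchy1 (hd (slice_snd hG (w := ee θ) (by rw [norm_ee]; exact hR))) hz2
  simp only [dil, ofReal_one, one_mul]
  simp_rw [mul_assoc]
  rw [integral_const_mul, h2]

lemma geom_norm_le {u : ℂ} {s : ℝ} (hu : ‖u‖ ≤ s) (hs : s < 1) (N : ℕ) :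
    ‖∑ a ∈ Finset.range N, u ^ a‖ ≤ (1 - s)⁻¹ := by
  have hs0 : 0 ≤ s := (norm_nonneg u).trans hu
  calc ‖∑ a ∈ Finset.range N, u ^ a‖ ≤ ∑ a ∈ Finset.range N, ‖u ^ a‖ := norm_sum_le _ _
    _ ≤ ∑ a ∈ Finset.range N, s ^ a := by
        apply Finset.sum_le_sum
        intro i _
        rw [norm_pow]
        exact pow_le_pow_left₀ (norm_nonneg u) hu i
    _ ≤ (1 - s)⁻¹ := by
        rw [← tsum_geometric_of_lt_one hs0 hs]
        exact (summable_geometric_of_lt_one hs0 hs).sum_le_tsum _ (fun i _ => by positivity)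

lemma geom_diff {u : ℂ} {s : ℝ} (hu : ‖u‖ ≤ s) (hs : s < 1) (N : ℕ) :
    ‖(1 - u)⁻¹ - ∑ a ∈ Finset.range N, u ^ a‖ ≤ s ^ N * (1 - s)⁻¹ := by
  have h1 : 1 - u ≠ 0 := one_sub_ne (hu.trans_lt hs)
  have h2 : (1 - u)⁻¹ - ∑ a ∈ Finset.range N, u ^ a = u ^ N * (1 - u)⁻¹ := by
    have h3 := geom_sum_mul u N
    field_simp
    linear_combination h3
  rw [h2, norm_mul, norm_pow, norm_inv]
  have h3 : 1 - s ≤ ‖1 - u‖ := by
    have := norm_sub_norm_le 1 u
    rw [norm_one] at this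
    linarith
  have h4 : 0 < 1 - s := by linarith
  have h5 : 0 ≤ s := (norm_nonneg u).trans hu
  gcongr

lemma inv_norm_le {u : ℂ} {s : ℝ} (hu : ‖u‖ ≤ s) (hs : s < 1) : ‖(1 - u)⁻¹‖ ≤ (1 - s)⁻¹ := by
  rw [norm_inv]
  have h3 : 1 - s ≤ ‖1 - u‖ := by
    have := norm_sub_norm_le 1 u
    rw [norm_one] at this
    linarith
  have h4 : 0 < 1 - s := by linarith
  gcongr

/-- uniform approximation of dilations by polynomials on the closed bidisc -/
theorem exists_mvpoly {g : ℂ × ℂ → ℂ} (hg : DifferentiableOn ℂ g (ball 0 1)) {ρ : ℝ}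
    (hρ : 0 < ρ) (hρ1 : ρ < 1) {ε : ℝ} (hε : 0 < ε) :
    ∃ P : MvPolynomial (Fin 2) ℂ, ∀ z : ℂ × ℂ, ‖z‖ ≤ 1 →
      ‖MvPolynomial.eval ![z.1, z.2] P - g ((ρ:ℂ) * z.1, (ρ:ℂ) * z.2)‖ ≤ ε := by
  set s := Real.sqrt ρ with hs
  have hs0 : 0 < s := Real.sqrt_pos.mpr hρ
  have hs2 : s * s = ρ := Real.mul_self_sqrt hρ.le
  have hs1 : s < 1 := by nlinarith
  have hR : 1 < 1 / s := by rw [lt_div_iff₀ hs0]; linarith
  set G : ℂ × ℂ → ℂ := fun z => g (((s:ℂ) * z.1, (s:ℂ) * z.2)) with hG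
  have hGd : DifferentiableOn ℂ G (ball 0 (1 / s)) := differentiableOn_scale hg hs0
  have hc : Continuous (fun x : ℝ × ℝ => G (dil 1 x)) :=
    continuous_on_circles hGd (continuous_dil 1) (fun x => by rw [norm_dil zero_le_one]; exact hR)
  obtain ⟨M, hM⟩ := (isCompact_closedBall (0:ℂ × ℂ) 1).exists_bound_of_continuousOn
    (hGd.continuousOn.mono (closedBall_subset_ball hR))
  have hM' : ∀ x, ‖G (dil 1 x)‖ ≤ M := fun x => hM _ (by
    rw [mem_closedBall_zero_iff, norm_dil zero_le_one])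
  have hM0 : 0 ≤ M := (norm_nonneg _).trans (hM' 0)
  have h1s : 0 < 1 - s := by linarith
  -- choose N
  obtain ⟨N, hN⟩ : ∃ N : ℕ, s ^ N * (2 * (1 - s)⁻¹ * (1 - s)⁻¹ * (M + 1)) < ε := by
    have h1 := (tendsto_pow_atTop_nhds_zero_of_lt_one hs0.le hs1).mul_const
      (2 * (1 - s)⁻¹ * (1 - s)⁻¹ * (M + 1))
    rw [zero_mul] at h1
    exact (h1.eventually (gt_mem_nhds hε)).exists
  set c : ℕ → ℕ → ℂ := fun a b =>
    ∫ x, (starRingEnd ℂ) (ee x.1) ^ a * (starRingEnd ℂ) (ee x.2) ^ b * G (dil 1 x) ∂mu2 with hcdef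
  have ic : ∀ a b, Integrable (fun x : ℝ × ℝ => (starRingEnd ℂ) (ee x.1) ^ a *
      (starRingEnd ℂ) (ee x.2) ^ b * G (dil 1 x)) mu2 := by
    intro a b
    apply integrable_mu2
    exact (Continuous.mul (by fun_prop) (by fun_prop)).mul hc
  refine ⟨∑ a ∈ Finset.range N, ∑ b ∈ Finset.range N,
    MvPolynomial.C (c a b * (s:ℂ) ^ a * (s:ℂ) ^ b) * MvPolynomial.X 0 ^ a * MvPolynomial.X 1 ^ b,
    ?_⟩
  intro z hz
  have hz1 : ‖z.1‖ ≤ 1 := (norm_fst_le z).trans hz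
  have hz2 : ‖z.2‖ ≤ 1 := (norm_snd_le z).trans hz
  set w : ℂ × ℂ := ((s:ℂ) * z.1, (s:ℂ) * z.2) with hw
  have hw1 : ‖w.1‖ ≤ s := by
    simp only [hw, norm_mul, Complex.norm_real, Real.norm_eq_abs, abs_of_pos hs0]
    nlinarith
  have hw2 : ‖w.2‖ ≤ s := by
    simp only [hw, norm_mul, Complex.norm_real, Real.norm_eq_abs, abs_of_pos hs0]
    nlinarith
  have hwn : ‖w‖ < 1 := by
    rw [Prod.norm_def]
    exact (max_le hw1 hw2).trans_lt hs1
  have hv1 : g ((ρ:ℂ) * z.1, (ρ:ℂ) * z.2) = G w := by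
    simp only [hG, hw, ← mul_assoc, ← Complex.ofReal_mul, hs2]
  have hv2 := cauchy2 hR hGd hwn
  have he : MvPolynomial.eval ![z.1, z.2] (∑ a ∈ Finset.range N, ∑ b ∈ Finset.range N,
      MvPolynomial.C (c a b * (s:ℂ) ^ a * (s:ℂ) ^ b) * MvPolynomial.X 0 ^ a *
      MvPolynomial.X 1 ^ b) =
      ∫ x, (∑ a ∈ Finset.range N, (w.1 * (starRingEnd ℂ) (ee x.1)) ^ a) *
        (∑ b ∈ Finset.range N, (w.2 * (starRingEnd ℂ) (ee x.2)) ^ b) * G (dil 1 x) ∂mu2 := by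
    have h5 : (fun x : ℝ × ℝ => (∑ a ∈ Finset.range N, (w.1 * (starRingEnd ℂ) (ee x.1)) ^ a) *
        (∑ b ∈ Finset.range N, (w.2 * (starRingEnd ℂ) (ee x.2)) ^ b) * G (dil 1 x)) =
        fun x : ℝ × ℝ => ∑ a ∈ Finset.range N, ∑ b ∈ Finset.range N,
          (w.1 ^ a * w.2 ^ b) * ((starRingEnd ℂ) (ee x.1) ^ a * (starRingEnd ℂ) (ee x.2) ^ b *
            G (dil 1 x)) := by
      ext x
      rw [Finset.sum_mul_sum, Finset.sum_mul]
      apply Finset.sum_congr rfl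
      intro a _
      rw [Finset.sum_mul]
      apply Finset.sum_congr rfl
      intro b _
      rw [mul_pow, mul_pow]
      ring
    rw [h5, integral_finsetSum]
    · simp only [map_sum, map_mul, map_pow, MvPolynomial.eval_C, MvPolynomial.eval_X,
        Matrix.cons_val_zero, Matrix.cons_val_one]
      apply Finset.sum_congr rfl
      intro a _
      rw [integral_finsetSum]
      · apply Finset.sum_congr rfl
        intro b _
        rw [integral_const_mul]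
        simp only [hw, hcdef]
        ring
      · intro b _
        exact (ic a b).const_mul _
    · intro a _
      exact integrable_finsetSum _ (fun b _ => (ic a b).const_mul _)
  rw [hv1, he, ← hv2]
  have hcont1 : Continuous (fun x : ℝ × ℝ =>
      (∑ a ∈ Finset.range N, (w.1 * (starRingEnd ℂ) (ee x.1)) ^ a) *
        (∑ b ∈ Finset.range N, (w.2 * (starRingEnd ℂ) (ee x.2)) ^ b) * G (dil 1 x)) := by
    apply Continuous.mul _ hc
    fun_prop
  have hcont2 : Continuous (fun x : ℝ × ℝ => (1 - w.1 * (starRingEnd ℂ) (ee x.1))⁻¹ *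
      (1 - w.2 * (starRingEnd ℂ) (ee x.2))⁻¹ * G (dil 1 x)) := by
    apply Continuous.mul _ hc
    apply Continuous.mul
    · apply Continuous.inv₀ (by fun_prop)
      intro x
      exact one_sub_ne (by rw [norm_mul_conj_ee]; linarith)
    · apply Continuous.inv₀ (by fun_prop)
      intro x
      exact one_sub_ne (by rw [norm_mul_conj_ee]; linarith)
  rw [← integral_sub (integrable_mu2 hcont1) (integrable_mu2 hcont2)]
  have hfin : ∀ x : ℝ × ℝ, ‖(∑ a ∈ Finset.range N, (w.1 * (starRingEnd ℂ) (ee x.1)) ^ a) *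
        (∑ b ∈ Finset.range N, (w.2 * (starRingEnd ℂ) (ee x.2)) ^ b) * G (dil 1 x) -
        (1 - w.1 * (starRingEnd ℂ) (ee x.1))⁻¹ *
      (1 - w.2 * (starRingEnd ℂ) (ee x.2))⁻¹ * G (dil 1 x)‖ ≤
      s ^ N * (2 * (1 - s)⁻¹ * (1 - s)⁻¹ * (M + 1)) := by
    intro x
    set u := w.1 * (starRingEnd ℂ) (ee x.1)
    set v := w.2 * (starRingEnd ℂ) (ee x.2)
    have hu : ‖u‖ ≤ s := by simp only [u]; rw [norm_mul_conj_ee]; exact hw1
    have hv : ‖v‖ ≤ s := by simp only [v]; rw [norm_mul_conj_ee]; exact hw2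
    have e1 : (∑ a ∈ Finset.range N, u ^ a) * (∑ b ∈ Finset.range N, v ^ b) * G (dil 1 x) -
        (1 - u)⁻¹ * (1 - v)⁻¹ * G (dil 1 x) =
        -(((1 - u)⁻¹ - ∑ a ∈ Finset.range N, u ^ a) * (1 - v)⁻¹ * G (dil 1 x) +
          (∑ a ∈ Finset.range N, u ^ a) * ((1 - v)⁻¹ - ∑ a ∈ Finset.range N, v ^ a) *
            G (dil 1 x)) := by ring
    rw [e1, norm_neg]
    refine (norm_add_le _ _).trans ?_
    rw [norm_mul, norm_mul, norm_mul, norm_mul]
    have a1 := geom_diff hu hs1 N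
    have a2 := geom_diff hv hs1 N
    have a3 := inv_norm_le hv hs1
    have a4 := geom_norm_le hu hs1 N
    have a5 := hM' x
    have a6 : 0 ≤ (1 - s)⁻¹ := by positivity
    calc ‖(1 - u)⁻¹ - ∑ a ∈ Finset.range N, u ^ a‖ * ‖(1 - v)⁻¹‖ * ‖G (dil 1 x)‖ +
        ‖∑ a ∈ Finset.range N, u ^ a‖ * ‖(1 - v)⁻¹ - ∑ a ∈ Finset.range N, v ^ a‖ * ‖G (dil 1 x)‖
        ≤ (s ^ N * (1 - s)⁻¹) * (1 - s)⁻¹ * M + (1 - s)⁻¹ * (s ^ N * (1 - s)⁻¹) * M := by
          gcongr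
      _ ≤ s ^ N * (2 * (1 - s)⁻¹ * (1 - s)⁻¹ * (M + 1)) := by
          have : 0 ≤ s ^ N * ((1 - s)⁻¹ * (1 - s)⁻¹) := by positivity
          nlinarith
  calc ‖∫ x, ((∑ a ∈ Finset.range N, (w.1 * (starRingEnd ℂ) (ee x.1)) ^ a) *
        (∑ b ∈ Finset.range N, (w.2 * (starRingEnd ℂ) (ee x.2)) ^ b) * G (dil 1 x) -
        (1 - w.1 * (starRingEnd ℂ) (ee x.1))⁻¹ *
      (1 - w.2 * (starRingEnd ℂ) (ee x.2))⁻¹ * G (dil 1 x)) ∂mu2‖
      ≤ (s ^ N * (2 * (1 - s)⁻¹ * (1 - s)⁻¹ * (M + 1))) * mu2.real univ :=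
        norm_integral_le_of_norm_le_const (Filter.Eventually.of_forall hfin)
    _ ≤ ε := by
        rw [probReal_univ, mul_one]
        exact hN.le

/-- dilations converge in `H¹` of the bidisc -/
theorem dilation_converges {g : ℂ × ℂ → ℂ} (hg : DifferentiableOn ℂ g (ball 0 1)) {C : ℝ}
    (hC : ∀ R : ℝ, 0 < R → R < 1 → ∫ x, ‖g (dil R x)‖ ∂mu2 ≤ C) {ε : ℝ} (hε : 0 < ε) :
    ∃ ρ : ℝ, 0 < ρ ∧ ρ < 1 ∧ ∀ R : ℝ, 0 < R → R < 1 →
      ∫ x, ‖g (dil R x) - g (dil (ρ * R) x)‖ ∂mu2 ≤ ε := by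
  set M : ℝ → ℝ := fun R => ∫ x, ‖g (dil R x)‖ ∂mu2 with hM
  have hC0 : 0 ≤ C := le_trans (integral_nonneg (fun x => by positivity))
    (hC (1/2) (by norm_num) (by norm_num))
  have hmono : ∀ r s : ℝ, 0 ≤ r → r ≤ s → s < 1 → M r ≤ M s := by
    intro r s h0 h1 h2
    have := mono2' hg one_pos h0 h1 h2
    simpa using this
  set τ : ℝ := ε / (6 * (C + 1)) with hτ
  have hτ0 : 0 < τ := by positivity
  set δ : ℝ := τ * (ε / 2) with hδ
  have hδ0 : 0 < δ := by positivity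
  -- R0
  obtain ⟨R0, hR00, hR01, hR0⟩ : ∃ R0 : ℝ, 0 < R0 ∧ R0 < 1 ∧
      ∀ R : ℝ, 0 < R → R < 1 → M R ≤ M R0 + δ := by
    set S : Set ℝ := M '' (Ioo 0 1) with hS
    have hne : S.Nonempty := ⟨M (1/2), mem_image_of_mem _ (by constructor <;> norm_num)⟩
    have hbdd : BddAbove S := ⟨C, by rintro _ ⟨R, hR, rfl⟩; exact hC R hR.1 hR.2⟩
    obtain ⟨_, ⟨R0, hR0, rfl⟩, h1⟩ := exists_lt_of_lt_csSup hne (sub_lt_self (sSup S) hδ0)
    refine ⟨R0, hR0.1, hR0.2, ?_⟩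
    intro R h2 h3
    have := le_csSup hbdd (mem_image_of_mem M (show R ∈ Ioo (0:ℝ) 1 from ⟨h2, h3⟩))
    linarith
  obtain ⟨r, hr1, hr2⟩ := exists_between hR01
  have hr0 : 0 < r := hR00.trans hr1
  refine ⟨r * r, by positivity, by nlinarith, ?_⟩
  intro R h2 h3
  -- choose R'
  have hRr : R0 / r < 1 := by rw [div_lt_one hr0]; exact hr1
  obtain ⟨R', hR'1, hR'2⟩ := exists_between (max_lt h3 hRr)
  have hRR' : R < R' := (le_max_left _ _).trans_lt hR'1
  have hR0' : R0 < R' * r := by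
    have := (le_max_right R (R0 / r)).trans_lt hR'1
    rwa [div_lt_iff₀ hr0] at this
  have hR'0 : 0 < R' := h2.trans hRR'
  have hd := dilation_L1 (G := fun z : ℂ × ℂ => g (((R':ℂ) * z.1, (R':ℂ) * z.2)))
    (R := 1 / R') (by rw [lt_div_iff₀ hR'0]; linarith) (differentiableOn_scale hg hR'0) hr0 hr2 hτ0
  simp only [dil_scale, mul_one] at hd
  -- monotonicity of the difference
  have hdiff : DifferentiableOn ℂ (fun z : ℂ × ℂ => g z - g (((r * r : ℝ) : ℂ) * z.1,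
      ((r * r : ℝ) : ℂ) * z.2)) (ball 0 1) := by
    apply hg.sub
    apply (differentiableOn_scale hg (show 0 < r * r by positivity)).mono
    apply ball_subset_ball
    rw [le_div_iff₀ (by positivity)]
    nlinarith
  have hm := mono2' hdiff one_pos h2.le hRR'.le hR'2
  simp only [dil_scale, Real.rpow_one] at hm
  have e1 : R' * (r * r) = r * r * R' := by ring
  rw [e1] at hd
  refine hm.trans (hd.trans ?_)
  have b1 : M R' ≤ C := hC R' hR'0 hR'2
  have b2 : M (R' * r) ≤ C := hC _ (by positivity) (by nlinarith)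
  have b3 : M R' ≤ M R0 + δ := hR0 R' hR'0 hR'2
  have b4 : M R0 ≤ M (R' * r) := hmono _ _ hR00.le hR0'.le (by nlinarith)
  change τ * (M R' + 2 * M (R' * r)) + 1 / τ * (M R' - M (R' * r)) ≤ ε
  have b5 : τ * (M R' + 2 * M (R' * r)) ≤ τ * (3 * (C + 1)) := by
    apply mul_le_mul_of_nonneg_left _ hτ0.le
    linarith
  have b6 : 1 / τ * (M R' - M (R' * r)) ≤ 1 / τ * δ := by
    apply mul_le_mul_of_nonneg_left _ (by positivity)
    linarith
  have b7 : τ * (3 * (C + 1)) = ε / 2 := by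
    rw [hτ]; field_simp; ring
  have b8 : 1 / τ * δ = ε / 2 := by
    rw [hδ]; field_simp
  linarith

/-- polynomials are dense in `H¹` of the bidisc -/
theorem poly_dense {g : ℂ × ℂ → ℂ} (hg : DifferentiableOn ℂ g (ball 0 1)) {C : ℝ}
    (hC : ∀ R : ℝ, 0 < R → R < 1 → ∫ x, ‖g (dil R x)‖ ∂mu2 ≤ C) {ε : ℝ} (hε : 0 < ε) :
    ∃ P : MvPolynomial (Fin 2) ℂ, ∀ R : ℝ, 0 < R → R < 1 →
      ∫ x, ‖MvPolynomial.eval ![(dil R x).1, (dil R x).2] P - g (dil R x)‖ ∂mu2 ≤ ε := by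
  obtain ⟨ρ, hρ0, hρ1, hρ⟩ := dilation_converges hg hC (half_pos hε)
  obtain ⟨P, hP⟩ := exists_mvpoly hg hρ0 hρ1 (half_pos hε)
  refine ⟨P, fun R hR0 hR1 => ?_⟩
  have hc1 : Continuous (fun x : ℝ × ℝ => g (dil R x)) :=
    continuous_on_circles hg (continuous_dil R) (fun x => by rw [norm_dil hR0.le]; exact hR1)
  have hc2 : Continuous (fun x : ℝ × ℝ => g (dil (ρ * R) x)) :=
    continuous_on_circles hg (continuous_dil _) (fun x => by
      rw [norm_dil (by positivity)]; nlinarith)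
  have hc3 : Continuous (fun x : ℝ × ℝ => MvPolynomial.eval ![(dil R x).1, (dil R x).2] P) := by
    apply MvPolynomial.continuous_eval P |>.comp
    apply continuous_pi
    intro i
    fin_cases i
    · exact continuous_fst.comp (continuous_dil R)
    · exact continuous_snd.comp (continuous_dil R)
  calc ∫ x, ‖MvPolynomial.eval ![(dil R x).1, (dil R x).2] P - g (dil R x)‖ ∂mu2
      ≤ ∫ x, (ε / 2 + ‖g (dil R x) - g (dil (ρ * R) x)‖) ∂mu2 := by
        apply integral_mono (integrable_mu2 (hc3.sub hc1).norm)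
          ((integrable_const _).add (integrable_mu2 (hc1.sub hc2).norm))
        intro x
        have h1 := hP (dil R x) (by rw [norm_dil hR0.le]; exact hR1.le)
        rw [dil_scale] at h1
        calc ‖MvPolynomial.eval ![(dil R x).1, (dil R x).2] P - g (dil R x)‖
            = ‖(MvPolynomial.eval ![(dil R x).1, (dil R x).2] P - g (dil (ρ * R) x)) -
              (g (dil R x) - g (dil (ρ * R) x))‖ := by congr 1; ring
          _ ≤ _ := (norm_sub_le _ _).trans (add_le_add_left h1 _)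
    _ = ε / 2 + ∫ x, ‖g (dil R x) - g (dil (ρ * R) x)‖ ∂mu2 := by
        have k1 : Integrable (fun x => ‖g (dil R x) - g (dil (ρ * R) x)‖) mu2 :=
          integrable_mu2 (hc1.sub hc2).norm
        rw [integral_add (integrable_const _) k1]
        simp
    _ ≤ ε := by linarith [hρ R hR0 hR1]

end Pool.Agent.Lib.MP_7d8448_an
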