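import Pool.Agent.Lib.MP_7d8448_an.Torus

/-!
The cut-off functions and the lift of one-variable polynomials to the bidisc.
-/

set_option autoImplicit false

open MeasureTheory Complex Set Metric

namespace Pool.Agent.Lib.MP_7d8448_an

/-- homogeneous polynomial `∏_{i<e} (z^{2^i} + w^{2^i})/2` as a function -/
noncomputable def E (e : ℕ) (z w : ℂ) : ℂ := ∏ i ∈ Finset.range e, ((z ^ (2 ^ i) + w ^ (2 ^ i)) / 2)

/-- its squared modulus -/
noncomputable def chi (e : ℕ) (z w : ℂ) : ℝ := ‖E e z w‖ ^ 2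

lemma E_succ (e : ℕ) (z w : ℂ) : E (e + 1) z w = E e z w * ((z ^ (2 ^ e) + w ^ (2 ^ e)) / 2) := by
  rw [E, Finset.prod_range_succ, ← E]

lemma E_zero (z w : ℂ) : E 0 z w = 1 := by simp [E]

lemma E_diag (e : ℕ) (z : ℂ) : E e z z = z ^ (2 ^ e - 1) := by
  induction e with
  | zero => simp [E_zero]
  | succ e ih =>
    rw [E_succ, ih, show (z ^ (2 ^ e) + z ^ (2 ^ e)) / 2 = z ^ (2 ^ e) by ring, ← pow_add]
    congr 1
    have := Nat.one_le_two_pow (n := e)
    rw [pow_succ]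
    omega

lemma conj_mul_self {u : ℂ} (hu : ‖u‖ = 1) : u * (starRingEnd ℂ) u = 1 := by
  rw [Complex.mul_conj, Complex.normSq_eq_norm_sq, hu]; simp

lemma factor_sq {u v : ℂ} (hu : ‖u‖ = 1) (hv : ‖v‖ = 1) :
    ((u + v) / 2) ^ 2 = (u * v) * ((‖(u + v) / 2‖ ^ 2 : ℝ) : ℂ) := by
  have h1 : ((‖(u + v) / 2‖ ^ 2 : ℝ) : ℂ) = ((u + v) / 2) * (starRingEnd ℂ) ((u + v) / 2) := by
    rw [Complex.mul_conj, Complex.normSq_eq_norm_sq]
  rw [h1]
  simp only [map_div₀, map_add, map_ofNat]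
  have h2 := conj_mul_self hu
  have h3 := conj_mul_self hv
  linear_combination (-(u + v) / 4 * v) * h2 + (-(u + v) / 4 * u) * h3

lemma E_sq (e : ℕ) {z w : ℂ} (hz : ‖z‖ = 1) (hw : ‖w‖ = 1) :
    E e z w ^ 2 = (z * w) ^ (2 ^ e - 1) * (chi e z w : ℂ) := by
  unfold chi
  induction e with
  | zero => simp [E_zero]
  | succ e ih =>
    rw [E_succ, mul_pow, ih, norm_mul, mul_pow,
      factor_sq (u := z ^ (2 ^ e)) (v := w ^ (2 ^ e)) (by simp [hz]) (by simp [hw])]
    have h1 : 2 ^ (e + 1) - 1 = (2 ^ e - 1) + 2 ^ e := by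
      have := Nat.one_le_two_pow (n := e)
      rw [pow_succ]
      omega
    rw [h1, pow_add, ← mul_pow]
    push_cast
    ring

lemma norm_E_le (e : ℕ) {z w : ℂ} {r : ℝ} (hz : ‖z‖ ≤ r) (hw : ‖w‖ ≤ r) :
    ‖E e z w‖ ≤ r ^ (2 ^ e - 1) := by
  have hr : 0 ≤ r := (norm_nonneg z).trans hz
  induction e with
  | zero => simp [E_zero]
  | succ e ih =>
    rw [E_succ, norm_mul]
    have h1 : 2 ^ (e + 1) - 1 = (2 ^ e - 1) + 2 ^ e := by
      have := Nat.one_le_two_pow (n := e)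
      rw [pow_succ]
      omega
    rw [h1, pow_add]
    apply mul_le_mul ih _ (norm_nonneg _) (by positivity)
    rw [norm_div, Complex.norm_ofNat, div_le_iff₀ (by norm_num)]
    refine (norm_add_le _ _).trans ?_
    rw [norm_pow, norm_pow]
    have a1 := pow_le_pow_left₀ (norm_nonneg z) hz (2 ^ e)
    have a2 := pow_le_pow_left₀ (norm_nonneg w) hw (2 ^ e)
    linarith

lemma chi_nonneg (e : ℕ) (z w : ℂ) : 0 ≤ chi e z w := by unfold chi; positivity

lemma chi_le_one (e : ℕ) {z w : ℂ} (hz : ‖z‖ ≤ 1) (hw : ‖w‖ ≤ 1) : chi e z w ≤ 1 := by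
  unfold chi
  have := norm_E_le e hz hw
  rw [one_pow] at this
  exact pow_le_one₀ (norm_nonneg _) this

lemma chi_succ_le (e : ℕ) {z w : ℂ} (hz : ‖z‖ ≤ 1) (hw : ‖w‖ ≤ 1) :
    chi (e + 1) z w ≤ chi e z w := by
  unfold chi
  rw [E_succ, norm_mul, mul_pow]
  apply mul_le_of_le_one_right (by positivity)
  apply pow_le_one₀ (norm_nonneg _)
  rw [norm_div, Complex.norm_ofNat, div_le_iff₀ (by norm_num)]
  refine (norm_add_le _ _).trans ?_
  rw [norm_pow, norm_pow]
  have a1 := pow_le_one₀ (n := 2 ^ e) (norm_nonneg z) hz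
  have a2 := pow_le_one₀ (n := 2 ^ e) (norm_nonneg w) hw
  linarith

lemma chi_anti {e e' : ℕ} (h : e ≤ e') {z w : ℂ} (hz : ‖z‖ ≤ 1) (hw : ‖w‖ ≤ 1) :
    chi e' z w ≤ chi e z w := by
  induction e', h using Nat.le_induction with
  | base => exact le_rfl
  | succ n _ ih => exact (chi_succ_le n hz hw).trans ih

lemma continuous_E (e : ℕ) : Continuous (fun z : ℂ × ℂ => E e z.1 z.2) := by
  unfold E
  apply continuous_finsetProd
  intro i _
  fun_prop

lemma continuous_chi (e : ℕ) : Continuous (fun z : ℂ × ℂ => chi e z.1 z.2) := by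
  unfold chi
  exact (continuous_E e).norm.pow 2

lemma mean_value {h : ℂ → ℂ} (hh : Differentiable ℂ h) : ∫ θ, h (ee θ) ∂mu = h 0 := by
  have h1 := poisson (h := h) hh.diffContOnCl (z := 0) (by simp)
  rw [← h1]
  congr 1
  ext θ
  simp [PK, norm_ee]

lemma differentiable_E_snd (e : ℕ) (z : ℂ) : Differentiable ℂ (fun w => E e z w) := by
  induction e with
  | zero => simp only [E_zero]; fun_prop
  | succ e ih =>
    simp only [E_succ]
    exact ih.mul (by fun_prop)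

lemma integral_chi_inner (e : ℕ) (z : ℂ) (hz : ‖z‖ = 1) :
    ∫ φ, chi e z (ee φ) ∂mu = (1 / 2) ^ e := by
  have hcont : ∀ e, Continuous (fun φ : ℝ => chi e z (ee φ)) := by
    intro e
    exact (continuous_chi e).comp (f := fun φ : ℝ => ((z, ee φ) : ℂ × ℂ)) (by fun_prop)
  induction e with
  | zero => simp [chi, E_zero]
  | succ e ih =>
    -- pointwise recursion
    have h1 : ∀ φ, chi (e + 1) z (ee φ) = 1 / 2 * chi e z (ee φ) +
        1 / 2 * ((starRingEnd ℂ) z ^ (2 ^ e) * (starRingEnd ℂ) z ^ (2 ^ e - 1) *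
          (E e z (ee φ) ^ 2 * ee φ)).re := by
      intro φ
      have hw : ‖ee φ‖ = 1 := norm_ee φ
      set w := ee φ with hwdef
      have e1 : chi (e + 1) z w = chi e z w * ‖(z ^ (2 ^ e) + w ^ (2 ^ e)) / 2‖ ^ 2 := by
        unfold chi; rw [E_succ, norm_mul, mul_pow]
      have e2 : ‖(z ^ (2 ^ e) + w ^ (2 ^ e)) / 2‖ ^ 2 =
          1 / 2 + 1 / 2 * ((starRingEnd ℂ) z ^ (2 ^ e) * w ^ (2 ^ e)).re := by
        rw [← Complex.normSq_eq_norm_sq, Complex.normSq_div, Complex.normSq_add]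
        simp only [map_pow, Complex.normSq_eq_norm_sq, hz, hw, one_pow, Complex.norm_ofNat]
        have : (z ^ 2 ^ e * (starRingEnd ℂ) w ^ 2 ^ e).re =
            ((starRingEnd ℂ) z ^ (2 ^ e) * w ^ (2 ^ e)).re := by
          rw [← Complex.conj_re]; simp [mul_comm]
        rw [this]
        ring
      have e3 : (chi e z w : ℂ) * ((starRingEnd ℂ) z ^ (2 ^ e) * w ^ (2 ^ e)) =
          (starRingEnd ℂ) z ^ (2 ^ e) * (starRingEnd ℂ) z ^ (2 ^ e - 1) * (E e z w ^ 2 * w) := by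
        rw [E_sq e hz hw]
        have h2 : (starRingEnd ℂ) z ^ (2 ^ e - 1) * z ^ (2 ^ e - 1) = 1 := by
          rw [← mul_pow, mul_comm, conj_mul_self hz, one_pow]
        have h3 : w ^ (2 ^ e - 1) * w = w ^ (2 ^ e) := by
          rw [← pow_succ]
          congr 1
          have := Nat.one_le_two_pow (n := e)
          omega
        rw [mul_pow, ← h3]
        linear_combination (-(starRingEnd ℂ) z ^ 2 ^ e * w ^ (2 ^ e - 1) * w * chi e z w) * h2
      rw [e1, e2, ← e3, Complex.re_ofReal_mul]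
      ring
    have h2 : ∫ φ, ((starRingEnd ℂ) z ^ (2 ^ e) * (starRingEnd ℂ) z ^ (2 ^ e - 1) *
          (E e z (ee φ) ^ 2 * ee φ)) ∂mu = 0 := by
      rw [integral_const_mul]
      have h3 := mean_value (h := fun w => E e z w ^ 2 * w)
        (((differentiable_E_snd e z).pow 2).mul differentiable_id)
      rw [h3]
      simp
    have hc2 : Continuous (fun φ : ℝ => ((starRingEnd ℂ) z ^ (2 ^ e) *
        (starRingEnd ℂ) z ^ (2 ^ e - 1) * (E e z (ee φ) ^ 2 * ee φ))) := by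
      have : Continuous (fun φ : ℝ => E e z (ee φ)) :=
        (continuous_E e).comp (f := fun φ : ℝ => ((z, ee φ) : ℂ × ℂ)) (by fun_prop)
      fun_prop
    have h4 : ∫ φ, ((starRingEnd ℂ) z ^ (2 ^ e) * (starRingEnd ℂ) z ^ (2 ^ e - 1) *
          (E e z (ee φ) ^ 2 * ee φ)).re ∂mu = 0 := by
      have := Complex.reCLM.integral_comp_comm (integrable_mu hc2)
      simp only [Complex.reCLM_apply] at this
      rw [this, h2]
      simp
    simp_rw [h1]
    have i1 : Integrable (fun φ => 1 / 2 * chi e z (ee φ)) mu :=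
      integrable_mu ((hcont e).const_mul _)
    have i2 : Integrable (fun φ => 1 / 2 * ((starRingEnd ℂ) z ^ (2 ^ e) *
        (starRingEnd ℂ) z ^ (2 ^ e - 1) * (E e z (ee φ) ^ 2 * ee φ)).re) mu :=
      integrable_mu ((Complex.continuous_re.comp hc2).const_mul _)
    rw [integral_add i1 i2, integral_const_mul, integral_const_mul, ih, h4]
    ring

theorem integral_chi (e : ℕ) : ∫ x, chi e (ee x.1) (ee x.2) ∂mu2 = (1 / 2) ^ e := by
  have hc : Continuous (fun x : ℝ × ℝ => chi e (ee x.1) (ee x.2)) :=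
    (continuous_chi e).comp (f := fun x : ℝ × ℝ => ((ee x.1, ee x.2) : ℂ × ℂ)) (by fun_prop)
  have hi := integrable_mu2 hc
  unfold mu2 at hi ⊢
  rw [integral_prod _ hi]
  simp only [integral_chi_inner e _ (norm_ee _)]
  simp

/-! ### Lift to two variables -/

/-- the polynomial version of `E` -/
noncomputable def EP (e : ℕ) : MvPolynomial (Fin 2) ℂ :=
  ∏ i ∈ Finset.range e, (MvPolynomial.C (1 / 2) *
    (MvPolynomial.X 0 ^ (2 ^ i) + MvPolynomial.X 1 ^ (2 ^ i)))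

lemma eval_EP (e : ℕ) (z w : ℂ) : MvPolynomial.eval ![z, w] (EP e) = E e z w := by
  simp only [EP, E, map_prod, map_mul, map_add, map_pow, MvPolynomial.eval_C, MvPolynomial.eval_X,
    Matrix.cons_val_zero, Matrix.cons_val_one]
  apply Finset.prod_congr rfl
  intro i _
  ring

/-- lift of a one-variable polynomial -/
noncomputable def XP (e : ℕ) (h' : Polynomial ℂ) : MvPolynomial (Fin 2) ℂ :=
  EP e ^ 2 * Polynomial.aeval (MvPolynomial.X 0 * MvPolynomial.X 1) h'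

lemma eval_XP (e : ℕ) (h' : Polynomial ℂ) (z w : ℂ) :
    MvPolynomial.eval ![z, w] (XP e h') = E e z w ^ 2 * h'.eval (z * w) := by
  rw [XP, map_mul, map_pow, eval_EP]
  congr 1
  rw [Polynomial.aeval_def, Polynomial.hom_eval₂]
  have h1 : (MvPolynomial.eval ![z, w]).comp (algebraMap ℂ (MvPolynomial (Fin 2) ℂ)) =
      RingHom.id ℂ := by
    ext c
    simp
  rw [h1]
  simp [Polynomial.eval₂_id]

/-- on the torus the lift is a cut-off times the one-variable polynomial at `zw` -/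
lemma eval_XP_torus (e : ℕ) (h' : Polynomial ℂ) {z w : ℂ} (hz : ‖z‖ = 1) (hw : ‖w‖ = 1) :
    MvPolynomial.eval ![z, w] (XP e h') =
      (chi e z w : ℂ) * (Polynomial.X ^ (2 ^ e - 1) * h').eval (z * w) := by
  rw [eval_XP, E_sq e hz hw]
  simp only [Polynomial.eval_mul, Polynomial.eval_pow, Polynomial.eval_X]
  ring

lemma eval_XP_diag (e : ℕ) (h' : Polynomial ℂ) (z : ℂ) :
    MvPolynomial.eval ![z, z] (XP e h') = (Polynomial.X ^ (2 ^ e - 1) * h').eval (z ^ 2) := by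
  rw [eval_XP, E_diag]
  simp only [Polynomial.eval_mul, Polynomial.eval_pow, Polynomial.eval_X]
  rw [← pow_mul, ← pow_mul, mul_comm 2, sq]

lemma eval_XP_norm (e : ℕ) (h' : Polynomial ℂ) {B r : ℝ}
    (hB : ∀ w : ℂ, ‖w‖ ≤ 1 → ‖h'.eval w‖ ≤ B) {z w : ℂ} (hr : r ≤ 1) (hz : ‖z‖ ≤ r)
    (hw : ‖w‖ ≤ r) : ‖MvPolynomial.eval ![z, w] (XP e h')‖ ≤ (r ^ (2 ^ e - 1)) ^ 2 * B := by
  rw [eval_XP, norm_mul, norm_pow]
  have hr0 : 0 ≤ r := (norm_nonneg z).trans hz
  have h1 := norm_E_le e hz hw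
  have h2 := hB (z * w) (by
    rw [norm_mul]
    calc ‖z‖ * ‖w‖ ≤ 1 * 1 := by gcongr <;> linarith
      _ = 1 := one_mul 1)
  gcongr

end Pool.Agent.Lib.MP_7d8448_an
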