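import Pool.Agent.Lib.MP_7d8448_an.Params
import Pool.Agent.Lib.MP_7d8448_an.Lift
import Pool.Agent.Lib.MP_7d8448_an.Density

/-!
The function `F`, its holomorphy and its norm bounds.
-/

set_option autoImplicit false

open MeasureTheory Complex Set Metric

namespace Pool.Agent.Lib.MP_7d8448_an

/-! ### General facts -/

lemma differentiable_mveval (P : MvPolynomial (Fin 2) ℂ) :
    Differentiable ℂ (fun z : ℂ × ℂ => MvPolynomial.eval ![z.1, z.2] P) := by
  induction P using MvPolynomial.induction_on with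
  | C a => simp
  | add p q hp hq =>
    simp only [map_add]
    exact hp.add hq
  | mul_X p i hp =>
    simp only [map_mul, MvPolynomial.eval_X]
    apply hp.mul
    fin_cases i
    · exact differentiable_fst
    · exact differentiable_snd

/-- Cauchy estimate for the derivative on the bidisc -/
lemma fderiv_bound {f : ℂ × ℂ → ℂ} (hf : Differentiable ℂ f) {r r' B : ℝ}
    (hrr : r < r') (hB : ∀ z, ‖z‖ ≤ r' → ‖f z‖ ≤ B) (hB0 : 0 ≤ B) {z : ℂ × ℂ} (hz : ‖z‖ ≤ r) :
    ‖fderiv ℂ f z‖ ≤ B / (r' - r) := by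
  have hpos : 0 < r' - r := by linarith
  apply ContinuousLinearMap.opNorm_le_bound _ (by positivity)
  intro v
  rcases eq_or_ne v 0 with rfl | hv
  · simp
  have hv0 : 0 < ‖v‖ := norm_pos_iff.mpr hv
  set φ : ℂ → ℂ := fun l => f (z + l • v) with hφ
  have hφd : Differentiable ℂ φ := by
    apply hf.comp
    fun_prop
  have h1 : deriv φ 0 = fderiv ℂ f z v := by
    have h2 : HasDerivAt (fun l : ℂ => z + l • v) v 0 := by
      have := ((hasDerivAt_id (0:ℂ)).smul_const v).const_add z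
      simpa using this
    have h3 : HasFDerivAt f (fderiv ℂ f (z + (0:ℂ) • v)) (z + (0:ℂ) • v) :=
      (hf _).hasFDerivAt
    have h4 := h3.comp_hasDerivAt (0:ℂ) h2
    rw [zero_smul, add_zero] at h4
    exact h4.deriv
  have hR : 0 < (r' - r) / ‖v‖ := by positivity
  have h2 := Complex.norm_deriv_le_of_forall_mem_sphere_norm_le (c := (0:ℂ)) (R := (r' - r) / ‖v‖)
    (C := B) (f := φ) hR hφd.diffContOnCl (by
      intro l hl
      apply hB
      have hl' : ‖l‖ = (r' - r) / ‖v‖ := by simpa using hl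
      calc ‖z + l • v‖ ≤ ‖z‖ + ‖l • v‖ := norm_add_le _ _
        _ = ‖z‖ + (r' - r) := by rw [norm_smul, hl']; field_simp
        _ ≤ r' := by linarith)
  rw [h1] at h2
  refine h2.trans (le_of_eq ?_)
  field_simp

/-- locally normally convergent series of entire functions -/
theorem differentiableOn_tsum2 {f : ℕ → ℂ × ℂ → ℂ} (hf : ∀ n, Differentiable ℂ (f n))
    (hb : ∀ r : ℝ, 0 ≤ r → r < 1 → ∃ u : ℕ → ℝ, Summable u ∧ ∀ n z, ‖z‖ ≤ r → ‖f n z‖ ≤ u n) :
    DifferentiableOn ℂ (fun z => ∑' n, f n z) (ball 0 1) := by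
  intro z hz
  have hz' : ‖z‖ < 1 := by simpa using hz
  obtain ⟨r, hr1, hr2⟩ := exists_between hz'
  obtain ⟨r', hr1', hr2'⟩ := exists_between hr2
  have hr0 : 0 ≤ r := (norm_nonneg z).trans hr1.le
  obtain ⟨u, hu, hub⟩ := hb r' (hr0.trans hr1'.le) hr2'
  have hu0 : ∀ n, 0 ≤ u n := fun n =>
    (norm_nonneg _).trans (hub n 0 (by simp; exact hr0.trans hr1'.le))
  have h1 := hasFDerivAt_tsum_of_isPreconnected (𝕜 := ℂ) (f := f) (f' := fun n x => fderiv ℂ (f n) x)
    (u := fun n => u n / (r' - r)) (s := ball 0 r) (x₀ := 0) (x := z) (hu.div_const _)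
    isOpen_ball (convex_ball _ _).isPreconnected
    (fun n x _ => (hf n x).hasFDerivAt)
    (fun n x hx => fderiv_bound (hf n) hr1' (hub n) (hu0 n) (by
      have : ‖x‖ < r := by simpa using hx
      exact this.le))
    (mem_ball_self (by linarith [norm_nonneg z]))
    (Summable.of_norm_bounded hu (fun n => hub n 0 (by simp; exact hr0.trans hr1'.le)))
    (by simpa using hr1)
  exact h1.differentiableAt.differentiableWithinAt

/-- a convexity inequality -/
lemma abel_exp (K : ℕ) : ∀ (a S : ℕ → ℝ), (∀ k, 0 ≤ a k) → (a 0 ≤ 1) → (∀ k, a (k + 1) ≤ a k) →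
    Real.exp (∑ k ∈ Finset.range K, a k * (S (k + 1) - S k)) ≤
      1 + ∑ k ∈ Finset.range K, a k * Real.exp (S (k + 1) - S 0) := by
  induction K with
  | zero => intro a S _ _ _; simp
  | succ K ih =>
    intro a S ha0 ha1 hanti
    have hle : ∀ k, a k ≤ a 0 := by
      intro k
      induction k with
      | zero => exact le_rfl
      | succ k ihk => exact (hanti k).trans ihk
    rcases (ha0 0).eq_or_lt with h0 | h0
    · have hz : ∀ k, a k = 0 := fun k => le_antisymm (h0 ▸ hle k) (ha0 k)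
      simp [hz]
    · set c := a 0 with hc
      set a' : ℕ → ℝ := fun k => a (k + 1) / c with ha'
      set S' : ℕ → ℝ := fun k => S (k + 1) with hS'
      have h1 := ih a' S' (fun k => div_nonneg (ha0 _) h0.le)
        ((div_le_one h0).mpr (hanti 0)) (fun k => by
          simp only [ha']
          exact div_le_div_of_nonneg_right (hanti _) h0.le)
      rw [Finset.sum_range_succ', Finset.sum_range_succ']
      set A := ∑ k ∈ Finset.range K, a' k * (S' (k + 1) - S' k) with hA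
      have e1 : ∑ k ∈ Finset.range K, a (k + 1) * (S (k + 1 + 1) - S (k + 1)) = c * A := by
        rw [hA, Finset.mul_sum]
        apply Finset.sum_congr rfl
        intro k _
        simp only [ha', hS']
        field_simp
      have e2 : ∑ k ∈ Finset.range K, a (k + 1) * Real.exp (S (k + 1 + 1) - S 0) =
          c * Real.exp (S 1 - S 0) * ∑ k ∈ Finset.range K, a' k * Real.exp (S' (k + 1) - S' 0) := by
        rw [Finset.mul_sum]
        apply Finset.sum_congr rfl
        intro k _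
        simp only [ha', hS']
        have : Real.exp (S (k + 1 + 1) - S 0) =
            Real.exp (S 1 - S 0) * Real.exp (S (k + 1 + 1) - S (0 + 1)) := by
          rw [← Real.exp_add]; congr 1; ring
        rw [this]
        field_simp
      rw [e1, e2]
      have e3 : c * A + c * (S (0 + 1) - S 0) = (1 - c) * 0 + c * (S 1 - S 0 + A) := by ring
      rw [e3]
      have h2 := convexOn_exp.2 (mem_univ (0:ℝ)) (mem_univ (S 1 - S 0 + A))
        (by linarith : 0 ≤ 1 - c) h0.le (by ring)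
      simp only [smul_eq_mul, Real.exp_zero, mul_one] at h2
      refine h2.trans ?_
      rw [Real.exp_add]
      have h3 : c * (Real.exp (S 1 - S 0) * Real.exp A) ≤ c * (Real.exp (S 1 - S 0) *
          (1 + ∑ k ∈ Finset.range K, a' k * Real.exp (S' (k + 1) - S' 0))) := by
        gcongr
      have h4 : c * Real.exp (S (0 + 1) - S 0) = c * Real.exp (S 1 - S 0) := rfl
      rw [h4]
      nlinarith [h3]

lemma exists_bound_mul_pow {r : ℝ} (hr : 0 ≤ r) (hr1 : r < 1) :
    ∃ C : ℝ, ∀ m : ℕ, (m : ℝ) * r ^ m ≤ C := by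
  have h1 := tendsto_self_mul_const_pow_of_lt_one hr hr1
  obtain ⟨C, hC⟩ := h1.bddAbove_range
  exact ⟨C, fun m => hC ⟨m, rfl⟩⟩

lemma sq_le_four_pow (m : ℕ) : m ^ 2 ≤ 2 ^ (2 * m) := by
  have h1 : m < 2 ^ m := Nat.lt_two_pow_self
  calc m ^ 2 ≤ (2 ^ m) ^ 2 := Nat.pow_le_pow_left h1.le 2
    _ = 2 ^ (2 * m) := by rw [← pow_mul, mul_comm]

lemma summable_bound {t : ℕ} (ht : 1 ≤ t) {r : ℝ} (hr : 0 ≤ r) (hr1 : r < 1) :
    Summable (fun k => (r ^ Nk t k) ^ 2 * (64 * (tk t k : ℝ) ^ 2)) := by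
  obtain ⟨C, hC⟩ := exists_bound_mul_pow hr hr1
  have hC0 : 0 ≤ C := by simpa using hC 0
  apply Summable.of_nonneg_of_le (f := fun k => 64 * C * (1 / 2) ^ k)
  · intro k; positivity
  · intro k
    have h1 : (r ^ Nk t k) ^ 2 ≤ r ^ (2 ^ ek t k) := by
      rw [← pow_mul]
      apply pow_le_pow_of_le_one hr hr1.le
      unfold Nk
      have h2 : 2 ≤ 2 ^ ek t k := by
        calc 2 = 2 ^ 1 := rfl
          _ ≤ 2 ^ ek t k := by
            apply Nat.pow_le_pow_right (by norm_num)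
            unfold ek
            have := le_tk t k
            omega
      omega
    have h2 : (tk t k : ℝ) ^ 2 ≤ ((2 ^ ek t k : ℕ) : ℝ) * (1 / 2) ^ k := by
      have h3 : (tk t k) ^ 2 * 2 ^ k ≤ 2 ^ ek t k := by
        unfold ek
        rw [pow_add]
        exact Nat.mul_le_mul_right _ (sq_le_four_pow _)
      have h4 : ((tk t k : ℝ)) ^ 2 * 2 ^ k ≤ ((2 ^ ek t k : ℕ) : ℝ) := by exact_mod_cast h3
      have h5 : (1 / 2 : ℝ) ^ k * 2 ^ k = 1 := by rw [← mul_pow]; norm_num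
      calc (tk t k : ℝ) ^ 2 = (tk t k : ℝ) ^ 2 * ((1 / 2 : ℝ) ^ k * 2 ^ k) := by rw [h5, mul_one]
        _ = ((tk t k : ℝ) ^ 2 * 2 ^ k) * (1 / 2) ^ k := by ring
        _ ≤ _ := by gcongr
    calc (r ^ Nk t k) ^ 2 * (64 * (tk t k : ℝ) ^ 2)
        ≤ r ^ (2 ^ ek t k) * (64 * (((2 ^ ek t k : ℕ) : ℝ) * (1 / 2) ^ k)) := by gcongr
      _ = 64 * (((2 ^ ek t k : ℕ) : ℝ) * r ^ (2 ^ ek t k)) * (1 / 2) ^ k := by ring
      _ ≤ 64 * C * (1 / 2) ^ k := by
          gcongr
          exact hC _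
  · exact (summable_geometric_of_lt_one (by norm_num) (by norm_num)).mul_left _

variable {t : ℕ} (d : Data t)

namespace Data

/-- the two-variable polynomials `X_k` -/
noncomputable def XX (k : ℕ) : MvPolynomial (Fin 2) ℂ := XP (ek t k) (d.h' k)

/-- their values -/
noncomputable def L (k : ℕ) (z : ℂ × ℂ) : ℂ := MvPolynomial.eval ![z.1, z.2] (d.XX k)

/-- partial sums -/
noncomputable def U (a b : ℕ) (z : ℂ × ℂ) : ℂ := ∑ k ∈ Finset.Ico a b, d.L k z

/-- the logarithm of `F` -/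
noncomputable def V (z : ℂ × ℂ) : ℂ := ∑' k, d.L k z

/-- the function `F` -/
noncomputable def F (z : ℂ × ℂ) : ℂ := exp (d.V z)

lemma differentiable_L (k : ℕ) : Differentiable ℂ (d.L k) := differentiable_mveval _

lemma differentiable_U (a b : ℕ) : Differentiable ℂ (d.U a b) := by
  have : d.U a b = fun z => ∑ k ∈ Finset.Ico a b, d.L k z := rfl
  rw [this]
  exact Differentiable.fun_sum (fun k _ => d.differentiable_L k)

lemma norm_L_le (k : ℕ) {r : ℝ} (hr : r ≤ 1) {z : ℂ × ℂ} (hz : ‖z‖ ≤ r) :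
    ‖d.L k z‖ ≤ (r ^ Nk t k) ^ 2 * (64 * (tk t k : ℝ) ^ 2) :=
  eval_XP_norm _ _ (fun _ hw => d.norm_h'_le k hw) hr ((norm_fst_le z).trans hz)
    ((norm_snd_le z).trans hz)

lemma differentiableOn_V (ht : 1 ≤ t) : DifferentiableOn ℂ d.V (ball 0 1) := by
  apply differentiableOn_tsum2 (fun k => d.differentiable_L k)
  intro r hr hr1
  exact ⟨_, summable_bound ht hr hr1, fun k z hz => d.norm_L_le k hr1.le hz⟩

lemma differentiableOn_F (ht : 1 ≤ t) : DifferentiableOn ℂ d.F (ball 0 1) := by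
  intro z hz
  exact (d.differentiableOn_V ht z hz).cexp

lemma summable_L (ht : 1 ≤ t) {z : ℂ × ℂ} (hz : ‖z‖ < 1) : Summable (fun k => d.L k z) :=
  Summable.of_norm_bounded (summable_bound ht (norm_nonneg z) hz)
    (fun k => d.norm_L_le k hz.le le_rfl)

lemma U_zero (b : ℕ) (z : ℂ × ℂ) : d.U 0 b z = ∑ k ∈ Finset.range b, d.L k z := by
  rw [U, Nat.Ico_zero_eq_range]

lemma tendsto_U (ht : 1 ≤ t) (a : ℕ) {z : ℂ × ℂ} (hz : ‖z‖ < 1) :
    Filter.Tendsto (fun K => d.U a K z) Filter.atTop (nhds (d.V z - d.U 0 a z)) := by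
  have h1 := (d.summable_L ht hz).hasSum.tendsto_sum_nat
  have h2 : ∀ᶠ K in Filter.atTop, ∑ k ∈ Finset.range K, d.L k z - d.U 0 a z = d.U a K z := by
    filter_upwards [Filter.eventually_ge_atTop a] with K hK
    rw [U_zero, U, Finset.sum_Ico_eq_sub _ hK]
  exact (h1.sub_const _).congr' h2

lemma norm_U_le (ht : 1 ≤ t) {r : ℝ} (hr : 0 ≤ r) (hr1 : r < 1) :
    ∃ B : ℝ, ∀ a b z, ‖z‖ ≤ r → ‖d.U a b z‖ ≤ B := by
  have hs := summable_bound ht hr hr1
  refine ⟨∑' k, (r ^ Nk t k) ^ 2 * (64 * (tk t k : ℝ) ^ 2), ?_⟩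
  intro a b z hz
  calc ‖d.U a b z‖ ≤ ∑ k ∈ Finset.Ico a b, ‖d.L k z‖ := norm_sum_le _ _
    _ ≤ ∑ k ∈ Finset.Ico a b, (r ^ Nk t k) ^ 2 * (64 * (tk t k : ℝ) ^ 2) :=
        Finset.sum_le_sum (fun k _ => d.norm_L_le k hr1.le hz)
    _ ≤ _ := hs.sum_le_tsum _ (fun i _ => by positivity)

/-- on the torus -/
lemma L_torus_re (k : ℕ) {z w : ℂ} (hz : ‖z‖ = 1) (hw : ‖w‖ = 1) :
    (d.L k (z, w)).re = chi (ek t k) z w * (d.S (k + 1) (z * w) - d.S k (z * w)) := by
  have h1 : d.L k (z, w) = (chi (ek t k) z w : ℂ) * (d.h k).eval (z * w) :=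
    eval_XP_torus _ _ hz hw
  rw [h1, Complex.re_ofReal_mul, d.S_succ]
  ring

lemma ek_mono (k : ℕ) : ek t k ≤ ek t (k + 1) := by rw [ek_succ]; omega

/-- pointwise bound on the torus -/
lemma torus_bound (a b : ℕ) {c : ℝ} (_hc : 0 ≤ c) {B : ℕ → ℝ} {z w : ℂ} (hz : ‖z‖ = 1)
    (hw : ‖w‖ = 1)
    (hB : ∀ k, a ≤ k → k < b → c * (d.S (k + 1) (z * w) - d.S a (z * w)) ≤ B k) :
    Real.exp (c * (d.U a b (z, w)).re) ≤
      1 + ∑ k ∈ Finset.Ico a b, chi (ek t k) z w * Real.exp (B k) := by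
  have h1 := abel_exp (b - a) (fun k => chi (ek t (a + k)) z w) (fun k => c * d.S (a + k) (z * w))
    (fun k => chi_nonneg _ _ _) (chi_le_one _ hz.le hw.le)
    (fun k => chi_anti (by rw [← add_assoc]; exact ek_mono _) hz.le hw.le)
  have e1 : c * (d.U a b (z, w)).re = ∑ k ∈ Finset.range (b - a),
      chi (ek t (a + k)) z w * (c * d.S (a + (k + 1)) (z * w) - c * d.S (a + k) (z * w)) := by
    rw [U, Complex.re_sum, Finset.sum_Ico_eq_sum_range, Finset.mul_sum]
    apply Finset.sum_congr rfl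
    intro k _
    rw [d.L_torus_re _ hz hw, ← add_assoc]
    ring
  rw [e1]
  refine h1.trans ?_
  gcongr
  rw [Finset.sum_Ico_eq_sum_range]
  apply Finset.sum_le_sum
  intro k hk
  have hk' := Finset.mem_range.mp hk
  have h2 := hB (a + k) (by omega) (by omega)
  apply mul_le_mul_of_nonneg_left _ (chi_nonneg _ _ _)
  apply Real.exp_le_exp.mpr
  rw [add_zero]
  refine le_trans (le_of_eq ?_) h2
  rw [← add_assoc]
  ring

lemma geom_tail (a b : ℕ) : ∑ k ∈ Finset.Ico a b, (1 / 2 : ℝ) ^ k ≤ 2 * (1 / 2) ^ a := by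
  rcases le_total a b with h | h
  · rw [geom_sum_Ico (by norm_num) h]
    have : (0:ℝ) < (1 / 2) ^ b := by positivity
    have h2 : ((1 / 2 : ℝ) ^ b - (1 / 2) ^ a) / (1 / 2 - 1) = 2 * ((1 / 2) ^ a - (1 / 2) ^ b) := by
      ring
    rw [h2]
    linarith
  · rw [Finset.Ico_eq_empty_of_le h]
    simp

lemma chi_exp_integral (k : ℕ) :
    ∫ x : ℝ × ℝ, chi (ek t k) (ee x.1) (ee x.2) * Real.exp (2 * Tk t k) ∂mu2 = (1 / 2) ^ k := by
  rw [integral_mul_const, integral_chi, exp_two_Tk]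
  unfold ek
  rw [pow_add]
  have : (1 / 2 : ℝ) ^ (2 * tk t k) * 2 ^ (2 * tk t k) = 1 := by rw [← mul_pow]; norm_num
  linear_combination (1 / 2 : ℝ) ^ k * this

/-- integral bound on the torus -/
lemma torus_integral (a b : ℕ) {c : ℝ} (hc : 0 ≤ c)
    (hB : ∀ k, a ≤ k → k < b → ∀ ξ : ℂ, ‖ξ‖ = 1 →
      c * (d.S (k + 1) ξ - d.S a ξ) ≤ 2 * Tk t k) :
    ∫ x, Real.exp (c * (d.U a b (dil 1 x)).re) ∂mu2 ≤ 1 + 2 * (1 / 2) ^ a := by
  have hcU : Continuous (fun x : ℝ × ℝ => Real.exp (c * (d.U a b (dil 1 x)).re)) := by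
    have := (d.differentiable_U a b).continuous
    fun_prop
  have hcc : ∀ k, Continuous (fun x : ℝ × ℝ =>
      chi (ek t k) (ee x.1) (ee x.2) * Real.exp (2 * Tk t k)) := by
    intro k
    have := (continuous_chi (ek t k)).comp
      (f := fun x : ℝ × ℝ => ((ee x.1, ee x.2) : ℂ × ℂ)) (by fun_prop)
    exact this.mul continuous_const
  calc ∫ x, Real.exp (c * (d.U a b (dil 1 x)).re) ∂mu2
      ≤ ∫ x : ℝ × ℝ, (1 + ∑ k ∈ Finset.Ico a b,
          chi (ek t k) (ee x.1) (ee x.2) * Real.exp (2 * Tk t k)) ∂mu2 := by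
        apply integral_mono (integrable_mu2 hcU)
        · apply integrable_mu2
          exact continuous_const.add (continuous_finsetSum _ (fun k _ => hcc k))
        · intro x
          have h1 := d.torus_bound a b hc (B := fun k => 2 * Tk t k) (norm_ee x.1) (norm_ee x.2)
            (fun k h1 h2 => hB k h1 h2 _ (by rw [norm_mul, norm_ee, norm_ee, one_mul]))
          have h2 : dil 1 x = (ee x.1, ee x.2) := by simp [dil]
          simp only [h2]
          exact h1
    _ = 1 + ∑ k ∈ Finset.Ico a b, (1 / 2 : ℝ) ^ k := by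
        rw [integral_add (integrable_const _)
          (integrable_finsetSum _ (fun k _ => integrable_mu2 (hcc k))), integral_finsetSum _
          (fun k _ => integrable_mu2 (hcc k))]
        simp only [chi_exp_integral]
        simp
    _ ≤ _ := by gcongr; exact geom_tail a b

end Data

end Pool.Agent.Lib.MP_7d8448_an
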