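import Pool.Agent.Lib.MP_7d8448_an.Sub

/-!
The abstract lower-bound mechanism: a chain of representing measures which stop on good arcs.
-/

set_option autoImplicit false

open MeasureTheory Complex Set Metric

namespace Pool.Agent.Lib.MP_7d8448_an

/-- the trigonometric polynomial whose positive part detects good arcs -/
noncomputable def Gam (w : ℂ) : ℂ := 1 / 6 + w / 2 + w ^ 2 / 3

/-- weight of the good arcs -/
noncomputable def gam (m : ℕ) (θ : ℝ) : ℝ := max 0 (Gam (ee θ ^ m)).re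

lemma Gam_re {w : ℂ} (hw : ‖w‖ = 1) : (Gam w).re = (2 / 3) * (w.re - 1 / 4) * (w.re + 1) := by
  have h2 : w.re ^ 2 + w.im ^ 2 = 1 := by
    have := Complex.sq_norm_sub_sq_re w
    rw [hw] at this
    linarith
  have h1 : (Gam w).re = 1 / 6 + w.re / 2 + (w.re ^ 2 - w.im ^ 2) / 3 := by
    unfold Gam
    rw [show (1 / 6 + w / 2 + w ^ 2 / 3 : ℂ) =
      ((1 / 6 : ℝ) : ℂ) + ((1 / 2 : ℝ) : ℂ) * w + ((1 / 3 : ℝ) : ℂ) * w ^ 2 by push_cast; ring]
    rw [Complex.add_re, Complex.add_re, Complex.re_ofReal_mul, Complex.re_ofReal_mul,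
      Complex.ofReal_re]
    simp [sq]
    ring
  rw [h1]
  nlinarith

lemma norm_pow_ee (m : ℕ) (θ : ℝ) : ‖ee θ ^ m‖ = 1 := by simp [norm_ee]

lemma gam_nonneg (m : ℕ) (θ : ℝ) : 0 ≤ gam m θ := le_max_left _ _

lemma gam_le_one (m : ℕ) (θ : ℝ) : gam m θ ≤ 1 := by
  unfold gam
  apply max_le zero_le_one
  rw [Gam_re (norm_pow_ee m θ)]
  have h1 := Complex.abs_re_le_norm (ee θ ^ m)
  rw [norm_pow_ee] at h1
  obtain ⟨a, b⟩ := abs_le.mp h1
  nlinarith

lemma gam_pos_imp {m : ℕ} {θ : ℝ} (h : 0 < gam m θ) : 1 / 4 ≤ (ee θ ^ m).re := by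
  unfold gam at h
  rw [lt_max_iff] at h
  rcases h with h | h
  · exact absurd h (lt_irrefl _)
  · rw [Gam_re (norm_pow_ee m θ)] at h
    have h1 := Complex.abs_re_le_norm (ee θ ^ m)
    rw [norm_pow_ee] at h1
    obtain ⟨a, b⟩ := abs_le.mp h1
    by_contra hlt
    push Not at hlt
    have : (ee θ ^ m).re - 1 / 4 < 0 := by linarith
    have h2 : 0 ≤ (ee θ ^ m).re + 1 := by linarith
    nlinarith

lemma continuous_gam (m : ℕ) : Continuous (gam m) := by
  unfold gam Gam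
  fun_prop

lemma integral_gam {m : ℕ} {z : ℂ} (hz : ‖z‖ < 1) (hm : ‖z‖ ^ m ≤ 1 / 20) :
    1 / 8 ≤ ∫ θ, gam m θ * PK z θ ∂mu := by
  have hd : Differentiable ℂ (fun w : ℂ => Gam (w ^ m)) := by unfold Gam; fun_prop
  have h1 := poisson (h := fun w => Gam (w ^ m)) hd.diffContOnCl hz
  have hc : Continuous (fun θ => (PK z θ : ℂ) * Gam (ee θ ^ m)) := by
    apply Continuous.mul
    · exact Complex.continuous_ofReal.comp (continuous_PK hz)
    · exact hd.continuous.comp continuous_ee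
  have h2 : ∫ θ, ((PK z θ : ℂ) * Gam (ee θ ^ m)).re ∂mu = (Gam (z ^ m)).re := by
    have := Complex.reCLM.integral_comp_comm (integrable_mu hc)
    simp only [Complex.reCLM_apply] at this
    rw [this, h1]
  have h3 : 1 / 8 ≤ (Gam (z ^ m)).re := by
    have h4 : ‖z ^ m‖ ≤ 1 / 20 := by rw [norm_pow]; exact hm
    have h5 : |(z ^ m / 2 + (z ^ m) ^ 2 / 3).re| ≤ 1 / 24 := by
      refine (Complex.abs_re_le_norm _).trans ?_
      refine (norm_add_le _ _).trans ?_
      rw [norm_div, norm_div, norm_pow (z ^ m) 2, Complex.norm_ofNat, Complex.norm_ofNat]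
      have : 0 ≤ ‖z ^ m‖ := norm_nonneg _
      nlinarith
    have h6 : (Gam (z ^ m)).re = 1 / 6 + (z ^ m / 2 + (z ^ m) ^ 2 / 3).re := by
      unfold Gam
      rw [add_assoc, Complex.add_re]
      norm_num
    rw [h6]
    have := (abs_le.mp h5).1
    linarith
  rw [← h2] at h3
  refine h3.trans ?_
  apply integral_mono (integrable_mu (Complex.continuous_re.comp hc))
    (integrable_mu ((continuous_gam m).mul (continuous_PK hz)))
  intro θ
  show ((PK z θ : ℂ) * Gam (ee θ ^ m)).re ≤ gam m θ * PK z θ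
  rw [Complex.re_ofReal_mul, mul_comm]
  exact mul_le_mul_of_nonneg_right (le_max_right _ _) (PK_pos hz θ).le

/-- the chain of densities -/
noncomputable def beta (ρ : ℕ → ℝ) (m : ℕ → ℕ) : ℕ → ℝ → ℝ
  | 0 => fun θ => PK (ρ 0 : ℂ) θ
  | (k + 1) => fun θ => ∫ φ, PK ((ρ (k + 1) : ℂ) * ee φ) θ * ((1 - gam (m (k + 1)) φ) *
      beta ρ m k φ) ∂mu

section

variable {ρ : ℕ → ℝ} {m : ℕ → ℕ} (hρ0 : ∀ k, 0 < ρ k) (hρ1 : ∀ k, ρ k < 1)

include hρ0 hρ1

lemma norm_rho (k : ℕ) (φ : ℝ) : ‖(ρ k : ℂ) * ee φ‖ < 1 := by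
  rw [norm_real_mul_ee (hρ0 k).le]; exact hρ1 k

lemma norm_rho' (k : ℕ) : ‖(ρ k : ℂ)‖ < 1 := by
  rw [Complex.norm_real, Real.norm_eq_abs, abs_of_pos (hρ0 k)]; exact hρ1 k

lemma continuous_beta (k : ℕ) : Continuous (beta ρ m k) := by
  induction k with
  | zero => exact continuous_PK (norm_rho' hρ0 hρ1 0)
  | succ k ih =>
    simp only [beta]
    have h1 : Continuous (fun x : ℝ × ℝ => PK ((ρ (k + 1) : ℂ) * ee x.2) x.1 *
        ((1 - gam (m (k + 1)) x.2) * beta ρ m k x.2)) := by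
      apply Continuous.mul
      · exact continuous_PK_comp (by fun_prop) (by fun_prop) (fun x => norm_rho hρ0 hρ1 _ _)
      · exact (continuous_const.sub ((continuous_gam _).comp continuous_snd)).mul
          (ih.comp continuous_snd)
    exact continuous_integral_mu h1

lemma beta_nonneg (k : ℕ) (θ : ℝ) : 0 ≤ beta ρ m k θ := by
  induction k generalizing θ with
  | zero => exact (PK_pos (norm_rho' hρ0 hρ1 0) θ).le
  | succ k ih =>
    simp only [beta]
    apply integral_nonneg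
    intro φ
    apply mul_nonneg (PK_pos (norm_rho hρ0 hρ1 _ _) _).le
    exact mul_nonneg (by linarith [gam_le_one (m (k + 1)) φ]) (ih φ)

lemma continuous_weight (k : ℕ) :
    Continuous (fun φ => (1 - gam (m (k + 1)) φ) * beta ρ m k φ) :=
  (continuous_const.sub (continuous_gam _)).mul (continuous_beta hρ0 hρ1 k)

lemma weight_nonneg (k : ℕ) (φ : ℝ) : 0 ≤ (1 - gam (m (k + 1)) φ) * beta ρ m k φ :=
  mul_nonneg (by linarith [gam_le_one (m (k + 1)) φ]) (beta_nonneg hρ0 hρ1 k φ)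

lemma beta_le (k : ℕ) (θ : ℝ) : beta ρ m k θ ≤ (1 + ρ 0) / (1 - ρ 0) := by
  have hB : 0 ≤ (1 + ρ 0) / (1 - ρ 0) := by
    have := hρ0 0; have := hρ1 0
    apply div_nonneg <;> linarith
  induction k generalizing θ with
  | zero =>
    have := PK_le (norm_rho' hρ0 hρ1 0) θ
    rw [Complex.norm_real, Real.norm_eq_abs, abs_of_pos (hρ0 0)] at this
    exact this
  | succ k ih =>
    have hcP : Continuous (fun φ => PK ((ρ (k + 1) : ℂ) * ee φ) θ) :=
      continuous_PK_comp (by fun_prop) (by fun_prop) (fun x => norm_rho hρ0 hρ1 _ _)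
    calc beta ρ m (k + 1) θ ≤ ∫ φ, PK ((ρ (k + 1) : ℂ) * ee φ) θ * ((1 + ρ 0) / (1 - ρ 0)) ∂mu := by
          apply integral_mono (integrable_mu (hcP.mul (continuous_weight hρ0 hρ1 k)))
            (integrable_mu (hcP.mul continuous_const))
          intro φ
          apply mul_le_mul_of_nonneg_left _ (PK_pos (norm_rho hρ0 hρ1 _ _) _).le
          have h1 := gam_le_one (m (k + 1)) φ
          have h2 := gam_nonneg (m (k + 1)) φ
          have h3 := ih φ
          have h4 := beta_nonneg (m := m) hρ0 hρ1 k φ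
          nlinarith
      _ = (1 + ρ 0) / (1 - ρ 0) := by
          rw [integral_mul_const, integral_PK_symm (hρ0 _).le (hρ1 _), one_mul]

/-- joint continuity used for Fubini -/
lemma continuous_joint (k : ℕ) {w : ℝ → ℝ} (hw : Continuous w) :
    Continuous (fun x : ℝ × ℝ => PK ((ρ (k + 1) : ℂ) * ee x.2) x.1 *
      ((1 - gam (m (k + 1)) x.2) * beta ρ m k x.2) * w x.1) := by
  apply Continuous.mul _ (hw.comp continuous_fst)
  apply Continuous.mul
  · exact continuous_PK_comp (by fun_prop) (by fun_prop) (fun x => norm_rho hρ0 hρ1 _ _)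
  · exact (continuous_weight hρ0 hρ1 k).comp continuous_snd

lemma integral_beta_mul (k : ℕ) {w : ℝ → ℝ} (hw : Continuous w) :
    ∫ θ, beta ρ m (k + 1) θ * w θ ∂mu =
      ∫ φ, ((1 - gam (m (k + 1)) φ) * beta ρ m k φ) *
        (∫ θ, w θ * PK ((ρ (k + 1) : ℂ) * ee φ) θ ∂mu) ∂mu := by
  have hJ := integrable_mu2 (continuous_joint (m := m) hρ0 hρ1 k hw)
  have e1 : ∀ θ, beta ρ m (k + 1) θ * w θ = ∫ φ, PK ((ρ (k + 1) : ℂ) * ee φ) θ *
      ((1 - gam (m (k + 1)) φ) * beta ρ m k φ) * w θ ∂mu := by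
    intro θ
    rw [integral_mul_const]
    rfl
  simp_rw [e1]
  rw [integral_integral_swap (f := fun θ φ => PK ((ρ (k + 1) : ℂ) * ee φ) θ *
      ((1 - gam (m (k + 1)) φ) * beta ρ m k φ) * w θ) hJ]
  congr 1
  ext φ
  rw [← integral_const_mul]
  congr 1
  ext θ
  ring

lemma mass_succ (k : ℕ) : ∫ θ, beta ρ m (k + 1) θ ∂mu =
    ∫ φ, (1 - gam (m (k + 1)) φ) * beta ρ m k φ ∂mu := by
  have h1 := integral_beta_mul (m := m) hρ0 hρ1 k (w := fun _ => 1) continuous_const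
  simp only [mul_one, one_mul, integral_PK (norm_rho hρ0 hρ1 _ _)] at h1
  exact h1

lemma mass_good (hm : ∀ k, ρ k ^ (m (k + 1)) ≤ 1 / 20) (k : ℕ) :
    1 / 8 * ∫ θ, beta ρ m k θ ∂mu ≤ ∫ θ, beta ρ m k θ * gam (m (k + 1)) θ ∂mu := by
  cases k with
  | zero =>
    have h1 := integral_gam (m := m 1) (norm_rho' hρ0 hρ1 0) (by
      rw [Complex.norm_real, Real.norm_eq_abs, abs_of_pos (hρ0 0)]
      exact hm 0)
    have h2 : ∫ θ, beta ρ m 0 θ ∂mu = 1 := integral_PK (norm_rho' hρ0 hρ1 0)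
    rw [h2, mul_one]
    refine h1.trans (le_of_eq ?_)
    congr 1
    ext θ
    simp only [beta]
    ring
  | succ k =>
    rw [integral_beta_mul hρ0 hρ1 k (continuous_gam _), mass_succ hρ0 hρ1, ← integral_const_mul]
    apply integral_mono
    · exact integrable_mu ((continuous_weight hρ0 hρ1 k).const_mul _)
    · have hJ := integrable_mu2 (continuous_joint (m := m) hρ0 hρ1 k
        (continuous_gam (m (k + 1 + 1))))
      have h2 := hJ.swap.integral_prod_left
      refine h2.congr ?_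
      filter_upwards with φ
      simp only [Function.comp_apply, Prod.swap_prod_mk]
      rw [← integral_const_mul]
      congr 1
      ext θ
      ring
    · intro φ
      have h3 := integral_gam (m := m (k + 1 + 1)) (norm_rho hρ0 hρ1 (k + 1) φ) (by
        rw [norm_real_mul_ee (hρ0 _).le]; exact hm (k + 1))
      have h4 := weight_nonneg (m := m) hρ0 hρ1 k φ
      show 1 / 8 * ((1 - gam (m (k + 1)) φ) * beta ρ m k φ) ≤
        (1 - gam (m (k + 1)) φ) * beta ρ m k φ *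
          ∫ θ, gam (m (k + 1 + 1)) θ * PK ((ρ (k + 1) : ℂ) * ee φ) θ ∂mu
      nlinarith

lemma mass_le (hm : ∀ k, ρ k ^ (m (k + 1)) ≤ 1 / 20) (k : ℕ) :
    ∫ θ, beta ρ m k θ ∂mu ≤ (7 / 8) ^ k := by
  induction k with
  | zero =>
    have h2 : ∫ θ, beta ρ m 0 θ ∂mu = 1 := integral_PK (norm_rho' hρ0 hρ1 0)
    rw [h2]; simp
  | succ k ih =>
    rw [mass_succ hρ0 hρ1]
    have h1 := mass_good hρ0 hρ1 hm k
    have e1 : (fun φ => (1 - gam (m (k + 1)) φ) * beta ρ m k φ) =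
        fun φ => beta ρ m k φ - beta ρ m k φ * gam (m (k + 1)) φ := by
      ext φ; ring
    have k1 : Integrable (fun φ => beta ρ m k φ) mu := integrable_mu (continuous_beta hρ0 hρ1 k)
    have k2 : Integrable (fun φ => beta ρ m k φ * gam (m (k + 1)) φ) mu :=
      integrable_mu ((continuous_beta hρ0 hρ1 k).mul (continuous_gam _))
    rw [e1, integral_sub k1 k2, pow_succ]
    linarith

/-- bound of one term of the chain -/
lemma term_bound (hm : ∀ k, ρ k ^ (m (k + 1)) ≤ 1 / 20) (k : ℕ) {v g : ℝ → ℝ}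
    (hv : Continuous v) (hg : Continuous g) (hv0 : ∀ θ, 0 ≤ v θ)
    {p A G : ℝ} (hp0 : 0 < p) (hp2 : p < 2) (hA : 0 ≤ A) (hg0 : ∀ θ, 0 ≤ g θ)
    (hG : 0 < G) (hgood : ∀ θ, 1 / 4 ≤ (ee θ ^ (m (k + 1))).re → v θ ≤ (A * g θ) ^ p)
    (hgG : ∫ θ, g θ ^ 2 ∂mu ≤ G) :
    ∫ θ, beta ρ m k θ * gam (m (k + 1)) θ * v θ ∂mu ≤
      A ^ p * ((7 / 8) ^ k * ((1 + ρ 0) / (1 - ρ 0) * G / (7 / 8) ^ k) ^ (p / 2)) := by
  set B := (1 + ρ 0) / (1 - ρ 0) with hB
  have hB0 : 0 < B := by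
    have := hρ0 0; have := hρ1 0
    apply div_pos <;> linarith
  set M : ℝ := (7 / 8) ^ k with hM
  have hM0 : 0 < M := by positivity
  set X : ℝ := B * G / M with hX
  have hX0 : 0 < X := by positivity
  have hcb := continuous_beta (m := m) hρ0 hρ1 k
  have i1 : Integrable (fun θ => beta ρ m k θ) mu := integrable_mu hcb
  have i2 : Integrable (fun θ => beta ρ m k θ * g θ ^ 2) mu := integrable_mu (hcb.mul (hg.pow 2))
  have i1' : Integrable (fun θ => (A ^ p * X ^ (p / 2) * (1 - p / 2)) * beta ρ m k θ) mu :=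
    i1.const_mul _
  have i2' : Integrable (fun θ => (A ^ p * X ^ (p / 2) * (p / 2 / X)) *
    (beta ρ m k θ * g θ ^ 2)) mu := i2.const_mul _
  have hpt : ∀ θ, beta ρ m k θ * gam (m (k + 1)) θ * v θ ≤
      (A ^ p * X ^ (p / 2) * (1 - p / 2)) * beta ρ m k θ +
        (A ^ p * X ^ (p / 2) * (p / 2 / X)) * (beta ρ m k θ * g θ ^ 2) := by
    intro θ
    have hb := beta_nonneg (m := m) hρ0 hρ1 k θ
    have h1 : gam (m (k + 1)) θ * v θ ≤ (A * g θ) ^ p := by
      rcases (gam_nonneg (m (k + 1)) θ).eq_or_lt with h | h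
      · rw [← h, zero_mul]
        have := hg0 θ
        positivity
      · have h2 := hgood θ (gam_pos_imp h)
        have h3 := gam_le_one (m (k + 1)) θ
        calc gam (m (k + 1)) θ * v θ ≤ 1 * v θ := mul_le_mul_of_nonneg_right h3 (hv0 θ)
          _ = v θ := one_mul _
          _ ≤ _ := h2
    have h4 : (A * g θ) ^ p = A ^ p * (X ^ (p / 2) * (g θ ^ 2 / X) ^ (p / 2)) := by
      rw [Real.mul_rpow hA (hg0 θ), ← Real.mul_rpow hX0.le (by positivity)]
      congr 1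
      rw [mul_div_cancel₀ _ hX0.ne', ← Real.rpow_natCast (g θ) 2, ← Real.rpow_mul (hg0 θ)]
      congr 1
      push_cast
      ring
    have h5 : (g θ ^ 2 / X) ^ (p / 2) ≤ 1 - p / 2 + p / 2 * (g θ ^ 2 / X) := by
      have h6 := _root_.rpow_one_add_le_one_add_mul_self (s := g θ ^ 2 / X - 1) (by
        have : 0 ≤ g θ ^ 2 / X := by positivity
        linarith) (p := p / 2) (by linarith) (by linarith)
      rw [add_sub_cancel] at h6
      linarith
    have h7 : gam (m (k + 1)) θ * v θ ≤ A ^ p * (X ^ (p / 2) *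
        (1 - p / 2 + p / 2 * (g θ ^ 2 / X))) := by
      refine h1.trans ?_
      rw [h4]
      gcongr
    calc beta ρ m k θ * gam (m (k + 1)) θ * v θ = beta ρ m k θ * (gam (m (k + 1)) θ * v θ) := by
          ring
      _ ≤ beta ρ m k θ * (A ^ p * (X ^ (p / 2) * (1 - p / 2 + p / 2 * (g θ ^ 2 / X)))) := by
          gcongr
      _ = _ := by
          field_simp
  have hmass := mass_le hρ0 hρ1 hm k
  have hsq : ∫ θ, beta ρ m k θ * g θ ^ 2 ∂mu ≤ B * G := by
    calc ∫ θ, beta ρ m k θ * g θ ^ 2 ∂mu ≤ ∫ θ, B * g θ ^ 2 ∂mu := by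
          apply integral_mono i2 (integrable_mu ((hg.pow 2).const_mul _))
          intro θ
          exact mul_le_mul_of_nonneg_right (beta_le hρ0 hρ1 k θ) (by positivity)
      _ = B * ∫ θ, g θ ^ 2 ∂mu := integral_const_mul _ _
      _ ≤ B * G := by gcongr
  calc ∫ θ, beta ρ m k θ * gam (m (k + 1)) θ * v θ ∂mu
      ≤ ∫ θ, ((A ^ p * X ^ (p / 2) * (1 - p / 2)) * beta ρ m k θ +
        (A ^ p * X ^ (p / 2) * (p / 2 / X)) * (beta ρ m k θ * g θ ^ 2)) ∂mu := by
        apply integral_mono (integrable_mu ((hcb.mul (continuous_gam _)).mul hv)) (i1'.add i2')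
        intro θ
        exact hpt θ
    _ = (A ^ p * X ^ (p / 2) * (1 - p / 2)) * (∫ θ, beta ρ m k θ ∂mu) +
        (A ^ p * X ^ (p / 2) * (p / 2 / X)) * (∫ θ, beta ρ m k θ * g θ ^ 2 ∂mu) := by
        rw [integral_add i1' i2', integral_const_mul, integral_const_mul]
    _ ≤ (A ^ p * X ^ (p / 2) * (1 - p / 2)) * M +
        (A ^ p * X ^ (p / 2) * (p / 2 / X)) * (B * G) := by
        have h8 : 0 ≤ 1 - p / 2 := by linarith
        gcongr
    _ = A ^ p * (M * X ^ (p / 2)) := by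
        rw [hX]
        field_simp
        ring

/-- one step of the chain -/
lemma chain_step (k : ℕ) {v v' : ℝ → ℝ} (hv : Continuous v) (hv' : Continuous v')
    (hsub : ∀ φ, v φ ≤ ∫ θ, v' θ * PK ((ρ (k + 1) : ℂ) * ee φ) θ ∂mu) :
    ∫ θ, beta ρ m k θ * v θ ∂mu ≤ ∫ θ, beta ρ m k θ * gam (m (k + 1)) θ * v θ ∂mu +
      ∫ θ, beta ρ m (k + 1) θ * v' θ ∂mu := by
  have hcb := continuous_beta (m := m) hρ0 hρ1 k
  have i1 : Integrable (fun θ => beta ρ m k θ * gam (m (k + 1)) θ * v θ) mu :=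
    integrable_mu ((hcb.mul (continuous_gam _)).mul hv)
  have i2 : Integrable (fun θ => ((1 - gam (m (k + 1)) θ) * beta ρ m k θ) * v θ) mu :=
    integrable_mu ((continuous_weight hρ0 hρ1 k).mul hv)
  have e1 : (fun θ => beta ρ m k θ * v θ) = fun θ => beta ρ m k θ * gam (m (k + 1)) θ * v θ +
      ((1 - gam (m (k + 1)) θ) * beta ρ m k θ) * v θ := by
    ext θ; ring
  rw [e1, integral_add i1 i2, integral_beta_mul hρ0 hρ1 k hv']
  apply add_le_add le_rfl
  apply integral_mono i2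
  · have hJ := integrable_mu2 (continuous_joint (m := m) hρ0 hρ1 k hv')
    have h2 := hJ.swap.integral_prod_left
    refine h2.congr ?_
    filter_upwards with φ
    simp only [Function.comp_apply, Prod.swap_prod_mk]
    rw [← integral_const_mul]
    congr 1
    ext θ
    ring
  · intro φ
    exact mul_le_mul_of_nonneg_left (hsub φ) (weight_nonneg hρ0 hρ1 k φ)

end

/-- The chain inequality. -/
theorem chain {r : ℕ → ℝ} {m : ℕ → ℕ} (hr0 : 0 < r 0) (hr : ∀ k, r k < r (k + 1))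
    (hm : ∀ k, (r k / r (k + 1)) ^ (m (k + 1)) ≤ 1 / 20) (q : Polynomial ℂ)
    {p : ℝ} (hp0 : 0 < p) (hp2 : p < 2) {A G : ℕ → ℝ} {g : ℕ → ℝ → ℝ}
    (hA : ∀ k, 0 ≤ A k) (hG : ∀ k, 0 < G k) (hg0 : ∀ k θ, 0 ≤ g k θ)
    (hgc : ∀ k, Continuous (g k))
    (hgood : ∀ k θ, 1 / 4 ≤ (ee θ ^ (m (k + 1))).re →
      ‖q.eval ((r (k + 1) : ℂ) * ee θ)‖ ≤ A k * g k θ)
    (hgG : ∀ k, ∫ θ, g k θ ^ 2 ∂mu ≤ G k) {M : ℝ} (hM : ∀ k θ, ‖q.eval ((r k : ℂ) * ee θ)‖ ≤ M)
    (K : ℕ) :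
    ‖q.eval (r 0 : ℂ)‖ ^ p ≤ ∑ k ∈ Finset.range K, A k ^ p * ((7 / 8) ^ k *
      ((1 + r 0 / r 1) / (1 - r 0 / r 1) * G k / (7 / 8) ^ k) ^ (p / 2)) + (7 / 8) ^ K * M ^ p := by
  set ρ : ℕ → ℝ := fun k => r k / r (k + 1) with hρ
  have hrpos : ∀ k, 0 < r k := by
    intro k
    induction k with
    | zero => exact hr0
    | succ k ih => exact ih.trans (hr k)
  have hρ0 : ∀ k, 0 < ρ k := fun k => div_pos (hrpos k) (hrpos _)
  have hρ1 : ∀ k, ρ k < 1 := fun k => (div_lt_one (hrpos _)).mpr (hr k)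
  set v : ℕ → ℝ → ℝ := fun k θ => ‖q.eval ((r k : ℂ) * ee θ)‖ ^ p with hv
  have hvc : ∀ k, Continuous (v k) := by
    intro k
    apply Continuous.rpow_const
    · exact (q.continuous.comp (by fun_prop)).norm
    · intro x; right; exact hp0.le
  have hv0 : ∀ k θ, 0 ≤ v k θ := fun k θ => by positivity
  have hM0 : 0 ≤ M := (norm_nonneg _).trans (hM 0 0)
  -- sub-mean property between consecutive levels
  have hsub : ∀ k φ, v (k + 1) φ ≤
      ∫ θ, v (k + 2) θ * PK ((ρ (k + 1) : ℂ) * ee φ) θ ∂mu := by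
    intro k φ
    have h1 := sub_poly hp0 (q.comp (Polynomial.C (r (k + 2) : ℂ) * Polynomial.X))
      (norm_rho hρ0 hρ1 (k + 1) φ)
    simp only [Polynomial.eval_comp, Polynomial.eval_mul, Polynomial.eval_C,
      Polynomial.eval_X] at h1
    have e1 : (r (k + 2) : ℂ) * ((ρ (k + 1) : ℂ) * ee φ) = (r (k + 1) : ℂ) * ee φ := by
      have : (r (k + 2) : ℂ) ≠ 0 := by exact_mod_cast (hrpos _).ne'
      simp only [hρ]
      push_cast
      field_simp
    rw [e1] at h1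
    refine h1.trans (le_of_eq ?_)
    congr 1
    ext θ
    simp only [hv]
    ring
  have hstart : ‖q.eval (r 0 : ℂ)‖ ^ p ≤ ∫ θ, beta ρ m 0 θ * v 1 θ ∂mu := by
    have h1 := sub_poly hp0 (q.comp (Polynomial.C (r 1 : ℂ) * Polynomial.X))
      (norm_rho' hρ0 hρ1 0)
    simp only [Polynomial.eval_comp, Polynomial.eval_mul, Polynomial.eval_C,
      Polynomial.eval_X] at h1
    have e1 : (r 1 : ℂ) * (ρ 0 : ℂ) = (r 0 : ℂ) := by
      have : (r 1 : ℂ) ≠ 0 := by exact_mod_cast (hrpos _).ne'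
      simp only [hρ]
      push_cast
      field_simp
    rw [e1] at h1
    exact h1
  have hind : ∀ K, ∫ θ, beta ρ m 0 θ * v 1 θ ∂mu ≤ ∑ k ∈ Finset.range K,
      A k ^ p * ((7 / 8) ^ k * ((1 + ρ 0) / (1 - ρ 0) * G k / (7 / 8) ^ k) ^ (p / 2)) +
      ∫ θ, beta ρ m K θ * v (K + 1) θ ∂mu := by
    intro K
    induction K with
    | zero => simp
    | succ K ih =>
      rw [Finset.sum_range_succ]
      have h1 := chain_step (m := m) hρ0 hρ1 K (hvc (K + 1)) (hvc (K + 2)) (hsub K)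
      have h2 := term_bound hρ0 hρ1 hm K (hvc (K + 1)) (hgc K) (hv0 (K + 1)) hp0 hp2
        (hA K) (hg0 K) (hG K) (by
          intro θ hθ
          exact Real.rpow_le_rpow (norm_nonneg _) (hgood K θ hθ) hp0.le) (hgG K)
      linarith
  have hlast : ∫ θ, beta ρ m K θ * v (K + 1) θ ∂mu ≤ (7 / 8) ^ K * M ^ p := by
    calc ∫ θ, beta ρ m K θ * v (K + 1) θ ∂mu ≤ ∫ θ, beta ρ m K θ * M ^ p ∂mu := by
          apply integral_mono (integrable_mu ((continuous_beta hρ0 hρ1 K).mul (hvc _)))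
            (integrable_mu ((continuous_beta hρ0 hρ1 K).mul continuous_const))
          intro θ
          apply mul_le_mul_of_nonneg_left _ (beta_nonneg hρ0 hρ1 K θ)
          exact Real.rpow_le_rpow (norm_nonneg _) (hM _ _) hp0.le
      _ = (∫ θ, beta ρ m K θ ∂mu) * M ^ p := integral_mul_const _ _
      _ ≤ _ := mul_le_mul_of_nonneg_right (mass_le hρ0 hρ1 hm K) (by positivity)
  exact hstart.trans ((hind K).trans (by gcongr))

end Pool.Agent.Lib.MP_7d8448_an
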