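import Pool.Agent.Lib.MP_7d8448_an.Final

/-!
Translation to lower integrals over the square.
-/

set_option autoImplicit false

open MeasureTheory Complex Set Metric Filter Topology

namespace Pool.Agent.Lib.MP_7d8448_an

/-- the total mass of the square -/
noncomputable def cc : ENNReal := ENNReal.ofReal (2 * Real.pi) * ENNReal.ofReal (2 * Real.pi)

lemma cc_ne_zero : cc ≠ 0 := by
  unfold cc
  have h : (0:ℝ) < 2 * Real.pi := by positivity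
  exact mul_ne_zero (ENNReal.ofReal_pos.mpr h).ne' (ENNReal.ofReal_pos.mpr h).ne'

lemma cc_ne_top : cc ≠ ⊤ := ENNReal.mul_ne_top ENNReal.ofReal_ne_top ENNReal.ofReal_ne_top

lemma restrict_eq : (volume : Measure (ℝ × ℝ)).restrict
    (Icc (0:ℝ) (2 * Real.pi) ×ˢ Icc (0:ℝ) (2 * Real.pi)) = cc • mu2 := by
  have h : (0:ℝ) < 2 * Real.pi := by positivity
  have h0 : ENNReal.ofReal (2 * Real.pi) ≠ 0 := (ENNReal.ofReal_pos.mpr h).ne'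
  have h1 : ENNReal.ofReal (2 * Real.pi) ≠ ⊤ := ENNReal.ofReal_ne_top
  have h2 : (volume : Measure ℝ).restrict (Icc 0 (2 * Real.pi)) =
      ENNReal.ofReal (2 * Real.pi) • mu := by
    unfold mu
    rw [smul_smul, ENNReal.mul_inv_cancel h0 h1, one_smul]
  rw [Measure.volume_eq_prod, ← Measure.prod_restrict, h2, Measure.prod_smul_left,
    Measure.prod_smul_right, smul_smul]
  rfl

lemma lint_eq {h : ℝ × ℝ → ℂ} (hc : Continuous h) {p : ℝ} (hp : 0 < p) :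
    ∫⁻ x in Icc (0:ℝ) (2 * Real.pi) ×ˢ Icc (0:ℝ) (2 * Real.pi), ‖h x‖ₑ ^ p =
      cc * ENNReal.ofReal (∫ x, ‖h x‖ ^ p ∂mu2) := by
  rw [restrict_eq, lintegral_smul_measure, smul_eq_mul]
  congr 1
  rw [ofReal_integral_eq_lintegral_ofReal]
  · congr 1
    ext x
    rw [← ENNReal.ofReal_rpow_of_nonneg (norm_nonneg _) hp.le, ofReal_norm]
  · exact integrable_mu2 (hc.norm.rpow_const (fun x => Or.inr hp.le))
  · exact Eventually.of_forall (fun x => by positivity)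

/-- bound of the supremum of lower integrals -/
lemma sup_le_of_bound {h : ℝ → ℝ × ℝ → ℂ} (hc : ∀ R, 0 < R → R < 1 → Continuous (h R)) {p : ℝ}
    (hp : 0 < p) {C : ℝ} (hC : ∀ R, 0 < R → R < 1 → ∫ x, ‖h R x‖ ^ p ∂mu2 ≤ C) :
    (⨆ r ∈ Ioo (0:ℝ) 1, ∫⁻ x in Icc (0:ℝ) (2 * Real.pi) ×ˢ Icc (0:ℝ) (2 * Real.pi),
      ‖h r x‖ₑ ^ p) ≤ cc * ENNReal.ofReal C := by
  apply iSup₂_le
  intro r hr
  rw [lint_eq (hc r hr.1 hr.2) hp]
  gcongr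
  exact hC r hr.1 hr.2

/-- bound of the integrals by the supremum -/
lemma bound_of_sup {h : ℝ → ℝ × ℝ → ℂ} (hc : ∀ R, 0 < R → R < 1 → Continuous (h R)) {p : ℝ}
    (hp : 0 < p) {C : ℝ} (hC0 : 0 ≤ C)
    (hsup : (⨆ r ∈ Ioo (0:ℝ) 1, ∫⁻ x in Icc (0:ℝ) (2 * Real.pi) ×ˢ Icc (0:ℝ) (2 * Real.pi),
      ‖h r x‖ₑ ^ p) ≤ cc * ENNReal.ofReal C) (R : ℝ) (hR : 0 < R) (hR1 : R < 1) :
    ∫ x, ‖h R x‖ ^ p ∂mu2 ≤ C := by
  have h1 : ∫⁻ x in Icc (0:ℝ) (2 * Real.pi) ×ˢ Icc (0:ℝ) (2 * Real.pi), ‖h R x‖ₑ ^ p ≤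
      cc * ENNReal.ofReal C :=
    (le_iSup₂ (f := fun (r : ℝ) (_ : r ∈ Ioo (0:ℝ) 1) =>
      ∫⁻ x in Icc (0:ℝ) (2 * Real.pi) ×ˢ Icc (0:ℝ) (2 * Real.pi), ‖h r x‖ₑ ^ p)
      R ⟨hR, hR1⟩).trans hsup
  rw [lint_eq (hc R hR hR1) hp, ENNReal.mul_le_mul_iff_right cc_ne_zero cc_ne_top] at h1
  exact (ENNReal.ofReal_le_ofReal_iff hC0).mp h1

lemma exists_bound_of_sup {h : ℝ → ℝ × ℝ → ℂ} (hc : ∀ R, 0 < R → R < 1 → Continuous (h R)) {p : ℝ}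
    (hp : 0 < p)
    (hsup : (⨆ r ∈ Ioo (0:ℝ) 1, ∫⁻ x in Icc (0:ℝ) (2 * Real.pi) ×ˢ Icc (0:ℝ) (2 * Real.pi),
      ‖h r x‖ₑ ^ p) < ⊤) : ∃ C : ℝ, ∀ R : ℝ, 0 < R → R < 1 → ∫ x, ‖h R x‖ ^ p ∂mu2 ≤ C := by
  set S := (⨆ r ∈ Ioo (0:ℝ) 1, ∫⁻ x in Icc (0:ℝ) (2 * Real.pi) ×ˢ Icc (0:ℝ) (2 * Real.pi),
      ‖h r x‖ₑ ^ p) with hS
  refine ⟨(S / cc).toReal, fun R hR hR1 => ?_⟩
  apply bound_of_sup hc hp ENNReal.toReal_nonneg _ R hR hR1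
  rw [← hS, ENNReal.ofReal_toReal (ENNReal.div_ne_top hsup.ne cc_ne_zero),
    ENNReal.mul_div_cancel cc_ne_zero cc_ne_top]

lemma exists_eps {ε : ENNReal} (hε : 0 < ε) : ∃ δ : ℝ, 0 < δ ∧ cc * ENNReal.ofReal δ < ε := by
  obtain ⟨c, hc0, hc⟩ := ENNReal.lt_iff_exists_nnreal_btwn.mp hε
  have hcc : 0 < cc.toReal := ENNReal.toReal_pos cc_ne_zero cc_ne_top
  have hc0' : 0 < (c:ℝ) := by exact_mod_cast hc0
  refine ⟨c / cc.toReal, by positivity, ?_⟩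
  have h1 : cc = ENNReal.ofReal cc.toReal := (ENNReal.ofReal_toReal cc_ne_top).symm
  have h2 : cc * ENNReal.ofReal (c / cc.toReal) = c := by
    conv_lhs => rw [h1]
    rw [← ENNReal.ofReal_mul hcc.le, ENNReal.ofReal_toReal cc_ne_top,
      mul_div_cancel₀ _ hcc.ne', ENNReal.ofReal_coe_nnreal]
  rw [h2]
  exact hc

/-- The main theorem. -/
theorem main : ∃ f : ℂ × ℂ → ℂ, DifferentiableOn ℂ f (ball (0 : ℂ × ℂ) 1) ∧
    (⨆ r ∈ Ioo (0:ℝ) 1, ∫⁻ x in Icc (0:ℝ) (2 * Real.pi) ×ˢ Icc (0:ℝ) (2 * Real.pi),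
          ‖f (dil r x)‖ₑ ^ (2:ℝ)) < ⊤ ∧
    (∀ g : ℂ × ℂ → ℂ, DifferentiableOn ℂ g (ball (0 : ℂ × ℂ) 1) →
      (⨆ r ∈ Ioo (0:ℝ) 1, ∫⁻ x in Icc (0:ℝ) (2 * Real.pi) ×ˢ Icc (0:ℝ) (2 * Real.pi),
          ‖g (dil r x)‖ₑ ^ (1:ℝ)) < ⊤ →
      ∀ ε : ENNReal, 0 < ε → ∃ P : MvPolynomial (Fin 2) ℂ,
        (⨆ r ∈ Ioo (0:ℝ) 1, ∫⁻ x in Icc (0:ℝ) (2 * Real.pi) ×ˢ Icc (0:ℝ) (2 * Real.pi),
            ‖MvPolynomial.eval ![(dil r x).1, (dil r x).2] P * f (dil r x) -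
              g (dil r x)‖ₑ ^ (1:ℝ)) < ε) ∧
    ¬ (∀ g : ℂ × ℂ → ℂ, DifferentiableOn ℂ g (ball (0 : ℂ × ℂ) 1) →
      (⨆ r ∈ Ioo (0:ℝ) 1, ∫⁻ x in Icc (0:ℝ) (2 * Real.pi) ×ˢ Icc (0:ℝ) (2 * Real.pi),
          ‖g (dil r x)‖ₑ ^ (2:ℝ)) < ⊤ →
      ∀ ε : ENNReal, 0 < ε → ∃ P : MvPolynomial (Fin 2) ℂ,
        (⨆ r ∈ Ioo (0:ℝ) 1, ∫⁻ x in Icc (0:ℝ) (2 * Real.pi) ×ˢ Icc (0:ℝ) (2 * Real.pi),
            ‖MvPolynomial.eval ![(dil r x).1, (dil r x).2] P * f (dil r x) -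
              g (dil r x)‖ₑ ^ (2:ℝ)) < ε) := by
  obtain ⟨t, ht, hF⟩ := not_H2_cyclic
  obtain ⟨d⟩ := exists_data t (by omega : 3 ≤ t)
  have ht1 : 1 ≤ t := by omega
  have hFc : ∀ R : ℝ, 0 < R → R < 1 → Continuous (fun x => d.F (dil R x)) :=
    fun R hR hR1 => d.continuous_F_dil ht1 hR hR1
  refine ⟨d.F, d.differentiableOn_F ht1, ?_, ?_, ?_⟩
  · refine lt_of_le_of_lt (sup_le_of_bound (h := fun R x => d.F (dil R x)) (p := 2) (C := 3) hFc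
      two_pos (fun R hR hR1 => ?_)) (ENNReal.mul_lt_top cc_ne_top.lt_top ENNReal.ofReal_lt_top)
    simp only [Real.rpow_two]
    exact d.H2_bound ht1 hR hR1
  · intro g hg hsup ε hε
    have hgc : ∀ R : ℝ, 0 < R → R < 1 → Continuous (fun x => g (dil R x)) :=
      fun R hR hR1 => continuous_on_circles hg (continuous_dil R)
        (fun x => by rw [norm_dil hR.le]; exact hR1)
    obtain ⟨C, hC⟩ := exists_bound_of_sup (h := fun R x => g (dil R x)) hgc one_pos hsup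
    simp only [Real.rpow_one] at hC
    obtain ⟨δ, hδ0, hδ⟩ := exists_eps hε
    obtain ⟨P, hP⟩ := d.H1_cyclic ht1 hg hC hδ0
    refine ⟨P, lt_of_le_of_lt (sup_le_of_bound
      (h := fun R x => MvPolynomial.eval ![(dil R x).1, (dil R x).2] P * d.F (dil R x) -
              g (dil R x)) (p := 1) (C := δ) (fun R hR hR1 => ?_) one_pos
              (fun R hR hR1 => ?_)) hδ⟩
    · exact ((Data.continuous_mveval_dil P R).mul (hFc R hR hR1)).sub (hgc R hR hR1)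
    · simp only [Real.rpow_one]
      exact hP R hR hR1
  · intro hcyc
    obtain ⟨ε, hε0, hne⟩ := hF d
    obtain ⟨P, hP⟩ := hcyc (fun _ => 1) (differentiableOn_const 1) (by
      refine lt_of_le_of_lt (sup_le_of_bound (h := fun _ _ => (1:ℂ)) (p := 2) (C := 1)
        (fun R hR hR1 => continuous_const) two_pos (fun R hR hR1 => ?_))
        (ENNReal.mul_lt_top cc_ne_top.lt_top ENNReal.ofReal_lt_top)
      simp) (cc * ENNReal.ofReal ε)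
      (pos_iff_ne_zero.mpr (mul_ne_zero cc_ne_zero (ENNReal.ofReal_pos.mpr hε0).ne'))
    apply hne P
    intro R hR hR1
    have h1 := bound_of_sup
      (h := fun R x => MvPolynomial.eval ![(dil R x).1, (dil R x).2] P * d.F (dil R x) - 1)
      (p := 2) (C := ε) (fun R hR hR1 =>
        ((Data.continuous_mveval_dil P R).mul (hFc R hR hR1)).sub continuous_const) two_pos hε0.le
      hP.le R hR hR1
    simpa only [Real.rpow_two] using h1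

end Pool.Agent.Lib.MP_7d8448_an
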