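import Pool.Agent.Lib.MP_7d8448_an.Torus

/-!
Dilations converge in `H¹` of the bidisc.
-/

set_option autoImplicit false

open MeasureTheory Complex Set Metric

namespace Pool.Agent.Lib.MP_7d8448_an

lemma pointwise_ineq (Y y u : ℂ) (hu : ‖u‖ = 1) (hy : y = (‖y‖ : ℂ) * u) {τ : ℝ} (hτ : 0 < τ) :
    ‖Y - y‖ ≤ τ * (‖Y‖ + 2 * ‖y‖) +
      (1 / (2 * τ)) * ((Real.sqrt ‖Y‖ - Real.sqrt ‖y‖) ^ 2 + (‖Y‖ - (Y * (starRingEnd ℂ) u).re)) := by
  set b : ℝ := ‖Y‖ - (Y * (starRingEnd ℂ) u).re with hb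
  have hb0 : 0 ≤ b := by
    have h1 := Complex.re_le_norm (Y * (starRingEnd ℂ) u)
    rw [norm_mul, RCLike.norm_conj, hu, mul_one] at h1
    linarith
  set s := ‖y‖ with hs
  have hs0 : 0 ≤ s := norm_nonneg y
  have e1 : ‖Y - y‖ ^ 2 = (‖Y‖ - s) ^ 2 + 2 * s * b := by
    rw [← Complex.normSq_eq_norm_sq, Complex.normSq_sub, Complex.normSq_eq_norm_sq,
      Complex.normSq_eq_norm_sq, ← hs, hb]
    have h2 : (Y * (starRingEnd ℂ) y).re = s * (Y * (starRingEnd ℂ) u).re := by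
      rw [hy, map_mul, Complex.conj_ofReal]
      rw [show Y * ((s:ℂ) * (starRingEnd ℂ) u) = (s:ℂ) * (Y * (starRingEnd ℂ) u) by ring,
        Complex.re_ofReal_mul]
    rw [h2]
    ring
  set P := Real.sqrt ‖Y‖ with hP
  set Q := Real.sqrt s with hQ
  have hP2 : P ^ 2 = ‖Y‖ := Real.sq_sqrt (norm_nonneg _)
  have hQ2 : Q ^ 2 = s := Real.sq_sqrt hs0
  have hP0 : 0 ≤ P := Real.sqrt_nonneg _
  have hQ0 : 0 ≤ Q := Real.sqrt_nonneg _
  -- the target bound is nonnegative and its square dominates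
  have h3 : |‖Y‖ - s| ≤ τ * (‖Y‖ + s) + (1 / (2 * τ)) * (P - Q) ^ 2 := by
    have h4 : |‖Y‖ - s| = |P - Q| * (P + Q) := by
      rw [← hP2, ← hQ2, show P ^ 2 - Q ^ 2 = (P - Q) * (P + Q) by ring, abs_mul,
        abs_of_nonneg (by positivity : 0 ≤ P + Q)]
    have h5 : |P - Q| * (P + Q) ≤ (1 / (2 * τ)) * |P - Q| ^ 2 + τ / 2 * (P + Q) ^ 2 := by
      have h6 : 0 ≤ (1 / (2 * τ)) * (|P - Q| - τ * (P + Q)) ^ 2 := by positivity
      have h7 : (1 / (2 * τ)) * (|P - Q| - τ * (P + Q)) ^ 2 =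
        (1 / (2 * τ)) * |P - Q| ^ 2 - |P - Q| * (P + Q) + τ / 2 * (P + Q) ^ 2 := by
        field_simp
        ring
      linarith
    have h8 : (P + Q) ^ 2 ≤ 2 * (‖Y‖ + s) := by
      rw [← hP2, ← hQ2]; nlinarith [sq_nonneg (P - Q)]
    rw [h4]
    rw [sq_abs] at h5
    nlinarith [mul_le_mul_of_nonneg_left h8 (by positivity : 0 ≤ τ / 2)]
  have h9 : Real.sqrt (2 * s * b) ≤ τ * s + (1 / (2 * τ)) * b := by
    apply Real.sqrt_le_iff.mpr
    refine ⟨by positivity, ?_⟩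
    have h10 : (τ * s + (1 / (2 * τ)) * b) ^ 2 - 2 * s * b = (τ * s - (1 / (2 * τ)) * b) ^ 2 := by
      field_simp
      ring
    nlinarith [sq_nonneg (τ * s - (1 / (2 * τ)) * b)]
  have h11 : ‖Y - y‖ ≤ |‖Y‖ - s| + Real.sqrt (2 * s * b) := by
    apply le_of_sq_le_sq _ (by positivity)
    rw [e1]
    have h12 : Real.sqrt (2 * s * b) ^ 2 = 2 * s * b := Real.sq_sqrt (by positivity)
    nlinarith [sq_abs (‖Y‖ - s), mul_nonneg (abs_nonneg (‖Y‖ - s)) (Real.sqrt_nonneg (2 * s * b))]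
  linarith

/-- local estimate -/
lemma kernel_estimate {G : ℂ × ℂ → ℂ} {R : ℝ} (hR : 1 < R) (hG : DifferentiableOn ℂ G (ball 0 R))
    {z : ℂ × ℂ} (hz : ‖z‖ < 1) {τ : ℝ} (hτ : 0 < τ) :
    ∫ x, K2 z x * ‖G (dil 1 x) - G z‖ ∂mu2 ≤
      τ * ((∫ x, K2 z x * ‖G (dil 1 x)‖ ∂mu2) + 2 * ‖G z‖) +
        (1 / τ) * ((∫ x, K2 z x * ‖G (dil 1 x)‖ ∂mu2) - ‖G z‖) := by
  have hc : Continuous (fun x : ℝ × ℝ => G (dil 1 x)) :=
    continuous_on_circles hG (continuous_dil 1) (fun x => by rw [norm_dil zero_le_one]; exact hR)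
  have hK := continuous_K2 hz
  obtain ⟨u, hu, hy⟩ : ∃ u : ℂ, ‖u‖ = 1 ∧ G z = (‖G z‖ : ℂ) * u := by
    by_cases h0 : G z = 0
    · exact ⟨1, by simp, by simp [h0]⟩
    · have hn : (‖G z‖ : ℂ) ≠ 0 := by simpa using h0
      refine ⟨G z / ‖G z‖, ?_, ?_⟩
      · rw [norm_div, Complex.norm_real, Real.norm_eq_abs, abs_of_nonneg (norm_nonneg _)]
        exact div_self (by simpa using h0)
      · field_simp
  set s := ‖G z‖ with hs
  set I1 := ∫ x, K2 z x * ‖G (dil 1 x)‖ ∂mu2 with hI1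
  set Ih := ∫ x, K2 z x * Real.sqrt ‖G (dil 1 x)‖ ∂mu2 with hIh
  have i1 : Integrable (fun x => K2 z x * ‖G (dil 1 x)‖) mu2 := integrable_mu2 (hK.mul hc.norm)
  have ih : Integrable (fun x => K2 z x * Real.sqrt ‖G (dil 1 x)‖) mu2 :=
    integrable_mu2 (hK.mul (Real.continuous_sqrt.comp hc.norm))
  have iK : Integrable (fun x => K2 z x) mu2 := integrable_mu2 hK
  have hre : Continuous (fun x => (G (dil 1 x) * (starRingEnd ℂ) u).re) :=
    Complex.continuous_re.comp (hc.mul continuous_const)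
  have ir : Integrable (fun x => K2 z x * (G (dil 1 x) * (starRingEnd ℂ) u).re) mu2 :=
    integrable_mu2 (hK.mul hre)
  have vh : Real.sqrt s ≤ Ih := by
    have := sub2 hR hG (p := 1 / 2) (by norm_num) hz
    simpa only [← Real.sqrt_eq_rpow] using this
  have vr : ∫ x, K2 z x * (G (dil 1 x) * (starRingEnd ℂ) u).re ∂mu2 = s := by
    have h1 := poisson2 hR hG hz
    have h2 : ∫ x, ((K2 z x : ℂ) * G (dil 1 x)) * (starRingEnd ℂ) u ∂mu2
        = G z * (starRingEnd ℂ) u := by rw [integral_mul_const, h1]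
    have h3 : (∫ x, ((K2 z x : ℂ) * G (dil 1 x)) * (starRingEnd ℂ) u ∂mu2).re
        = ∫ x, (((K2 z x : ℂ) * G (dil 1 x)) * (starRingEnd ℂ) u).re ∂mu2 := by
      rw [← Complex.reCLM_apply, ← ContinuousLinearMap.integral_comp_comm]
      · rfl
      · apply integrable_mu2
        exact ((Complex.continuous_ofReal.comp hK).mul hc).mul continuous_const
    have h4 : (fun x => K2 z x * (G (dil 1 x) * (starRingEnd ℂ) u).re)
        = fun x => (((K2 z x : ℂ) * G (dil 1 x)) * (starRingEnd ℂ) u).re := by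
      ext x
      rw [mul_assoc, Complex.re_ofReal_mul]
    rw [h4, ← h3, h2, hy, mul_assoc, Complex.mul_conj, Complex.normSq_eq_norm_sq, hu]
    simp
  have vK : ∫ x, K2 z x ∂mu2 = 1 := integral_K2 hz
  have step1 : ∫ x, K2 z x * ‖G (dil 1 x) - G z‖ ∂mu2 ≤
      ∫ x, ((τ + 1 / τ) * (K2 z x * ‖G (dil 1 x)‖) + (2 * τ * s + (1 / (2 * τ)) * s) * K2 z x
        - (1 / τ * Real.sqrt s) * (K2 z x * Real.sqrt ‖G (dil 1 x)‖)
        - (1 / (2 * τ)) * (K2 z x * (G (dil 1 x) * (starRingEnd ℂ) u).re)) ∂mu2 := by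
    apply integral_mono
    · exact integrable_mu2 (hK.mul (hc.sub continuous_const).norm)
    · exact (((i1.const_mul _).add (iK.const_mul _)).sub (ih.const_mul _)).sub (ir.const_mul _)
    · intro x
      have h1 := pointwise_ineq (G (dil 1 x)) (G z) u hu hy hτ
      have h2 := mul_le_mul_of_nonneg_left h1 (K2_pos hz x).le
      refine h2.trans (le_of_eq ?_)
      rw [← hs]
      have h3 : Real.sqrt ‖G (dil 1 x)‖ ^ 2 = ‖G (dil 1 x)‖ := Real.sq_sqrt (norm_nonneg _)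
      have h4 : Real.sqrt s ^ 2 = s := Real.sq_sqrt (norm_nonneg _)
      simp only
      rw [show (Real.sqrt ‖G (dil 1 x)‖ - Real.sqrt s) ^ 2 = Real.sqrt ‖G (dil 1 x)‖ ^ 2
        - 2 * Real.sqrt ‖G (dil 1 x)‖ * Real.sqrt s + Real.sqrt s ^ 2 by ring, h3, h4]
      field_simp
      ring
  refine step1.trans ?_
  have j1 : Integrable (fun x => (τ + 1 / τ) * (K2 z x * ‖G (dil 1 x)‖)) mu2 := i1.const_mul _
  have j2 : Integrable (fun x => (2 * τ * s + (1 / (2 * τ)) * s) * K2 z x) mu2 := iK.const_mul _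
  have j3 : Integrable (fun x => (1 / τ * Real.sqrt s) * (K2 z x * Real.sqrt ‖G (dil 1 x)‖)) mu2 :=
    ih.const_mul _
  have j4 : Integrable
    (fun x => (1 / (2 * τ)) * (K2 z x * (G (dil 1 x) * (starRingEnd ℂ) u).re)) mu2 := ir.const_mul _
  have j12 : Integrable (fun x => (τ + 1 / τ) * (K2 z x * ‖G (dil 1 x)‖) +
    (2 * τ * s + (1 / (2 * τ)) * s) * K2 z x) mu2 := j1.add j2
  have j123 : Integrable (fun x => (τ + 1 / τ) * (K2 z x * ‖G (dil 1 x)‖) +
    (2 * τ * s + (1 / (2 * τ)) * s) * K2 z x -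
    (1 / τ * Real.sqrt s) * (K2 z x * Real.sqrt ‖G (dil 1 x)‖)) mu2 := j12.sub j3
  rw [integral_sub j123 j4, integral_sub j12 j3, integral_add j1 j2,
    integral_const_mul, integral_const_mul, integral_const_mul, integral_const_mul,
    ← hI1, ← hIh, vK, vr]
  have h5 : s ≤ Real.sqrt s * Ih := by
    have h4 : Real.sqrt s * Real.sqrt s = s := Real.mul_self_sqrt (norm_nonneg _)
    calc s = Real.sqrt s * Real.sqrt s := h4.symm
      _ ≤ Real.sqrt s * Ih := mul_le_mul_of_nonneg_left vh (Real.sqrt_nonneg _)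
  have h6 : 1 / τ * s ≤ 1 / τ * Real.sqrt s * Ih := by
    rw [mul_assoc]
    exact mul_le_mul_of_nonneg_left h5 (by positivity)
  have h7 : 1 / (2 * τ) * s = 1 / τ * s / 2 := by field_simp
  rw [h7]
  linarith

/-- Quantitative continuity of dilations in `L¹`. -/
theorem dilation_L1 {G : ℂ × ℂ → ℂ} {R : ℝ} (hR : 1 < R) (hG : DifferentiableOn ℂ G (ball 0 R))
    {r : ℝ} (hr : 0 < r) (hr1 : r < 1) {τ : ℝ} (hτ : 0 < τ) :
    ∫ x, ‖G (dil 1 x) - G (dil (r * r) x)‖ ∂mu2 ≤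
      τ * ((∫ x, ‖G (dil 1 x)‖ ∂mu2) + 2 * ∫ x, ‖G (dil r x)‖ ∂mu2) +
        (1 / τ) * ((∫ x, ‖G (dil 1 x)‖ ∂mu2) - ∫ x, ‖G (dil r x)‖ ∂mu2) := by
  have hn : ∀ x, ‖dil r x‖ < 1 := fun x => by rw [norm_dil hr.le]; exact hr1
  have hc : Continuous (fun x : ℝ × ℝ => G (dil 1 x)) :=
    continuous_on_circles hG (continuous_dil 1) (fun x => by rw [norm_dil zero_le_one]; exact hR)
  have hcr : Continuous (fun x : ℝ × ℝ => G (dil r x)) :=
    continuous_on_circles hG (continuous_dil r) (fun x => by linarith [hn x])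
  have hKc : Continuous (fun y : (ℝ × ℝ) × (ℝ × ℝ) => K2 (dil r y.1) y.2) :=
    continuous_K2_comp (by fun_prop) (by fun_prop) (fun x => hn _)
  have hK1 : Continuous (fun y : (ℝ × ℝ) × (ℝ × ℝ) => K2 (dil r y.1) y.2 * ‖G (dil 1 y.2)‖) :=
    hKc.mul (hc.comp continuous_snd).norm
  have hKd : Continuous (fun y : (ℝ × ℝ) × (ℝ × ℝ) =>
      K2 (dil r y.1) y.2 * ‖G (dil 1 y.2) - G (dil r y.1)‖) :=
    hKc.mul ((hc.comp continuous_snd).sub (hcr.comp continuous_fst)).norm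
  have i1 : Integrable (fun x => ∫ y, K2 (dil r x) y * ‖G (dil 1 y)‖ ∂mu2) mu2 :=
    (integrable_mu22 hK1).integral_prod_left
  have i2 : Integrable (fun x => ‖G (dil r x)‖) mu2 := integrable_mu2 hcr.norm
  -- representation
  have hG' : DifferentiableOn ℂ (fun z : ℂ × ℂ => G ((r:ℂ) * z.1, (r:ℂ) * z.2)) (ball 0 (1 / r)) := by
    intro z hz
    have h1 : ((r:ℂ) * z.1, (r:ℂ) * z.2) ∈ ball (0 : ℂ × ℂ) R := by
      rw [mem_ball_prod] at hz ⊢
      simp only [norm_mul, Complex.norm_real, Real.norm_eq_abs, abs_of_pos hr]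
      have h3 : r * (1 / r) = 1 := by field_simp
      exact ⟨(h3 ▸ (mul_lt_mul_of_pos_left hz.1 hr)).trans hR,
        (h3 ▸ (mul_lt_mul_of_pos_left hz.2 hr)).trans hR⟩
    have h2 := (hG.differentiableAt (isOpen_ball.mem_nhds h1))
    apply DifferentiableAt.differentiableWithinAt
    exact DifferentiableAt.comp (f := fun z : ℂ × ℂ => ((r:ℂ) * z.1, (r:ℂ) * z.2)) (g := G) z h2
      (by fun_prop)
  have rep : ∀ y, ‖G (dil 1 y) - G (dil (r * r) y)‖ ≤
      ∫ x, K2 (dil r x) y * ‖G (dil 1 y) - G (dil r x)‖ ∂mu2 := by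
    intro y
    have h1 := poisson2 (G := fun z : ℂ × ℂ => G ((r:ℂ) * z.1, (r:ℂ) * z.2)) (R := 1 / r)
      (by rw [lt_div_iff₀ hr]; linarith) hG' (hn y)
    simp only [dil_scale, mul_one] at h1
    have hcy : Continuous (fun x => (K2 (dil r x) y : ℂ)) := by
      apply Complex.continuous_ofReal.comp
      exact continuous_K2_comp (by fun_prop) (by fun_prop) (fun x => hn _)
    have h2 : G (dil 1 y) - G (dil (r * r) y) =
        ∫ x, (K2 (dil r x) y : ℂ) * (G (dil 1 y) - G (dil r x)) ∂mu2 := by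
      simp_rw [mul_sub]
      have k1 : Integrable (fun x => (K2 (dil r x) y : ℂ) * G (dil 1 y)) mu2 :=
        integrable_mu2 (hcy.mul continuous_const)
      have k2 : Integrable (fun x => (K2 (dil r x) y : ℂ) * G (dil r x)) mu2 :=
        integrable_mu2 (hcy.mul hcr)
      rw [integral_sub k1 k2, integral_mul_const, integral_complex_ofReal,
        integral_K2_symm hr.le hr1, ← h1]
      simp only [Complex.ofReal_one, one_mul]
      congr 1
      apply integral_congr_ae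
      filter_upwards with x
      rw [K2_symm]
    rw [h2]
    refine (norm_integral_le_integral_norm _).trans (le_of_eq ?_)
    apply integral_congr_ae
    filter_upwards with x
    rw [norm_mul, Complex.norm_real, Real.norm_eq_abs, abs_of_pos (K2_pos (hn x) _)]
  have e1 : ∫ x, ∫ y, K2 (dil r x) y * ‖G (dil 1 y)‖ ∂mu2 ∂mu2 = ∫ x, ‖G (dil 1 x)‖ ∂mu2 := by
    rw [integral_integral_swap (f := fun x y => K2 (dil r x) y * ‖G (dil 1 y)‖)
      (integrable_mu22 hK1)]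
    congr 1
    ext y
    rw [integral_mul_const, integral_K2_symm hr.le hr1, one_mul]
  calc ∫ y, ‖G (dil 1 y) - G (dil (r * r) y)‖ ∂mu2
      ≤ ∫ y, ∫ x, K2 (dil r x) y * ‖G (dil 1 y) - G (dil r x)‖ ∂mu2 ∂mu2 := by
        apply integral_mono_of_nonneg
        · filter_upwards with x; positivity
        · have := (integrable_mu22 hKd).swap.integral_prod_left
          exact this
        · filter_upwards with y
          exact rep y
    _ = ∫ x, ∫ y, K2 (dil r x) y * ‖G (dil 1 y) - G (dil r x)‖ ∂mu2 ∂mu2 :=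
        (integral_integral_swap (f := fun x y => K2 (dil r x) y * ‖G (dil 1 y) - G (dil r x)‖)
          (integrable_mu22 hKd)).symm
    _ ≤ ∫ x, (τ * ((∫ y, K2 (dil r x) y * ‖G (dil 1 y)‖ ∂mu2) + 2 * ‖G (dil r x)‖) +
        (1 / τ) * ((∫ y, K2 (dil r x) y * ‖G (dil 1 y)‖ ∂mu2) - ‖G (dil r x)‖)) ∂mu2 := by
        apply integral_mono
        · exact (integrable_mu22 hKd).integral_prod_left
        · exact ((i1.add (i2.const_mul 2)).const_mul τ).add ((i1.sub i2).const_mul (1 / τ))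
        · intro x
          exact kernel_estimate hR hG (hn x) hτ
    _ = _ := by
        have k1 : Integrable (fun x => τ * ((∫ y, K2 (dil r x) y * ‖G (dil 1 y)‖ ∂mu2)
          + 2 * ‖G (dil r x)‖)) mu2 := (i1.add (i2.const_mul 2)).const_mul τ
        have k2 : Integrable (fun x => (1 / τ) * ((∫ y, K2 (dil r x) y * ‖G (dil 1 y)‖ ∂mu2)
          - ‖G (dil r x)‖)) mu2 := (i1.sub i2).const_mul (1 / τ)
        rw [integral_add k1 k2,
          integral_const_mul, integral_const_mul, integral_add i1 (i2.const_mul 2),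
          integral_sub i1 i2, integral_const_mul, e1]

end Pool.Agent.Lib.MP_7d8448_an
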