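import Pool.Agent.Lib.MP_7d8448_an.Levels

/-!
The function `F` is not cyclic in `H²` for large `t`.
-/

set_option autoImplicit false

open MeasureTheory Complex Set Metric Filter Topology

namespace Pool.Agent.Lib.MP_7d8448_an

/-- restriction of a polynomial to the diagonal -/
noncomputable def diagPoly (P : MvPolynomial (Fin 2) ℂ) : Polynomial ℂ :=
  MvPolynomial.aeval (fun _ => (Polynomial.X : Polynomial ℂ)) P

lemma eval_diagPoly (P : MvPolynomial (Fin 2) ℂ) (z : ℂ) :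
    (diagPoly P).eval z = MvPolynomial.eval ![z, z] P := by
  unfold diagPoly
  induction P using MvPolynomial.induction_on with
  | C a => simp
  | add p q hp hq => simp [hp, hq]
  | mul_X p i hp =>
    rw [map_mul, Polynomial.eval_mul, hp, map_mul]
    congr 1
    fin_cases i <;> simp

section

variable {t : ℕ} (ht : 16 ≤ t)

include ht

lemma rk_gap (k : ℕ) : 4 / (1 - rk t k) ≤ 256 * (tk t k : ℝ) * nk t k := by
  have h1 := tkr ht k
  have h2 := nkr (t := t) k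
  have h3 := rk_sq ht k
  have h4 := rk_lt_one ht k
  have h5 := rk_pos ht k
  have h6 : 1 / (32 * (tk t k : ℝ) * nk t k) ≤ 2 * (1 - rk t k) := by
    have : 1 / (32 * (tk t k : ℝ) * nk t k) = 1 - ak t k := by unfold ak; ring
    rw [this, ← h3]
    nlinarith
  have h7 : (0:ℝ) < 1 - rk t k := by linarith
  rw [div_le_iff₀ h7]
  have h8 : (1:ℝ) = 1 / (32 * (tk t k : ℝ) * nk t k) * (32 * (tk t k : ℝ) * nk t k) := by
    field_simp
  have h9 : (0:ℝ) < 32 * (tk t k : ℝ) * nk t k := by positivity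
  have h10 : (1:ℝ) ≤ 2 * (1 - rk t k) * (32 * (tk t k : ℝ) * nk t k) := by
    conv_lhs => rw [h8]
    exact mul_le_mul_of_nonneg_right h6 h9.le
  linarith

lemma B_bound : (1 + rk t 0 / rk t 1) / (1 - rk t 0 / rk t 1) ≤ 256 * (tk t 0 : ℝ) * nk t 0 := by
  have h1 := tkr ht 0
  have h2 := nkr (t := t) 0
  have a0 := rk_sq ht 0
  have a1 := rk_sq ht 1
  have b0 := rk_pos ht 0
  have b1 := rk_pos ht 1
  have c1 := rk_lt_one ht 1
  have d0 := rk_lt_succ ht 0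
  rw [zero_add] at d0
  have e0 := gap_ratio ht 0
  rw [zero_add] at e0
  have hx : 0 < 1 / (32 * (tk t 0 : ℝ) * nk t 0) := ak_gap_pos ht 0
  have h3 : 1 / 2 * (1 / (32 * (tk t 0 : ℝ) * nk t 0)) ≤ ak t 1 - ak t 0 := by
    unfold ak; linarith
  have h4 : 1 / 2 * (1 / (32 * (tk t 0 : ℝ) * nk t 0)) ≤ 2 * (rk t 1 - rk t 0) := by
    rw [← a0, ← a1] at h3
    nlinarith
  have h5 : (0:ℝ) < rk t 1 - rk t 0 := by linarith
  have h6 : (1 + rk t 0 / rk t 1) / (1 - rk t 0 / rk t 1) =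
      (rk t 1 + rk t 0) / (rk t 1 - rk t 0) := by
    field_simp
  rw [h6, div_le_iff₀ h5]
  have h8 : (1:ℝ) = 1 / (32 * (tk t 0 : ℝ) * nk t 0) * (32 * (tk t 0 : ℝ) * nk t 0) := by
    field_simp
  have h9 : (0:ℝ) < 32 * (tk t 0 : ℝ) * nk t 0 := by positivity
  have h10 : (1:ℝ) ≤ 4 * (rk t 1 - rk t 0) * (32 * (tk t 0 : ℝ) * nk t 0) := by
    conv_lhs => rw [h8]
    exact mul_le_mul_of_nonneg_right (by linarith) h9.le
  linarith

end

/-- elementary bound of one term in the chain -/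
lemma term_le {a B G c lam : ℝ} (k : ℕ) (ha : 0 ≤ a) (hB : 0 ≤ B) (hG : 0 ≤ G) (hc : 0 ≤ c)
    (hlam : 0 ≤ lam) (h : a ^ 2 * (B * G) * ((7 / 8 : ℝ) ^ 31) ^ k ≤ c ^ 32 * (lam ^ 32) ^ k) :
    a ^ ((1:ℝ) / 16) * ((7 / 8) ^ k * (B * G / (7 / 8) ^ k) ^ ((1:ℝ) / 16 / 2)) ≤ c * lam ^ k := by
  rw [← pow_le_pow_iff_left₀ (by positivity) (by positivity) (by norm_num : 32 ≠ 0)]
  have e1 : (a ^ ((1:ℝ) / 16)) ^ 32 = a ^ 2 := by
    rw [← Real.rpow_natCast, ← Real.rpow_mul ha, ← Real.rpow_natCast]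
    norm_num
  have e2 : ((B * G / (7 / 8) ^ k) ^ ((1:ℝ) / 16 / 2)) ^ 32 = B * G / (7 / 8) ^ k := by
    rw [← Real.rpow_natCast, ← Real.rpow_mul (by positivity)]
    norm_num
  rw [mul_pow, mul_pow, e1, e2, mul_pow]
  have e3 : a ^ 2 * (((7 / 8 : ℝ) ^ k) ^ 32 * (B * G / (7 / 8) ^ k)) =
      a ^ 2 * (B * G) * ((7 / 8 : ℝ) ^ 31) ^ k := by
    have : (0:ℝ) < (7 / 8) ^ k := by positivity
    rw [← pow_mul, ← pow_mul (7 / 8 : ℝ) 31 k, show k * 32 = 31 * k + k by ring, pow_add]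
    field_simp
  rw [e3]
  refine h.trans (le_of_eq ?_)
  rw [← pow_mul, ← pow_mul, mul_comm 32 k]

namespace Data

variable {t : ℕ} (d : Data t)

lemma Tk_exp (k : ℕ) : Real.exp (-Tk t k) = (2 ^ tk t k)⁻¹ := by
  unfold Tk
  rw [Real.exp_neg, mul_comm, Real.exp_mul, Real.exp_log (by norm_num), Real.rpow_natCast]

/-- the main estimate on the diagonal -/
theorem diag_bound (ht : 16 ≤ t) (P : MvPolynomial (Fin 2) ℂ) {C : ℝ} (hC0 : 0 < C)
    (hC : ∀ R : ℝ, 0 < R → R < 1 →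
      ∫ x, ‖MvPolynomial.eval ![(dil R x).1, (dil R x).2] P * d.F (dil R x)‖ ^ 2 ∂mu2 ≤ C) :
    ‖(diagPoly P).eval (rk t 0 : ℂ)‖ ^ 2 ≤
      20 ^ 32 * (Real.exp 4 * 4096 * (256 * (tk t 0 : ℝ) * nk t 0) * C * t) := by
  have ht1 : 1 ≤ t := by omega
  set q := diagPoly P with hq
  set f : ℂ × ℂ → ℂ := fun z => MvPolynomial.eval ![z.1, z.2] P * d.F z with hf
  have hfd : DifferentiableOn ℂ f (ball 0 1) :=
    (differentiable_mveval P).differentiableOn.mul (d.differentiableOn_F ht1)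
  obtain ⟨M, hM⟩ := (isCompact_closedBall (0:ℂ) 1).exists_bound_of_continuousOn
    (q.continuous.continuousOn)
  have ht0 : (0:ℝ) < t := by
    have : 0 < t := by omega
    exact_mod_cast this
  set B : ℝ := (1 + rk t 0 / rk t 1) / (1 - rk t 0 / rk t 1) with hB
  set B' : ℝ := 256 * (tk t 0 : ℝ) * nk t 0 with hB'
  have hBB : B ≤ B' := B_bound ht
  have hB0 : 0 ≤ B := by
    have h1 := rk_lt_succ ht 0
    rw [zero_add] at h1
    have h2 := rk_pos ht 0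
    have h3 := rk_pos ht 1
    have h4 : rk t 0 / rk t 1 < 1 := (div_lt_one h3).mpr h1
    have h5 : 0 < 1 - rk t 0 / rk t 1 := by linarith
    positivity
  have hB'0 : 0 ≤ B' := hB0.trans hBB
  set c32 : ℝ := Real.exp 4 * 4096 * B' * C * t with hc32
  have hc32' : 0 ≤ c32 := by positivity
  set c : ℝ := c32 ^ ((1:ℝ) / 32) with hc
  have hc0 : 0 ≤ c := by positivity
  have hcpow : c ^ 32 = c32 := by
    rw [hc, ← Real.rpow_natCast, ← Real.rpow_mul hc32']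
    norm_num
  have hmain := fun K => chain (r := rk t) (m := fun k => 2 * nk t k) (rk_pos ht 0)
    (rk_lt_succ ht) (ratio_pow ht) q (p := 1 / 16) (by norm_num) (by norm_num)
    (A := fun k => Real.exp (-(Tk t (k + 1) - 2)))
    (G := fun k => 256 * (tk t (k + 1) : ℝ) * nk t (k + 1) * C)
    (g := fun k θ => ‖f ((rk t (k + 1) : ℂ) * ee θ, (rk t (k + 1) : ℂ) * ee θ)‖)
    (fun k => (Real.exp_pos _).le)
    (fun k => by
      have h1 := tkr ht (k + 1)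
      have h2 := nkr (t := t) (k + 1)
      positivity)
    (fun k θ => norm_nonneg _)
    (fun k => (continuous_on_circles hfd (by fun_prop) (fun x => by
      rw [Prod.norm_def]
      simp only [norm_real_mul_ee (rk_pos ht (k + 1)).le, max_self]
      exact rk_lt_one ht (k + 1))).norm)
    (fun k θ hθ => by
      have h1 := d.F_large ht (k + 1) (by omega) hθ
      set z : ℂ := (rk t (k + 1) : ℂ) * ee θ with hz
      have h2 : f (z, z) = q.eval z * d.F (z, z) := by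
        simp only [hf, hq, eval_diagPoly]
      rw [h2, norm_mul]
      have h3 : Real.exp (-(Tk t (k + 1) - 2)) * Real.exp (Tk t (k + 1) - 2) = 1 := by
        rw [← Real.exp_add, neg_add_cancel, Real.exp_zero]
      calc ‖q.eval z‖ = ‖q.eval z‖ * (Real.exp (-(Tk t (k + 1) - 2)) *
            Real.exp (Tk t (k + 1) - 2)) := by rw [h3, mul_one]
        _ ≤ ‖q.eval z‖ * (Real.exp (-(Tk t (k + 1) - 2)) * ‖d.F (z, z)‖) := by gcongr
        _ = Real.exp (-(Tk t (k + 1) - 2)) * (‖q.eval z‖ * ‖d.F (z, z)‖) := by ring)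
    (fun k => by
      have h1 := diag_sq hfd hC (rk_pos ht (k + 1)) (rk_lt_one ht (k + 1))
      refine h1.trans ?_
      exact mul_le_mul_of_nonneg_right (rk_gap ht (k + 1)) hC0.le)
    (M := M) (fun k θ => hM _ (by
      rw [mem_closedBall_zero_iff, norm_real_mul_ee (rk_pos ht k).le]
      exact (rk_lt_one ht k).le)) K
  have hM0 : 0 ≤ M := (norm_nonneg _).trans (hM 0 (by simp))
  have hterm : ∀ k, Real.exp (-(Tk t (k + 1) - 2)) ^ ((1:ℝ) / 16) * ((7 / 8) ^ k *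
      (B * (256 * (tk t (k + 1) : ℝ) * nk t (k + 1) * C) / (7 / 8) ^ k) ^ ((1:ℝ) / 16 / 2)) ≤
      c * (19 / 20) ^ k := by
    intro k
    have h1 := tkr ht (k + 1)
    have h2 := nkr (t := t) (k + 1)
    apply term_le k (Real.exp_pos _).le hB0 (by positivity) hc0 (by norm_num)
    rw [hcpow]
    have e1 : Real.exp (-(Tk t (k + 1) - 2)) ^ 2 = Real.exp 4 * ((2 ^ tk t (k + 1)) ^ 2)⁻¹ := by
      rw [neg_sub, sub_eq_add_neg, Real.exp_add, Tk_exp, mul_pow, inv_pow, ← Real.exp_nat_mul]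
      norm_num
    have e2 : (nk t (k + 1) : ℝ) = (2 ^ tk t (k + 1)) ^ 2 * (4 * 2 ^ k) := by
      unfold nk ek
      push_cast
      rw [← pow_mul, show (4:ℝ) = 2 ^ 2 by norm_num, ← pow_add, ← pow_add]
      congr 1
      ring
    have e3 : (tk t (k + 1) : ℝ) = t * (4 * 4 ^ k) := by
      unfold tk
      push_cast
      ring
    rw [e1, e2, e3]
    have hp : (0:ℝ) < (2 ^ tk t (k + 1)) ^ 2 := by positivity
    have e4 : Real.exp 4 * ((2 ^ tk t (k + 1)) ^ 2)⁻¹ * (B * (256 * (t * (4 * 4 ^ k)) *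
        ((2 ^ tk t (k + 1)) ^ 2 * (4 * 2 ^ k)) * C)) * ((7 / 8 : ℝ) ^ 31) ^ k =
        Real.exp 4 * 4096 * B * C * t * (8 * (7 / 8 : ℝ) ^ 31) ^ k := by
      have : (8:ℝ) ^ k = 4 ^ k * 2 ^ k := by rw [← mul_pow]; norm_num
      rw [mul_pow, this]
      field_simp
      ring
    rw [e4]
    have e5 : (8 * (7 / 8 : ℝ) ^ 31) ^ k ≤ ((19 / 20 : ℝ) ^ 32) ^ k := by
      apply pow_le_pow_left₀ (by norm_num)
      norm_num
    rw [hc32]
    gcongr
  have hsum : ∀ K, ‖q.eval (rk t 0 : ℂ)‖ ^ ((1:ℝ) / 16) ≤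
      20 * c + (7 / 8) ^ K * M ^ ((1:ℝ) / 16) := by
    intro K
    refine (hmain K).trans ?_
    apply add_le_add _ le_rfl
    calc _ ≤ ∑ k ∈ Finset.range K, c * (19 / 20) ^ k := Finset.sum_le_sum (fun k _ => hterm k)
      _ = c * ∑ k ∈ Finset.range K, (19 / 20 : ℝ) ^ k := by rw [Finset.mul_sum]
      _ ≤ c * 20 := by
          apply mul_le_mul_of_nonneg_left _ hc0
          rw [geom_sum_eq (by norm_num)]
          have : (0:ℝ) ≤ (19 / 20) ^ K := by positivity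
          rw [div_le_iff_of_neg (by norm_num)]
          linarith
      _ = 20 * c := by ring
  have hlim : ‖q.eval (rk t 0 : ℂ)‖ ^ ((1:ℝ) / 16) ≤ 20 * c := by
    have h1 : Tendsto (fun K : ℕ => 20 * c + (7 / 8 : ℝ) ^ K * M ^ ((1:ℝ) / 16)) atTop
        (𝓝 (20 * c + 0 * M ^ ((1:ℝ) / 16))) :=
      ((tendsto_pow_atTop_nhds_zero_of_lt_one (by norm_num) (by norm_num)).mul_const _).const_add _
    rw [zero_mul, add_zero] at h1
    exact ge_of_tendsto' h1 hsum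
  have hfin := pow_le_pow_left₀ (by positivity) hlim 32
  rw [mul_pow, hcpow, ← Real.rpow_natCast (‖q.eval (rk t 0 : ℂ)‖ ^ ((1:ℝ) / 16)),
    ← Real.rpow_mul (norm_nonneg _)] at hfin
  norm_num at hfin ⊢
  exact hfin

end Data

/-- choice of the parameter -/
theorem exists_t : ∃ t : ℕ, 16 ≤ t ∧
    20 ^ 32 * (Real.exp 4 * 4096 * (256 * (tk t 0 : ℝ) * nk t 0) * 4 * t) *
      Real.exp (-(5 / 3) * Tk t 0 + 2) ^ 2 < 1 / 4 := by
  set ρ : ℝ := Real.exp (-(4 / 3) * Real.log 2) with hρ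
  have hρ0 : 0 < ρ := Real.exp_pos _
  have hρ1 : ρ < 1 := by
    rw [hρ, Real.exp_lt_one_iff]
    have := Real.log_pos (by norm_num : (1:ℝ) < 2)
    linarith
  set K0 : ℝ := 20 ^ 32 * (Real.exp 4 * 4096 * (256 * 2) * 4) * Real.exp 4 with hK0
  have h1 := (tendsto_pow_const_mul_const_pow_of_abs_lt_one 2
    (r := ρ) (by rw [abs_of_pos hρ0]; exact hρ1)).const_mul K0
  rw [mul_zero] at h1
  have h2 := h1.eventually (gt_mem_nhds (by norm_num : (0:ℝ) < 1 / 4))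
  obtain ⟨t, ht, h3⟩ := ((eventually_ge_atTop 16).and h2).exists
  refine ⟨t, ht, ?_⟩
  refine lt_of_eq_of_lt ?_ h3
  have e1 : (tk t 0 : ℝ) = t := by unfold tk; push_cast; ring
  have e2 : (nk t 0 : ℝ) = 2 * Real.exp (2 * (t * Real.log 2)) := by
    have : nk t 0 = 2 * 2 ^ (2 * t) := by
      unfold nk ek tk
      rw [pow_succ, mul_comm]
      norm_num
    rw [this]
    push_cast
    congr 1
    rw [show 2 * ((t:ℝ) * Real.log 2) = ((2 * t : ℕ) : ℝ) * Real.log 2 by push_cast; ring,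
      Real.exp_nat_mul, Real.exp_log (by norm_num)]
  have e3 : Tk t 0 = t * Real.log 2 := by
    unfold Tk
    rw [e1]
  have e4 : ρ ^ t = Real.exp (-(4 / 3) * (t * Real.log 2)) := by
    rw [hρ, ← Real.exp_nat_mul]
    congr 1
    ring
  have e5 : Real.exp (-(5 / 3) * Tk t 0 + 2) ^ 2 =
      Real.exp 4 * Real.exp (-(10 / 3) * (t * Real.log 2)) := by
    rw [← Real.exp_nat_mul, e3, ← Real.exp_add]
    congr 1
    push_cast
    ring
  have e6 : Real.exp (-(4 / 3) * (t * Real.log 2)) =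
      Real.exp (2 * (t * Real.log 2)) * Real.exp (-(10 / 3) * (t * Real.log 2)) := by
    rw [← Real.exp_add]
    congr 1
    ring
  rw [e5, e1, e2, e4, e6, hK0]
  ring

lemma K2_le {s : ℝ} (hs : 0 < s) (hs1 : s < 1) (x : ℝ × ℝ) :
    K2 ((s:ℂ), (s:ℂ)) x ≤ ((1 + s) / (1 - s)) ^ 2 := by
  have hn : ‖(s:ℂ)‖ = s := by rw [Complex.norm_real, Real.norm_eq_abs, abs_of_pos hs]
  have h1 := PK_le (z := (s:ℂ)) (by rw [hn]; exact hs1) x.1
  have h2 := PK_le (z := (s:ℂ)) (by rw [hn]; exact hs1) x.2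
  rw [hn] at h1 h2
  unfold K2
  rw [sq]
  have : 0 < 1 - s := by linarith
  exact mul_le_mul h1 h2 (PK_pos (by rw [hn]; exact hs1) _).le (by positivity)

/-- point evaluation is bounded by the `H²` norm -/
theorem eval_bound {g : ℂ × ℂ → ℂ} (hg : DifferentiableOn ℂ g (ball 0 1)) {r : ℝ} (hr : 0 < r)
    (hr1 : r < 1) {ε : ℝ} (hε : ∀ R : ℝ, 0 < R → R < 1 → ∫ x, ‖g (dil R x)‖ ^ 2 ∂mu2 ≤ ε) :
    ‖g ((r:ℂ), (r:ℂ))‖ ^ 2 ≤ ((1 + Real.sqrt r) / (1 - Real.sqrt r)) ^ 2 * ε := by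
  set s := Real.sqrt r with hs
  have hs0 : 0 < s := Real.sqrt_pos.mpr hr
  have hss : s * s = r := Real.mul_self_sqrt hr.le
  have hs1 : s < 1 := by nlinarith
  have hR : 1 < 1 / s := by rw [lt_div_iff₀ hs0]; linarith
  have hGd := differentiableOn_scale hg (s := s) hs0
  have hn : ‖((s:ℂ), (s:ℂ))‖ < 1 := by
    rw [Prod.norm_def]
    simp only [max_self]
    rw [Complex.norm_real, Real.norm_eq_abs, abs_of_pos hs0]
    exact hs1
  have h1 := sub2 hR hGd (p := 2) two_pos hn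
  simp only [Real.rpow_two, dil_scale, mul_one] at h1
  have e1 : (((s:ℂ) * (s:ℂ), (s:ℂ) * (s:ℂ)) : ℂ × ℂ) = ((r:ℂ), (r:ℂ)) := by
    rw [← hss]; push_cast; rfl
  rw [e1] at h1
  have hc : Continuous (fun x => g (dil s x)) :=
    continuous_on_circles hg (continuous_dil s) (fun x => by rw [norm_dil hs0.le]; exact hs1)
  refine h1.trans ?_
  calc ∫ x, K2 ((s:ℂ), (s:ℂ)) x * ‖g (dil s x)‖ ^ 2 ∂mu2
      ≤ ∫ x, ((1 + s) / (1 - s)) ^ 2 * ‖g (dil s x)‖ ^ 2 ∂mu2 := by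
        apply integral_mono (integrable_mu2 ((continuous_K2 hn).mul (hc.norm.pow 2)))
          (integrable_mu2 ((hc.norm.pow 2).const_mul _))
        intro x
        exact mul_le_mul_of_nonneg_right (K2_le hs0 hs1 x) (sq_nonneg _)
    _ = ((1 + s) / (1 - s)) ^ 2 * ∫ x, ‖g (dil s x)‖ ^ 2 ∂mu2 := integral_const_mul _ _
    _ ≤ _ := by
        apply mul_le_mul_of_nonneg_left (hε s hs0 hs1) (by positivity)

/-- `F` is not cyclic in `H²`. -/
theorem not_H2_cyclic : ∃ t : ℕ, 16 ≤ t ∧ ∀ d : Data t, ∃ ε : ℝ, 0 < ε ∧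
    ∀ P : MvPolynomial (Fin 2) ℂ, ¬ ∀ R : ℝ, 0 < R → R < 1 →
      ∫ x, ‖MvPolynomial.eval ![(dil R x).1, (dil R x).2] P * d.F (dil R x) - 1‖ ^ 2 ∂mu2 ≤ ε := by
  obtain ⟨t, ht, hK⟩ := exists_t
  refine ⟨t, ht, fun d => ?_⟩
  have ht1 : 1 ≤ t := by omega
  set κ : ℝ := ((1 + Real.sqrt (rk t 0)) / (1 - Real.sqrt (rk t 0))) ^ 2 with hκ
  have hκ0 : 0 ≤ κ := by positivity
  refine ⟨min 1 (1 / (4 * (κ + 1))), by positivity, fun P hP => ?_⟩
  set f : ℂ × ℂ → ℂ := fun z => MvPolynomial.eval ![z.1, z.2] P * d.F z with hf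
  have hfd : DifferentiableOn ℂ f (ball 0 1) :=
    (differentiable_mveval P).differentiableOn.mul (d.differentiableOn_F ht1)
  have hgd : DifferentiableOn ℂ (fun z => f z - 1) (ball 0 1) := hfd.sub_const 1
  have h4 : ∀ R : ℝ, 0 < R → R < 1 → ∫ x, ‖f (dil R x)‖ ^ 2 ∂mu2 ≤ 4 := by
    intro R hR hR1
    have hc : Continuous (fun x => f (dil R x)) :=
      continuous_on_circles hfd (continuous_dil R) (fun x => by rw [norm_dil hR.le]; exact hR1)
    have h5 := (hP R hR hR1).trans (min_le_left _ _)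
    have i1 : Integrable (fun x => 2 * ‖f (dil R x) - 1‖ ^ 2) mu2 :=
      (integrable_mu2 ((hc.sub continuous_const).norm.pow 2)).const_mul _
    calc ∫ x, ‖f (dil R x)‖ ^ 2 ∂mu2 ≤ ∫ x, (2 * ‖f (dil R x) - 1‖ ^ 2 + 2) ∂mu2 := by
          apply integral_mono (integrable_mu2 (hc.norm.pow 2)) (i1.add (integrable_const _))
          intro x
          show ‖f (dil R x)‖ ^ 2 ≤ 2 * ‖f (dil R x) - 1‖ ^ 2 + 2
          have h6 : ‖f (dil R x)‖ ≤ ‖f (dil R x) - 1‖ + 1 := by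
            have := norm_add_le (f (dil R x) - 1) 1
            rwa [sub_add_cancel, norm_one] at this
          nlinarith [norm_nonneg (f (dil R x)), norm_nonneg (f (dil R x) - 1),
            sq_nonneg (‖f (dil R x) - 1‖ - 1)]
      _ = 2 * (∫ x, ‖f (dil R x) - 1‖ ^ 2 ∂mu2) + 2 := by
          rw [integral_add i1 (integrable_const _), integral_const_mul]
          simp
      _ ≤ 4 := by linarith
  have h5 := d.diag_bound ht P (C := 4) (by norm_num) h4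
  have h6 := d.F_small ht
  have h7 : ‖f ((rk t 0 : ℂ), (rk t 0 : ℂ))‖ ^ 2 < 1 / 4 := by
    have : f ((rk t 0 : ℂ), (rk t 0 : ℂ)) = (diagPoly P).eval (rk t 0 : ℂ) *
        d.F ((rk t 0 : ℂ), (rk t 0 : ℂ)) := by
      simp only [hf, eval_diagPoly]
    rw [this, norm_mul, mul_pow]
    refine lt_of_le_of_lt ?_ hK
    exact mul_le_mul h5 (pow_le_pow_left₀ (norm_nonneg _) h6 2) (by positivity)
      ((by positivity : (0:ℝ) ≤ ‖(diagPoly P).eval (rk t 0 : ℂ)‖ ^ 2).trans h5)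
  have h8 := eval_bound hgd (rk_pos ht 0) (rk_lt_one ht 0) hP
  have h9 : ‖f ((rk t 0 : ℂ), (rk t 0 : ℂ)) - 1‖ ^ 2 ≤ 1 / 4 := by
    refine h8.trans ?_
    rw [← hκ]
    calc κ * min 1 (1 / (4 * (κ + 1))) ≤ κ * (1 / (4 * (κ + 1))) := by
          gcongr; exact min_le_right _ _
      _ ≤ 1 / 4 := by
          rw [mul_one_div, div_le_div_iff₀ (by positivity) (by norm_num)]
          linarith
  have a1 : ‖f ((rk t 0 : ℂ), (rk t 0 : ℂ))‖ < 1 / 2 := by
    nlinarith [norm_nonneg (f ((rk t 0 : ℂ), (rk t 0 : ℂ)))]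
  have a2 : ‖f ((rk t 0 : ℂ), (rk t 0 : ℂ)) - 1‖ ≤ 1 / 2 := by
    nlinarith [norm_nonneg (f ((rk t 0 : ℂ), (rk t 0 : ℂ)) - 1)]
  have a3 := norm_sub_le (f ((rk t 0 : ℂ), (rk t 0 : ℂ))) (f ((rk t 0 : ℂ), (rk t 0 : ℂ)) - 1)
  rw [sub_sub_cancel, norm_one] at a3
  linarith

end Pool.Agent.Lib.MP_7d8448_an
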