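import Pool.Agent.Lib.MP_7d8448_an.Norms
import Pool.Agent.Lib.MP_7d8448_an.Cert

/-!
Size of `F` on the diagonal.
-/

set_option autoImplicit false

open MeasureTheory Complex Set Metric

namespace Pool.Agent.Lib.MP_7d8448_an

/-! ### numerical facts -/

lemma cube_le (y : ℕ) (hy : 10 ≤ y) : y ^ 3 ≤ 2 ^ y := by
  induction y, hy using Nat.le_induction with
  | base => norm_num
  | succ n hn ih =>
    have h1 : 2 ^ (n + 1) = 2 * 2 ^ n := by ring
    rw [h1]
    nlinarith [mul_le_mul hn hn (by norm_num) (by omega)]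

lemma tk_ge (t k : ℕ) (ht : 16 ≤ t) : 14 + k ≤ tk t k := by
  unfold tk
  have h1 : k + 1 ≤ 4 ^ k := by
    have : k < 4 ^ k := Nat.lt_pow_self (by norm_num)
    omega
  calc 14 + k ≤ 16 * (k + 1) := by omega
    _ ≤ t * 4 ^ k := Nat.mul_le_mul ht h1

lemma tk_mono4 (t : ℕ) {k j : ℕ} (h : k + 1 ≤ j) : 4 * tk t k ≤ tk t j := by
  unfold tk
  calc 4 * (t * 4 ^ k) = t * 4 ^ (k + 1) := by ring
    _ ≤ t * 4 ^ j := by gcongr; norm_num

/-- main numerical inequality for the tails -/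
lemma tail_nat (t : ℕ) (ht : 16 ≤ t) {k j : ℕ} (h : k + 1 ≤ j) :
    2 ^ (12 + j) * tk t k * tk t j ^ 2 * nk t k ≤ Nk t j := by
  have h1 := tk_ge t k ht
  have h2 := tk_mono4 t h
  set x := tk t k with hx
  set y := tk t j with hy
  have hy10 : 10 ≤ y := by omega
  have h3 := cube_le y hy10
  have hN : 2 ^ (2 * y + j - 1) ≤ Nk t j := by
    unfold Nk
    rw [show ek t j = (2 * y + j - 1) + 1 by unfold ek; rw [← hy]; omega, pow_succ]
    have : 1 ≤ 2 ^ (2 * y + j - 1) := Nat.one_le_two_pow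
    omega
  refine le_trans ?_ hN
  have hn : nk t k = 2 ^ (2 * x + k + 1) := by unfold nk ek; rw [← hx]
  rw [hn]
  have h4 : x * y ^ 2 ≤ y ^ 3 := by
    rw [pow_succ y 2, mul_comm (y ^ 2)]
    exact Nat.mul_le_mul_right _ (by omega)
  calc 2 ^ (12 + j) * x * y ^ 2 * 2 ^ (2 * x + k + 1)
      = 2 ^ (12 + j) * 2 ^ (2 * x + k + 1) * (x * y ^ 2) := by ring
    _ ≤ 2 ^ (12 + j) * 2 ^ (2 * x + k + 1) * 2 ^ y :=
        Nat.mul_le_mul_left _ (h4.trans h3)
    _ = 2 ^ (12 + j + (2 * x + k + 1) + y) := by rw [← pow_add, ← pow_add]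
    _ ≤ 2 ^ (2 * y + j - 1) := Nat.pow_le_pow_right (by norm_num) (by omega)

lemma nk_ratio (t : ℕ) (ht : 16 ≤ t) (k : ℕ) : 1280 * tk t k * nk t k ≤ nk t (k + 1) := by
  have h1 := tk_ge t k ht
  have h2 : nk t (k + 1) = nk t k * 2 ^ (6 * tk t k + 1) := by
    unfold nk
    rw [ek_succ, ← pow_add]
    congr 1
    ring
  rw [h2, mul_comm (1280 * tk t k)]
  apply Nat.mul_le_mul_left
  set x := tk t k
  calc 1280 * x ≤ 2 ^ 11 * 2 ^ x := Nat.mul_le_mul (by norm_num) Nat.lt_two_pow_self.le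
    _ = 2 ^ (11 + x) := by rw [← pow_add]
    _ ≤ 2 ^ (6 * x + 1) := Nat.pow_le_pow_right (by norm_num) (by omega)

/-- squared radii -/
noncomputable def ak (t k : ℕ) : ℝ := 1 - 1 / (32 * (tk t k : ℝ) * nk t k)

/-- radii -/
noncomputable def rk (t k : ℕ) : ℝ := Real.sqrt (ak t k)

section

variable {t : ℕ} (ht : 16 ≤ t)

include ht

lemma tkr (k : ℕ) : (16:ℝ) ≤ tk t k := by
  have := ht.trans (le_tk t k)
  exact_mod_cast this

omit ht in
lemma nkr (k : ℕ) : (1:ℝ) ≤ nk t k := by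
  have : 1 ≤ nk t k := Nat.one_le_two_pow
  exact_mod_cast this

lemma ak_gap_pos (k : ℕ) : 0 < 1 / (32 * (tk t k : ℝ) * nk t k) := by
  have := tkr ht k
  have := nkr (t := t) k
  positivity

lemma ak_lt_one (k : ℕ) : ak t k < 1 := by
  unfold ak
  linarith [ak_gap_pos ht k]

lemma ak_ge (k : ℕ) : 1 / 2 ≤ ak t k := by
  unfold ak
  have h1 := tkr ht k
  have h2 := nkr (t := t) k
  have h3 : 1 / (32 * (tk t k : ℝ) * nk t k) ≤ 1 / 2 := by
    apply one_div_le_one_div_of_le (by norm_num)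
    nlinarith
  linarith

lemma gap_ratio (k : ℕ) : 1 / (32 * (tk t (k + 1) : ℝ) * nk t (k + 1)) ≤
    1 / 2 * (1 / (32 * (tk t k : ℝ) * nk t k)) := by
  have h1 := tkr ht k
  have h2 := nkr (t := t) k
  have h3 := tkr ht (k + 1)
  have h4 := nkr (t := t) (k + 1)
  have h5 : (tk t k : ℝ) ≤ tk t (k + 1) := by
    rw [tk_succ]; push_cast; linarith
  have h6 : (2 * nk t k : ℝ) ≤ nk t (k + 1) := by
    have h7 : 2 * nk t k ≤ nk t (k + 1) := by
      have h8 := nk_ratio t ht k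
      have h9 := tk_ge t k ht
      refine le_trans ?_ h8
      nlinarith [Nat.one_le_two_pow (n := ek t k + 1), Nat.zero_le (nk t k)]
    exact_mod_cast h7
  rw [one_div_mul_one_div]
  apply one_div_le_one_div_of_le (by positivity)
  nlinarith [mul_le_mul h5 h6 (by positivity) (by positivity)]

lemma ak_lt_succ (k : ℕ) : ak t k < ak t (k + 1) := by
  have h1 := gap_ratio ht k
  have h2 := ak_gap_pos ht k
  unfold ak
  linarith

lemma rk_pos (k : ℕ) : 0 < rk t k := Real.sqrt_pos.mpr (by linarith [ak_ge ht k])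

lemma rk_sq (k : ℕ) : rk t k ^ 2 = ak t k := Real.sq_sqrt (by linarith [ak_ge ht k])

lemma rk_lt_one (k : ℕ) : rk t k < 1 := by
  have h1 := rk_sq ht k
  have h2 := ak_lt_one ht k
  have h3 := rk_pos ht k
  nlinarith

lemma rk_lt_succ (k : ℕ) : rk t k < rk t (k + 1) :=
  Real.sqrt_lt_sqrt (by linarith [ak_ge ht k]) (ak_lt_succ ht k)

/-- `a_k^{n_k}` is close to one -/
lemma ak_pow_ge (k : ℕ) : 1 - 1 / (32 * (tk t k : ℝ)) ≤ ak t k ^ nk t k := by
  have h1 := tkr ht k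
  have h2 := nkr (t := t) k
  have h3 := one_add_mul_le_pow (a := -(1 / (32 * (tk t k : ℝ) * nk t k))) (by
    have := ak_ge ht k
    unfold ak at this
    linarith) (nk t k)
  unfold ak
  rw [sub_eq_add_neg 1 (1 / (32 * (tk t k : ℝ) * nk t k))]
  refine le_trans (le_of_eq ?_) h3
  field_simp
  ring

/-- `a_k^N` is small for large `N` -/
lemma ak_pow_le (k N : ℕ) (hN : 0 < N) : ak t k ^ N ≤ 32 * (tk t k : ℝ) * nk t k / N := by
  have h1 := tkr ht k
  have h2 := nkr (t := t) k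
  have hN' : (0:ℝ) < N := by exact_mod_cast hN
  set x : ℝ := 1 / (32 * (tk t k : ℝ) * nk t k) with hx
  have hx0 : 0 < x := ak_gap_pos ht k
  have h3 : ak t k ≤ (1 + x)⁻¹ := by
    unfold ak
    rw [← hx, le_inv_comm₀]
    · rw [le_inv_comm₀ (by positivity)]
      · rw [inv_eq_one_div, le_div_iff₀ (by positivity)]
        nlinarith
      · have := ak_ge ht k
        unfold ak at this
        linarith
    · have := ak_ge ht k
      unfold ak at this
      linarith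
    · positivity
  have h4 : ak t k ^ N ≤ ((1 + x)⁻¹) ^ N :=
    pow_le_pow_left₀ (by linarith [ak_ge ht k]) h3 N
  refine h4.trans ?_
  rw [inv_pow]
  have h5 : (N:ℝ) * x ≤ (1 + x) ^ N := by
    have := one_add_mul_le_pow (a := x) (by linarith) N
    linarith
  calc ((1 + x) ^ N)⁻¹ ≤ ((N:ℝ) * x)⁻¹ := inv_anti₀ (by positivity) h5
    _ = 32 * (tk t k : ℝ) * nk t k / N := by rw [hx]; field_simp

/-- condition on ratios of levels -/
lemma ratio_pow (k : ℕ) : (rk t k / rk t (k + 1)) ^ (2 * nk t (k + 1)) ≤ 1 / 20 := by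
  have h1 := tkr ht k
  have h2 := nkr (t := t) k
  have h3 := tkr ht (k + 1)
  have hn : 0 < nk t (k + 1) := by unfold nk; positivity
  have hn' : (0:ℝ) < nk t (k + 1) := by exact_mod_cast hn
  rw [div_pow, pow_mul, pow_mul, rk_sq ht, rk_sq ht]
  have a1 := ak_pow_le ht k (nk t (k + 1)) hn
  have a2 : 32 * (tk t k : ℝ) * nk t k / nk t (k + 1) ≤ 1 / 40 := by
    rw [div_le_iff₀ hn']
    have h4 := nk_ratio t ht k
    have h5 : (1280 * tk t k * nk t k : ℝ) ≤ nk t (k + 1) := by exact_mod_cast h4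
    linarith
  have a3 := ak_pow_ge ht (k + 1)
  have a4 : 1 / (32 * (tk t (k + 1) : ℝ)) ≤ 1 / 2 := by
    apply one_div_le_one_div_of_le (by norm_num); linarith
  rw [div_le_iff₀ (by linarith)]
  linarith

end

/-! ### Positivity of real parts -/

lemma re_nonneg_of_circle {f : ℂ → ℂ} (hf : Differentiable ℂ f)
    (h : ∀ ξ : ℂ, ‖ξ‖ = 1 → 0 ≤ (f ξ).re) {w : ℂ} (hw : ‖w‖ ≤ 1) : 0 ≤ (f w).re := by
  have h2 := Complex.norm_le_of_forall_mem_frontier_norm_le (U := Metric.ball (0:ℂ) 1)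
    Metric.isBounded_ball (f := fun z => exp (-f z)) (C := 1)
    (hf.neg.cexp.diffContOnCl) (by
      intro z hz
      rw [frontier_ball (0:ℂ) one_ne_zero] at hz
      have := h z (by simpa using hz)
      rw [Complex.norm_exp, Complex.neg_re]
      rw [← Real.exp_zero]
      apply Real.exp_le_exp.mpr
      linarith) (z := w) (by
      rw [closure_ball (0:ℂ) one_ne_zero]; simpa using hw)
  rw [Complex.norm_exp, Complex.neg_re, ← Real.exp_zero] at h2
  have := Real.exp_le_exp.mp h2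
  linarith

variable {t : ℕ} (d : Data t)

namespace Data

lemma level_main (k : ℕ) (hk : 1 ≤ k) {w : ℂ} (hw : ‖w‖ ≤ 1) :
    Tk t k - d.S (k + 1) w ≤ 2 * Tk t k * (1 - ((d.Φ k).eval (w ^ nk t k)).re) := by
  have h := re_nonneg_of_circle (f := fun w => (2 * Tk t k : ℂ) *
    (1 - (d.Φ k).eval (w ^ nk t k)) - ((Tk t k : ℂ) - (d.H (k + 1)).eval w)) (by
      have h1 : Differentiable ℂ (fun w : ℂ => (d.Φ k).eval (w ^ nk t k)) :=
        (d.Φ k).differentiable.comp (by fun_prop)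
      have h2 : Differentiable ℂ (fun w : ℂ => (d.H (k + 1)).eval w) := (d.H (k + 1)).differentiable
      exact ((h1.const_sub 1).const_mul _).sub (h2.const_sub _)) (by
      intro ξ hξ
      have e1 : ((2 * Tk t k : ℂ) * (1 - (d.Φ k).eval (ξ ^ nk t k)) -
        ((Tk t k : ℂ) - (d.H (k + 1)).eval ξ)).re =
        2 * Tk t k * (1 - ((d.Φ k).eval (ξ ^ nk t k)).re) - (Tk t k - d.S (k + 1) ξ) := by
        rw [show (2 * Tk t k : ℂ) = ((2 * Tk t k : ℝ) : ℂ) by push_cast; ring]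
        rw [Complex.sub_re, Complex.re_ofReal_mul, Complex.sub_re, Complex.sub_re,
          Complex.ofReal_re, Complex.one_re]
        rfl
      rw [e1, d.S_step k hξ]
      have b := d.S_bounds k hξ
      have c := (abs_le.mp (d.Φ_abs k hk (ξ ^ nk t k) (by simp [hξ]))).2
      have : Tk t k - (d.S k ξ + (Tk t k - d.S k ξ) * ((d.Φ k).eval (ξ ^ nk t k)).re) =
        (Tk t k - d.S k ξ) * (1 - ((d.Φ k).eval (ξ ^ nk t k)).re) := by ring
      rw [this]
      nlinarith [b.1, b.2.1]) hw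
  have e1 : ((2 * Tk t k : ℂ) * (1 - (d.Φ k).eval (w ^ nk t k)) -
        ((Tk t k : ℂ) - (d.H (k + 1)).eval w)).re =
        2 * Tk t k * (1 - ((d.Φ k).eval (w ^ nk t k)).re) - (Tk t k - d.S (k + 1) w) := by
        rw [show (2 * Tk t k : ℂ) = ((2 * Tk t k : ℝ) : ℂ) by push_cast; ring]
        rw [Complex.sub_re, Complex.re_ofReal_mul, Complex.sub_re, Complex.sub_re,
          Complex.ofReal_re, Complex.one_re]
        rfl
  rw [e1] at h
  linarith

lemma level_zero {w : ℂ} (hw : ‖w‖ ≤ 1) :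
    ((d.h 0).eval w).re ≤ Tk t 0 * ((d.Φ 0).eval (w ^ nk t 0)).re := by
  have h := re_nonneg_of_circle (f := fun w => (Tk t 0 : ℂ) * (d.Φ 0).eval (w ^ nk t 0) -
    (d.h 0).eval w) (by
      have h1 : Differentiable ℂ (fun w : ℂ => (d.Φ 0).eval (w ^ nk t 0)) :=
        (d.Φ 0).differentiable.comp (by fun_prop)
      exact (h1.const_mul _).sub (d.h 0).differentiable) (by
      intro ξ hξ
      rw [d.h_eval 0 hξ, d.S_zero, sub_zero, sub_self]
      simp) hw
  rw [Complex.sub_re, Complex.re_ofReal_mul] at h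
  linarith

lemma L_diag (k : ℕ) (z : ℂ) : d.L k (z, z) = (d.h k).eval (z ^ 2) := eval_XP_diag _ _ z

/-- bound of one tail term -/
lemma tail_term (ht : 16 ≤ t) {k j : ℕ} (h : k + 1 ≤ j) {w : ℂ} (hw : ‖w‖ = ak t k) :
    ‖(d.h j).eval w‖ ≤ (1 / 2) ^ (j + 1) := by
  have hw1 : ‖w‖ ≤ 1 := by rw [hw]; exact (ak_lt_one ht k).le
  refine (d.norm_h_le j hw1).trans ?_
  rw [hw]
  have hN := tail_nat t ht h
  have h1 := tkr ht k
  have h2 := nkr (t := t) k
  have h3 := tkr ht j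
  have hNpos : 0 < Nk t j := by
    refine lt_of_lt_of_le ?_ hN
    have q1 : 0 < tk t k := by have := tk_ge t k ht; omega
    have q2 : 0 < tk t j := by have := tk_ge t j ht; omega
    have q3 : 0 < nk t k := by unfold nk; positivity
    positivity
  have hNr : (0:ℝ) < Nk t j := by exact_mod_cast hNpos
  have hN' : (2 ^ (12 + j) * tk t k * tk t j ^ 2 * nk t k : ℝ) ≤ Nk t j := by exact_mod_cast hN
  calc ak t k ^ Nk t j * (64 * (tk t j : ℝ) ^ 2)
      ≤ (32 * (tk t k : ℝ) * nk t k / Nk t j) * (64 * (tk t j : ℝ) ^ 2) := by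
        gcongr
        exact ak_pow_le ht k _ hNpos
    _ ≤ (1 / 2) ^ (j + 1) := by
        rw [div_mul_eq_mul_div, div_le_iff₀ hNr]
        have e1 : (1 / 2 : ℝ) ^ (j + 1) * 2 ^ (12 + j) = 2 ^ 11 := by
          have e2 : (2:ℝ) ^ (12 + j) = 2 ^ (j + 1) * 2 ^ 11 := by
            rw [← pow_add]; congr 1; ring
          rw [e2, ← mul_assoc, ← mul_pow]
          norm_num
        calc 32 * (tk t k : ℝ) * nk t k * (64 * (tk t j : ℝ) ^ 2)
            = 2 ^ 11 * (tk t k * tk t j ^ 2 * nk t k) := by ring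
          _ = (1 / 2 : ℝ) ^ (j + 1) * (2 ^ (12 + j) * tk t k * tk t j ^ 2 * nk t k) := by
              rw [← e1]; ring
          _ ≤ (1 / 2 : ℝ) ^ (j + 1) * Nk t j := by gcongr

/-- real part of `V` on the diagonal -/
lemma V_diag (ht : 16 ≤ t) (k : ℕ) {z : ℂ} (hz : ‖z‖ = rk t k) :
    |(d.V (z, z)).re - d.S (k + 1) (z ^ 2)| ≤ 1 := by
  have hz1 : ‖((z, z) : ℂ × ℂ)‖ < 1 := by
    rw [Prod.norm_def]
    simp only [max_self]
    rw [hz]; exact rk_lt_one ht k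
  have hw : ‖z ^ 2‖ = ak t k := by rw [norm_pow, hz, rk_sq ht]
  have hs := d.summable_L (by omega : 1 ≤ t) hz1
  have h1 := hs.sum_add_tsum_nat_add (k + 1)
  have h2 : ∑ i ∈ Finset.range (k + 1), d.L i (z, z) = (d.H (k + 1)).eval (z ^ 2) := by
    rw [H, Polynomial.eval_finsetSum]
    apply Finset.sum_congr rfl
    intro i _
    exact d.L_diag i z
  have h3 : d.V (z, z) = (d.H (k + 1)).eval (z ^ 2) + ∑' i, d.L (i + (k + 1)) (z, z) := by
    rw [← h2, h1]; rfl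
  rw [h3, Complex.add_re, S, add_sub_cancel_left]
  refine (Complex.abs_re_le_norm _).trans ?_
  have hg : Summable (fun i : ℕ => (1 / 2 : ℝ) ^ (i + 1)) := by
    have := (summable_geometric_of_lt_one (r := (1/2:ℝ)) (by norm_num) (by norm_num)).mul_right
      (1 / 2)
    refine this.congr (fun i => ?_)
    rw [pow_succ]
  have hle : ∀ i, ‖d.L (i + (k + 1)) (z, z)‖ ≤ (1 / 2) ^ (i + 1) := by
    intro i
    rw [d.L_diag]
    refine (d.tail_term ht (by omega : k + 1 ≤ i + (k + 1)) hw).trans ?_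
    apply pow_le_pow_of_le_one (by norm_num) (by norm_num)
    omega
  refine (tsum_of_norm_bounded (g := fun i : ℕ => (1 / 2 : ℝ) ^ (i + 1)) (a := 1) ?_ hle)
  have h4 := (hasSum_geometric_of_lt_one (r := (1/2:ℝ)) (by norm_num) (by norm_num)).mul_right
    (1 / 2)
  have h5 : (1 - 1 / 2 : ℝ)⁻¹ * (1 / 2) = 1 := by norm_num
  rw [h5] at h4
  exact h4.congr_fun (fun i => by rw [pow_succ])

/-- `F` is large on the good part of the level circles. -/
theorem F_large (ht : 16 ≤ t) (k : ℕ) (hk : 1 ≤ k) {θ : ℝ}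
    (hθ : 1 / 4 ≤ (ee θ ^ (2 * nk t k)).re) :
    Real.exp (Tk t k - 2) ≤ ‖d.F ((rk t k : ℂ) * ee θ, (rk t k : ℂ) * ee θ)‖ := by
  set z : ℂ := (rk t k : ℂ) * ee θ with hz
  have hzn : ‖z‖ = rk t k := norm_real_mul_ee (rk_pos ht k).le θ
  have hw : ‖z ^ 2‖ = ak t k := by rw [norm_pow, hzn, rk_sq ht]
  have h1 := abs_le.mp (d.V_diag ht k hzn)
  have hpow : (z ^ 2) ^ nk t k = ((ak t k ^ nk t k : ℝ) : ℂ) * ee θ ^ (2 * nk t k) := by
    rw [← rk_sq ht k, ← pow_mul, ← pow_mul, hz, mul_pow]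
    push_cast
    ring
  have hpn : ‖(z ^ 2) ^ nk t k‖ = ak t k ^ nk t k := by rw [norm_pow, hw]
  have ha0 : 0 < ak t k := by linarith [ak_ge ht k]
  have h2 := d.Φ_near k hk ((z ^ 2) ^ nk t k) (by rw [hpn]; exact ak_pow_ge ht k)
    (by rw [hpn]; exact pow_le_one₀ ha0.le (ak_lt_one ht k).le) (by
      rw [hpn, hpow, Complex.re_ofReal_mul]
      have : 0 < ak t k ^ nk t k := by positivity
      nlinarith)
  have h3 := d.level_main k hk (w := z ^ 2) (by rw [hw]; exact (ak_lt_one ht k).le)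
  have h4 := Tk_le t k
  have h5 := tkr ht k
  have h6 := Tk_nonneg t k
  have h7 : 2 * Tk t k * (1 - ((d.Φ k).eval ((z ^ 2) ^ nk t k)).re) ≤ 1 := by
    calc 2 * Tk t k * (1 - ((d.Φ k).eval ((z ^ 2) ^ nk t k)).re)
        ≤ 2 * Tk t k * (1 / (2 * tk t k)) := by gcongr
      _ ≤ 2 * tk t k * (1 / (2 * tk t k)) := by gcongr
      _ = 1 := by field_simp
  rw [F, Complex.norm_exp]
  apply Real.exp_le_exp.mpr
  linarith [h1.1]

/-- `F` is small at the base point. -/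
theorem F_small (ht : 16 ≤ t) :
    ‖d.F ((rk t 0 : ℂ), (rk t 0 : ℂ))‖ ≤ Real.exp (-(5 / 3) * Tk t 0 + 2) := by
  set z : ℂ := (rk t 0 : ℂ) with hz
  have hzn : ‖z‖ = rk t 0 := by
    rw [hz, Complex.norm_real, Real.norm_eq_abs, abs_of_pos (rk_pos ht 0)]
  have hw : ‖z ^ 2‖ = ak t 0 := by rw [norm_pow, hzn, rk_sq ht]
  have h1 := abs_le.mp (d.V_diag ht 0 hzn)
  have hpow : (z ^ 2) ^ nk t 0 = ((ak t 0 ^ nk t 0 : ℝ) : ℂ) := by
    rw [← rk_sq ht 0, hz]
    push_cast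
    ring
  set x : ℝ := ak t 0 ^ nk t 0 with hx
  have ha0 : 0 < ak t 0 := by linarith [ak_ge ht 0]
  have hx1 : x ≤ 1 := pow_le_one₀ ha0.le (ak_lt_one ht 0).le
  have hx2 : 1 - 1 / (32 * (tk t 0 : ℝ)) ≤ x := ak_pow_ge ht 0
  have h2 := d.level_zero (w := z ^ 2) (by rw [hw]; exact (ak_lt_one ht 0).le)
  rw [hpow, d.Φ_zero_eval] at h2
  have h3 : (-(4 * (x:ℂ) + (x:ℂ) ^ 2) / 3).re = -(4 * x + x ^ 2) / 3 := by
    rw [show (-(4 * (x:ℂ) + (x:ℂ) ^ 2) / 3) = ((-(4 * x + x ^ 2) / 3 : ℝ) : ℂ) by push_cast; ring,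
      Complex.ofReal_re]
  rw [h3] at h2
  have h4 := Tk_le t 0
  have h5 := tkr ht 0
  have h6 := Tk_nonneg t 0
  have h7 : -(4 * x + x ^ 2) / 3 ≤ -(5 / 3) + 2 * (1 / (32 * (tk t 0 : ℝ))) := by
    nlinarith
  have h8 : Tk t 0 * (2 * (1 / (32 * (tk t 0 : ℝ)))) ≤ 1 := by
    calc Tk t 0 * (2 * (1 / (32 * (tk t 0 : ℝ)))) ≤ tk t 0 * (2 * (1 / (32 * (tk t 0 : ℝ)))) := by
          gcongr
      _ = 1 / 16 := by field_simp; norm_num
      _ ≤ 1 := by norm_num
  have h9 : d.S (0 + 1) (z ^ 2) = ((d.h 0).eval (z ^ 2)).re := by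
    rw [d.S_succ, d.S_zero, zero_add]
  rw [F, Complex.norm_exp]
  apply Real.exp_le_exp.mpr
  rw [h9] at h1
  have h10 : Tk t 0 * (-(4 * x + x ^ 2) / 3) ≤
      Tk t 0 * (-(5 / 3) + 2 * (1 / (32 * (tk t 0 : ℝ)))) := by gcongr
  linarith [h1.2]

end Data

end Pool.Agent.Lib.MP_7d8448_an
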