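import Pool.Agent.Lib.MP_7d8448_an.Build

/-!
`F` belongs to `H²` and is cyclic in `H¹`.
-/

set_option autoImplicit false

open MeasureTheory Complex Set Metric

namespace Pool.Agent.Lib.MP_7d8448_an

variable {t : ℕ} (d : Data t)

/-- passing to the limit in integrals over tori -/
lemma integral_limit {f : ℕ → ℂ × ℂ → ℂ} {g : ℂ × ℂ → ℂ} {R B C : ℝ} (hR : 0 ≤ R) (n : ℕ)
    (hf : ∀ K, Continuous (f K))
    (hB : ∀ K z, ‖z‖ ≤ R → ‖f K z‖ ≤ B)
    (hlim : ∀ z, ‖z‖ ≤ R → Filter.Tendsto (fun K => f K z) Filter.atTop (nhds (g z)))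
    (hC : ∀ᶠ K in Filter.atTop, ∫ x, ‖f K (dil R x)‖ ^ n ∂mu2 ≤ C) :
    ∫ x, ‖g (dil R x)‖ ^ n ∂mu2 ≤ C := by
  have h1 : Filter.Tendsto (fun K => ∫ x, ‖f K (dil R x)‖ ^ n ∂mu2) Filter.atTop
      (nhds (∫ x, ‖g (dil R x)‖ ^ n ∂mu2)) := by
    apply tendsto_integral_of_dominated_convergence (fun _ => B ^ n)
    · intro K
      exact ((hf K).comp (continuous_dil R)).norm.pow n |>.aestronglyMeasurable
    · exact integrable_const _
    · intro K
      filter_upwards with x
      rw [norm_pow, norm_norm]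
      exact pow_le_pow_left₀ (norm_nonneg _) (hB K _ (norm_dil hR x).le) n
    · filter_upwards with x
      exact ((hlim _ (norm_dil hR x).le).norm).pow n
  exact le_of_tendsto h1 hC

namespace Data

lemma two_Tk_bound (k : ℕ) {ξ : ℂ} (hξ : ‖ξ‖ = 1) (a : ℕ) (h : a ≤ k) :
    1 * (d.S (k + 1) ξ - d.S a ξ) ≤ 2 * Tk t k := by
  have h1 := (d.S_bounds k hξ).2.2
  have h2 := (d.S_bounds a hξ).1
  have h3 := Tk_mono t h
  linarith

/-- `F ∈ H²` -/
theorem H2_bound (ht : 1 ≤ t) {R : ℝ} (hR : 0 < R) (hR1 : R < 1) :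
    ∫ x, ‖d.F (dil R x)‖ ^ 2 ∂mu2 ≤ 3 := by
  obtain ⟨B, hB⟩ := d.norm_U_le ht hR.le hR1
  apply integral_limit (f := fun K z => exp (d.U 0 K z)) (B := Real.exp B) hR.le 2
  · intro K
    exact Complex.continuous_exp.comp (d.differentiable_U 0 K).continuous
  · intro K z hz
    rw [Complex.norm_exp]
    apply Real.exp_le_exp.mpr
    exact (Complex.re_le_norm _).trans (hB 0 K z hz)
  · intro z hz
    have h1 := d.tendsto_U ht 0 (z := z) (by linarith)
    simp only [U_zero, Finset.range_zero, Finset.sum_empty, sub_zero] at h1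
    simp only [U_zero]
    exact (Complex.continuous_exp.tendsto _).comp h1
  · filter_upwards with K
    have h1 := mono2 (G := fun z => exp (d.U 0 K z)) (R := 2) one_lt_two
      ((d.differentiable_U 0 K).cexp.differentiableOn) (p := 2) two_pos hR.le hR1.le
    simp only [Real.rpow_two] at h1
    refine h1.trans ?_
    have h2 := d.torus_integral 0 K (c := 2) two_pos.le (by
      intro k _ _ ξ hξ
      rw [d.S_zero, sub_zero]
      have := (d.S_bounds k hξ).2.2
      linarith)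
    have h3 : ∀ x, ‖exp (d.U 0 K (dil 1 x))‖ ^ 2 = Real.exp (2 * (d.U 0 K (dil 1 x)).re) := by
      intro x
      rw [Complex.norm_exp, ← Real.exp_nat_mul]
      norm_num
    simp only [h3]
    refine h2.trans (le_of_eq ?_)
    norm_num

lemma L_zero (ht : 1 ≤ t) (k : ℕ) : d.L k 0 = 0 := by
  have h1 := eval_XP (ek t k) (d.h' k) 0 0
  have h2 : d.L k 0 = MvPolynomial.eval ![0, 0] (XP (ek t k) (d.h' k)) := rfl
  rw [h2, h1, E_diag]
  have h3 : 2 ^ ek t k - 1 ≠ 0 := by
    have h2 : 2 ≤ 2 ^ ek t k := by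
      calc 2 = 2 ^ 1 := rfl
        _ ≤ 2 ^ ek t k := by
          apply Nat.pow_le_pow_right (by norm_num)
          unfold ek
          have := le_tk t k
          omega
    omega
  rw [zero_pow h3]
  simp

/-- key estimate for the `H¹`-cyclicity, finite version -/
lemma H1_finite (ht : 1 ≤ t) (a K : ℕ) {R : ℝ} (hR : 0 < R) (hR1 : R < 1) {η : ℝ} (hη : 0 < η) :
    ∫ x, ‖exp (d.U a K (dil R x)) - 1‖ ∂mu2 ≤ (1 / 2) ^ a / η + 4 * η := by
  set A : ℂ × ℂ → ℂ := fun z => exp (d.U a K z / 2) with hA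
  have hAd : Differentiable ℂ A := by
    have h0 : Differentiable ℂ (fun z => d.U a K z * (2:ℂ)⁻¹) :=
      (d.differentiable_U a K).mul_const _
    have h1 : A = fun z => exp (d.U a K z * (2:ℂ)⁻¹) := by
      ext z; simp only [hA, div_eq_mul_inv]
    rw [h1]
    exact h0.cexp
  have hAc : Continuous (fun x => A (dil R x)) := hAd.continuous.comp (continuous_dil R)
  have hA0 : A 0 = 1 := by
    simp only [hA, U, d.L_zero ht]
    simp
  -- mean value
  have hmean : ∫ x, A (dil R x) ∂mu2 = 1 := by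
    have h1 := poisson2 (G := fun z : ℂ × ℂ => A ((R:ℂ) * z.1, (R:ℂ) * z.2)) (R := 2) one_lt_two
      (by
        apply Differentiable.differentiableOn
        exact hAd.comp (by fun_prop)) (z := 0) (by simp)
    simp only [dil_scale, mul_one] at h1
    have h2 : ∀ x, K2 (0 : ℂ × ℂ) x = 1 := by
      intro x; simp [K2, PK, norm_ee]
    simp only [h2, Complex.ofReal_one, one_mul] at h1
    rw [h1, ← hA0]
    congr 1
    ext <;> simp
  -- square mean
  have hsq : ∫ x, ‖A (dil R x)‖ ^ 2 ∂mu2 ≤ 1 + 2 * (1 / 2) ^ a := by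
    have h1 := mono2 (G := A) (R := 2) one_lt_two hAd.differentiableOn (p := 2) two_pos
      hR.le hR1.le
    simp only [Real.rpow_two] at h1
    refine h1.trans ?_
    have h2 := d.torus_integral a K (c := 1) one_pos.le
      (fun k h1 _ ξ hξ => d.two_Tk_bound k hξ a h1)
    have h3 : ∀ x, ‖A (dil 1 x)‖ ^ 2 = Real.exp (1 * (d.U a K (dil 1 x)).re) := by
      intro x
      simp only [hA]
      rw [Complex.norm_exp, ← Real.exp_nat_mul]
      congr 1
      rw [show d.U a K (dil 1 x) / 2 = ((1 / 2 : ℝ) : ℂ) * d.U a K (dil 1 x) by push_cast; ring,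
        Complex.re_ofReal_mul]
      push_cast
      ring
    simp only [h3]
    exact h2
  have i2 : Integrable (fun x => ‖A (dil R x)‖ ^ 2) mu2 := integrable_mu2 (hAc.norm.pow 2)
  have ir : Integrable (fun x => (A (dil R x)).re) mu2 :=
    integrable_mu2 (Complex.continuous_re.comp hAc)
  have hre : ∫ x, (A (dil R x)).re ∂mu2 = 1 := by
    have := Complex.reCLM.integral_comp_comm (integrable_mu2 hAc)
    simp only [Complex.reCLM_apply] at this
    rw [this, hmean]
    simp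
  -- pointwise inequality
  have hpt : ∀ x, ‖exp (d.U a K (dil R x)) - 1‖ ≤
      (1 / (2 * η)) * (‖A (dil R x)‖ ^ 2 - 2 * (A (dil R x)).re + 1) +
        (η / 2) * (2 * ‖A (dil R x)‖ ^ 2 + 2) := by
    intro x
    set α := A (dil R x) with hα
    have e1 : exp (d.U a K (dil R x)) - 1 = (α - 1) * (α + 1) := by
      have : exp (d.U a K (dil R x)) = α * α := by
        rw [hα, hA, ← Complex.exp_add]
        congr 1
        ring
      rw [this]; ring
    rw [e1, norm_mul]
    have e2 : ‖α - 1‖ ^ 2 = ‖α‖ ^ 2 - 2 * α.re + 1 := by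
      rw [← Complex.normSq_eq_norm_sq, Complex.normSq_sub, Complex.normSq_eq_norm_sq]
      simp
      ring
    have e3 : ‖α + 1‖ ^ 2 ≤ 2 * ‖α‖ ^ 2 + 2 := by
      have h1 : ‖α + 1‖ ≤ ‖α‖ + 1 := by
        have := norm_add_le α 1
        rwa [norm_one] at this
      nlinarith [norm_nonneg (α + 1), norm_nonneg α, sq_nonneg (‖α‖ - 1)]
    rw [← e2]
    have e4 : ‖α - 1‖ * ‖α + 1‖ ≤ (1 / (2 * η)) * ‖α - 1‖ ^ 2 + (η / 2) * ‖α + 1‖ ^ 2 := by
      have h6 : 0 ≤ (1 / (2 * η)) * (‖α - 1‖ - η * ‖α + 1‖) ^ 2 := by positivity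
      have h7 : (1 / (2 * η)) * (‖α - 1‖ - η * ‖α + 1‖) ^ 2 =
        (1 / (2 * η)) * ‖α - 1‖ ^ 2 - ‖α - 1‖ * ‖α + 1‖ + (η / 2) * ‖α + 1‖ ^ 2 := by
        field_simp
        ring
      linarith
    have e5 : (η / 2) * ‖α + 1‖ ^ 2 ≤ (η / 2) * (2 * ‖α‖ ^ 2 + 2) :=
      mul_le_mul_of_nonneg_left e3 (by positivity)
    linarith
  have hc1 : Continuous (fun x => ‖exp (d.U a K (dil R x)) - 1‖) := by
    have := (d.differentiable_U a K).continuous
    fun_prop
  have j1 : Integrable (fun x => (1 / (2 * η) + η) * ‖A (dil R x)‖ ^ 2) mu2 := i2.const_mul _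
  have j2 : Integrable (fun x => (1 / η) * (A (dil R x)).re) mu2 := ir.const_mul _
  have j12 : Integrable (fun x => (1 / (2 * η) + η) * ‖A (dil R x)‖ ^ 2 -
    (1 / η) * (A (dil R x)).re) mu2 := j1.sub j2
  calc ∫ x, ‖exp (d.U a K (dil R x)) - 1‖ ∂mu2
      ≤ ∫ x, (((1 / (2 * η) + η) * ‖A (dil R x)‖ ^ 2 - (1 / η) * (A (dil R x)).re) +
          (1 / (2 * η) + η)) ∂mu2 := by
        apply integral_mono (integrable_mu2 hc1) (j12.add (integrable_const _))
        intro x
        show ‖exp (d.U a K (dil R x)) - 1‖ ≤ ((1 / (2 * η) + η) * ‖A (dil R x)‖ ^ 2 -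
          (1 / η) * (A (dil R x)).re) + (1 / (2 * η) + η)
        refine (hpt x).trans (le_of_eq ?_)
        field_simp
        ring
    _ = (1 / (2 * η) + η) * (∫ x, ‖A (dil R x)‖ ^ 2 ∂mu2) - 1 / η + (1 / (2 * η) + η) := by
        rw [integral_add j12 (integrable_const _), integral_sub j1 j2, integral_const_mul,
          integral_const_mul, hre]
        simp
    _ ≤ (1 / (2 * η) + η) * (1 + 2 * (1 / 2) ^ a) - 1 / η + (1 / (2 * η) + η) := by
        gcongr
    _ = (1 / 2) ^ a / η + 2 * η + 2 * η * (1 / 2) ^ a := by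
        field_simp
        ring
    _ ≤ (1 / 2) ^ a / η + 4 * η := by
        have : (1 / 2 : ℝ) ^ a ≤ 1 := pow_le_one₀ (by norm_num) (by norm_num)
        nlinarith

/-- key estimate for the `H¹`-cyclicity -/
lemma H1_limit (ht : 1 ≤ t) (a : ℕ) {R : ℝ} (hR : 0 < R) (hR1 : R < 1) {η : ℝ} (hη : 0 < η) :
    ∫ x, ‖d.F (dil R x) * exp (-d.U 0 a (dil R x)) - 1‖ ∂mu2 ≤ (1 / 2) ^ a / η + 4 * η := by
  obtain ⟨B, hB⟩ := d.norm_U_le ht hR.le hR1
  have h := integral_limit (f := fun K z => exp (d.U a K z) - 1)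
    (g := fun z => d.F z * exp (-d.U 0 a z) - 1) (B := Real.exp B + 1)
    (C := (1 / 2) ^ a / η + 4 * η) hR.le 1 ?_ ?_ ?_ ?_
  · simpa using h
  · intro K
    exact (Complex.continuous_exp.comp (d.differentiable_U a K).continuous).sub continuous_const
  · intro K z hz
    refine (norm_sub_le _ _).trans ?_
    rw [Complex.norm_exp, norm_one]
    gcongr
    exact (Complex.re_le_norm _).trans (hB a K z hz)
  · intro z hz
    have h1 := d.tendsto_U ht a (z := z) (by linarith)
    have h2 : d.F z * exp (-d.U 0 a z) = exp (d.V z - d.U 0 a z) := by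
      rw [F, ← Complex.exp_add, sub_eq_add_neg]
    rw [h2]
    exact ((Complex.continuous_exp.tendsto _).comp h1).sub_const 1
  · filter_upwards with K
    simp only [pow_one]
    exact d.H1_finite ht a K hR hR1 hη

lemma continuous_F_dil (ht : 1 ≤ t) {R : ℝ} (hR : 0 < R) (hR1 : R < 1) :
    Continuous (fun x => d.F (dil R x)) :=
  continuous_on_circles (d.differentiableOn_F ht) (continuous_dil R)
    (fun x => by rw [norm_dil hR.le]; exact hR1)

lemma H1_bound (ht : 1 ≤ t) {R : ℝ} (hR : 0 < R) (hR1 : R < 1) :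
    ∫ x, ‖d.F (dil R x)‖ ∂mu2 ≤ 2 := by
  have hc := d.continuous_F_dil ht hR hR1
  have i2 : Integrable (fun x => 1 / 2 * ‖d.F (dil R x)‖ ^ 2) mu2 :=
    (integrable_mu2 (hc.norm.pow 2)).const_mul _
  calc ∫ x, ‖d.F (dil R x)‖ ∂mu2 ≤ ∫ x, (1 / 2 * ‖d.F (dil R x)‖ ^ 2 + 1 / 2) ∂mu2 := by
        apply integral_mono (integrable_mu2 hc.norm) (i2.add (integrable_const _))
        intro x
        show ‖d.F (dil R x)‖ ≤ 1 / 2 * ‖d.F (dil R x)‖ ^ 2 + 1 / 2
        nlinarith [sq_nonneg (‖d.F (dil R x)‖ - 1)]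
    _ = 1 / 2 * (∫ x, ‖d.F (dil R x)‖ ^ 2 ∂mu2) + 1 / 2 := by
        rw [integral_add i2 (integrable_const _), integral_const_mul]
        simp
    _ ≤ 2 := by
        have := d.H2_bound ht hR hR1
        linarith

lemma continuous_mveval_dil (P : MvPolynomial (Fin 2) ℂ) (R : ℝ) :
    Continuous (fun x => MvPolynomial.eval ![(dil R x).1, (dil R x).2] P) :=
  (differentiable_mveval P).continuous.comp (continuous_dil R)

/-- `1` is in the `H¹`-closure of the polynomial multiples of `F`. -/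
theorem H1_cyclic_one (ht : 1 ≤ t) {ε : ℝ} (hε : 0 < ε) :
    ∃ Q : MvPolynomial (Fin 2) ℂ, ∀ R : ℝ, 0 < R → R < 1 →
      ∫ x, ‖MvPolynomial.eval ![(dil R x).1, (dil R x).2] Q * d.F (dil R x) - 1‖ ∂mu2 ≤ ε := by
  set η : ℝ := ε / 16 with hη
  have hη0 : 0 < η := by positivity
  obtain ⟨a, ha⟩ : ∃ a : ℕ, (1 / 2 : ℝ) ^ a < η * (ε / 4) :=
    exists_pow_lt_of_lt_one (by positivity) (by norm_num)
  obtain ⟨Q, hQ⟩ := exists_mvpoly (g := fun z : ℂ × ℂ => exp (-d.U 0 a ((2:ℂ) * z.1, (2:ℂ) * z.2)))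
    (by
      apply Differentiable.differentiableOn
      apply Differentiable.cexp
      apply Differentiable.neg
      exact (d.differentiable_U 0 a).comp (by fun_prop)) (ρ := 1 / 2) (by norm_num) (by norm_num)
    (ε := ε / 8) (by positivity)
  refine ⟨Q, fun R hR hR1 => ?_⟩
  have hc := d.continuous_F_dil ht hR hR1
  have hcQ := continuous_mveval_dil Q R
  have hcE : Continuous (fun x => exp (-d.U 0 a (dil R x))) :=
    Complex.continuous_exp.comp ((d.differentiable_U 0 a).continuous.comp (continuous_dil R)).neg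
  have h1 : ∀ x, ‖MvPolynomial.eval ![(dil R x).1, (dil R x).2] Q - exp (-d.U 0 a (dil R x))‖ ≤
      ε / 8 := by
    intro x
    have h2 := hQ (dil R x) (by rw [norm_dil hR.le]; exact hR1.le)
    have h3 : (((2:ℂ) * ((((1 / 2 : ℝ)) : ℂ) * (dil R x).1),
        (2:ℂ) * ((((1 / 2 : ℝ)) : ℂ) * (dil R x).2)) : ℂ × ℂ) = dil R x := by
      ext <;> · push_cast; ring
    rw [h3] at h2
    exact h2
  have i1 : Integrable (fun x => ε / 8 * ‖d.F (dil R x)‖) mu2 :=
    (integrable_mu2 hc.norm).const_mul _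
  have i2 : Integrable (fun x => ‖d.F (dil R x) * exp (-d.U 0 a (dil R x)) - 1‖) mu2 :=
    integrable_mu2 ((hc.mul hcE).sub continuous_const).norm
  calc ∫ x, ‖MvPolynomial.eval ![(dil R x).1, (dil R x).2] Q * d.F (dil R x) - 1‖ ∂mu2
      ≤ ∫ x, (ε / 8 * ‖d.F (dil R x)‖ +
        ‖d.F (dil R x) * exp (-d.U 0 a (dil R x)) - 1‖) ∂mu2 := by
        apply integral_mono (integrable_mu2 ((hcQ.mul hc).sub continuous_const).norm) (i1.add i2)
        intro x
        show ‖MvPolynomial.eval ![(dil R x).1, (dil R x).2] Q * d.F (dil R x) - 1‖ ≤ _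
        have e1 : MvPolynomial.eval ![(dil R x).1, (dil R x).2] Q * d.F (dil R x) - 1 =
          (MvPolynomial.eval ![(dil R x).1, (dil R x).2] Q - exp (-d.U 0 a (dil R x))) *
            d.F (dil R x) + (d.F (dil R x) * exp (-d.U 0 a (dil R x)) - 1) := by ring
        rw [e1]
        refine (norm_add_le _ _).trans ?_
        rw [norm_mul]
        exact add_le_add (mul_le_mul_of_nonneg_right (h1 x) (norm_nonneg _)) le_rfl
    _ = ε / 8 * (∫ x, ‖d.F (dil R x)‖ ∂mu2) +
        ∫ x, ‖d.F (dil R x) * exp (-d.U 0 a (dil R x)) - 1‖ ∂mu2 := by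
        rw [integral_add i1 i2, integral_const_mul]
    _ ≤ ε / 8 * 2 + ((1 / 2) ^ a / η + 4 * η) := by
        gcongr
        · exact d.H1_bound ht hR hR1
        · exact d.H1_limit ht a hR hR1 hη0
    _ ≤ ε := by
        have h4 : (1 / 2 : ℝ) ^ a / η ≤ ε / 4 := by
          rw [div_le_iff₀ hη0]; linarith
        rw [hη] at h4 ⊢
        linarith

/-- `F` is cyclic in `H¹`. -/
theorem H1_cyclic (ht : 1 ≤ t) {g : ℂ × ℂ → ℂ} (hg : DifferentiableOn ℂ g (ball 0 1)) {C : ℝ}
    (hC : ∀ R : ℝ, 0 < R → R < 1 → ∫ x, ‖g (dil R x)‖ ∂mu2 ≤ C) {ε : ℝ} (hε : 0 < ε) :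
    ∃ P : MvPolynomial (Fin 2) ℂ, ∀ R : ℝ, 0 < R → R < 1 →
      ∫ x, ‖MvPolynomial.eval ![(dil R x).1, (dil R x).2] P * d.F (dil R x) - g (dil R x)‖ ∂mu2
        ≤ ε := by
  obtain ⟨G, hG⟩ := poly_dense hg hC (half_pos hε)
  obtain ⟨M, hM⟩ := (isCompact_closedBall (0:ℂ × ℂ) 1).exists_bound_of_continuousOn
    ((differentiable_mveval G).continuous.continuousOn)
  have hM0 : 0 ≤ M := (norm_nonneg _).trans (hM 0 (by simp))
  obtain ⟨Q, hQ⟩ := d.H1_cyclic_one ht (ε := ε / (2 * (M + 1))) (by positivity)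
  refine ⟨G * Q, fun R hR hR1 => ?_⟩
  have hc := d.continuous_F_dil ht hR hR1
  have hcQ := continuous_mveval_dil Q R
  have hcG := continuous_mveval_dil G R
  have hcg : Continuous (fun x : ℝ × ℝ => g (dil R x)) :=
    continuous_on_circles hg (continuous_dil R) (fun x => by rw [norm_dil hR.le]; exact hR1)
  have i1 : Integrable (fun x => M * ‖MvPolynomial.eval ![(dil R x).1, (dil R x).2] Q *
      d.F (dil R x) - 1‖) mu2 :=
    (integrable_mu2 ((hcQ.mul hc).sub continuous_const).norm).const_mul _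
  have i2 : Integrable (fun x => ‖MvPolynomial.eval ![(dil R x).1, (dil R x).2] G -
      g (dil R x)‖) mu2 := integrable_mu2 (hcG.sub hcg).norm
  have hcGQ := continuous_mveval_dil (G * Q) R
  calc ∫ x, ‖MvPolynomial.eval ![(dil R x).1, (dil R x).2] (G * Q) * d.F (dil R x) -
        g (dil R x)‖ ∂mu2
      ≤ ∫ x, (M * ‖MvPolynomial.eval ![(dil R x).1, (dil R x).2] Q * d.F (dil R x) - 1‖ +
        ‖MvPolynomial.eval ![(dil R x).1, (dil R x).2] G - g (dil R x)‖) ∂mu2 := by
        apply integral_mono (integrable_mu2 ((hcGQ.mul hc).sub hcg).norm) (i1.add i2)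
        intro x
        show ‖MvPolynomial.eval ![(dil R x).1, (dil R x).2] (G * Q) * d.F (dil R x) -
          g (dil R x)‖ ≤ _
        rw [map_mul]
        have e1 : MvPolynomial.eval ![(dil R x).1, (dil R x).2] G *
            MvPolynomial.eval ![(dil R x).1, (dil R x).2] Q * d.F (dil R x) - g (dil R x) =
          MvPolynomial.eval ![(dil R x).1, (dil R x).2] G *
            (MvPolynomial.eval ![(dil R x).1, (dil R x).2] Q * d.F (dil R x) - 1) +
          (MvPolynomial.eval ![(dil R x).1, (dil R x).2] G - g (dil R x)) := by ring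
        rw [e1]
        refine (norm_add_le _ _).trans ?_
        rw [norm_mul]
        exact add_le_add (mul_le_mul_of_nonneg_right (hM (dil R x)
          (by rw [mem_closedBall_zero_iff, norm_dil hR.le]; exact hR1.le)) (norm_nonneg _)) le_rfl
    _ = M * (∫ x, ‖MvPolynomial.eval ![(dil R x).1, (dil R x).2] Q * d.F (dil R x) - 1‖ ∂mu2) +
        ∫ x, ‖MvPolynomial.eval ![(dil R x).1, (dil R x).2] G - g (dil R x)‖ ∂mu2 := by
        rw [integral_add i1 i2, integral_const_mul]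
    _ ≤ M * (ε / (2 * (M + 1))) + ε / 2 := by
        gcongr
        · exact hQ R hR hR1
        · exact hG R hR hR1
    _ ≤ ε := by
        have : M * (ε / (2 * (M + 1))) ≤ ε / 2 := by
          rw [← mul_div_assoc, div_le_div_iff₀ (by positivity) (by norm_num)]
          nlinarith
        linarith

end Data

end Pool.Agent.Lib.MP_7d8448_an
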