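import Mathlib

/-!
The one-variable recursion.
-/

set_option autoImplicit false

open Complex Polynomial

namespace Pool.Agent.Lib.MP_7d8448_an

lemma circle_pow_conj {ξ : ℂ} (hξ : ‖ξ‖ = 1) {a n : ℕ} (h : a ≤ n) :
    ξ ^ n * (starRingEnd ℂ) ξ ^ a = ξ ^ (n - a) := by
  have h1 : ξ * (starRingEnd ℂ) ξ = 1 := by
    rw [Complex.mul_conj, Complex.normSq_eq_norm_sq, hξ]; simp
  obtain ⟨b, rfl⟩ := Nat.exists_eq_add_of_le h
  rw [Nat.add_sub_cancel_left, pow_add, mul_comm (ξ ^ a), mul_assoc, ← mul_pow, h1, one_pow,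
    mul_one]

theorem exists_step (H Φ : Polynomial ℂ) (T : ℝ) (n N : ℕ) (hN : N + H.natDegree ≤ n)
    (hΦ : Φ.eval 0 = 0) :
    ∃ h' : Polynomial ℂ, (X ^ N * h').natDegree ≤ H.natDegree + n * Φ.natDegree ∧
      ∀ ξ : ℂ, ‖ξ‖ = 1 →
        (X ^ N * h').eval ξ = ((T - (H.eval ξ).re : ℝ) : ℂ) * Φ.eval (ξ ^ n) := by
  have hX : (X : Polynomial ℂ) ∣ Φ := by
    rw [Polynomial.X_dvd_iff, ← hΦ, Polynomial.coeff_zero_eq_eval_zero]
  obtain ⟨Ψ, rfl⟩ := hX
  set Hs : Polynomial ℂ := ∑ a ∈ Finset.range (H.natDegree + 1),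
    C ((starRingEnd ℂ) (H.coeff a)) * X ^ (n - N - a) with hHs
  have hHsd : Hs.natDegree ≤ n - N := by
    rw [hHs]
    apply Polynomial.natDegree_sum_le_of_forall_le
    intro a _
    refine (Polynomial.natDegree_C_mul_X_pow_le _ _).trans ?_
    omega
  refine ⟨((C (T : ℂ) - C (1 / 2) * H) * X ^ (n - N) - C (1 / 2) * Hs) * Ψ.comp (X ^ n), ?_, ?_⟩
  · by_cases h0 : Ψ = 0
    · simp [h0]
    · have h1 : (X * Ψ).natDegree = Ψ.natDegree + 1 := by
        rw [mul_comm]
        exact Polynomial.natDegree_mul_X h0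
      rw [h1]
      refine (Polynomial.natDegree_mul_le).trans ?_
      have h2 : (((C (T : ℂ) - C (1 / 2) * H) * X ^ (n - N) - C (1 / 2) * Hs) *
          Ψ.comp (X ^ n)).natDegree ≤ (H.natDegree + (n - N)) + Ψ.natDegree * n := by
        refine (Polynomial.natDegree_mul_le).trans ?_
        apply add_le_add
        · refine (Polynomial.natDegree_sub_le _ _).trans ?_
          apply max_le
          · refine (Polynomial.natDegree_mul_le).trans ?_
            apply add_le_add
            · refine (Polynomial.natDegree_sub_le _ _).trans ?_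
              apply max_le
              · simp
              · exact Polynomial.natDegree_C_mul_le _ _
            · simp
          · refine (Polynomial.natDegree_C_mul_le _ _).trans ?_
            omega
        · refine (Polynomial.natDegree_comp_le).trans ?_
          apply Nat.mul_le_mul le_rfl
          simp
      have h3 : (X ^ N : Polynomial ℂ).natDegree = N := by simp
      have h4 : n * (Ψ.natDegree + 1) = Ψ.natDegree * n + n := by ring
      rw [h3, h4]
      omega
  · intro ξ hξ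
    have h1 : ξ ^ N * Hs.eval ξ = ξ ^ n * (starRingEnd ℂ) (H.eval ξ) := by
      rw [Polynomial.eval_eq_sum_range (p := H), hHs, Polynomial.eval_finsetSum, map_sum,
        Finset.mul_sum, Finset.mul_sum]
      apply Finset.sum_congr rfl
      intro a ha
      have ha' : a ≤ H.natDegree := by
        have := Finset.mem_range.mp ha; omega
      simp only [eval_mul, eval_C, eval_pow, eval_X, map_mul, map_pow]
      rw [mul_left_comm, mul_left_comm (ξ ^ n), circle_pow_conj hξ (by omega : a ≤ n), ← pow_add]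
      congr 2
      omega
    have h2 : ξ ^ N * ξ ^ (n - N) = ξ ^ n := by
      rw [← pow_add]; congr 1; omega
    have h3 : ((T - (H.eval ξ).re : ℝ) : ℂ) =
        (T : ℂ) - 1 / 2 * H.eval ξ - 1 / 2 * (starRingEnd ℂ) (H.eval ξ) := by
      rw [Complex.ofReal_sub, Complex.re_eq_add_conj]
      ring
    simp only [eval_mul, eval_C, eval_pow, eval_X, eval_sub, eval_comp]
    rw [h3]
    calc ξ ^ N * ((((T : ℂ) - 1 / 2 * H.eval ξ) * ξ ^ (n - N) - 1 / 2 * Hs.eval ξ) *
          Ψ.eval (ξ ^ n))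
        = ((ξ ^ N * ξ ^ (n - N)) * ((T : ℂ) - 1 / 2 * H.eval ξ) -
          1 / 2 * (ξ ^ N * Hs.eval ξ)) * Ψ.eval (ξ ^ n) := by ring
      _ = _ := by rw [h1, h2]; ring

theorem exists_sequence (T : ℕ → ℝ) (n N D : ℕ → ℕ) (Φ : ℕ → Polynomial ℂ)
    (hΦ : ∀ k, (Φ k).eval 0 = 0) (hn : ∀ k, N k + D k ≤ n k)
    (hD : ∀ k, D k + n k * (Φ k).natDegree ≤ D (k + 1)) :
    ∃ h' : ℕ → Polynomial ℂ, ∀ k, ∀ ξ : ℂ, ‖ξ‖ = 1 →
      (X ^ N k * h' k).eval ξ =
        ((T k - ((∑ j ∈ Finset.range k, X ^ N j * h' j).eval ξ).re : ℝ) : ℂ) *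
          (Φ k).eval (ξ ^ n k) := by
  have h1 : ∀ (k : ℕ) (H : Polynomial ℂ), ∃ h' : Polynomial ℂ, H.natDegree ≤ D k →
      ((X ^ N k * h').natDegree ≤ H.natDegree + n k * (Φ k).natDegree ∧
      ∀ ξ : ℂ, ‖ξ‖ = 1 →
        (X ^ N k * h').eval ξ = ((T k - (H.eval ξ).re : ℝ) : ℂ) * (Φ k).eval (ξ ^ n k)) := by
    intro k H
    by_cases hH : H.natDegree ≤ D k
    · obtain ⟨h', a, b⟩ := exists_step H (Φ k) (T k) (n k) (N k)
        (by have := hn k; omega) (hΦ k)
      exact ⟨h', fun _ => ⟨a, b⟩⟩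
    · exact ⟨0, fun h => absurd h hH⟩
  choose F hF using h1
  set Hs : ℕ → Polynomial ℂ := fun k => Nat.rec 0 (fun k H => H + X ^ N k * F k H) k with hHs
  have hs : ∀ k, Hs (k + 1) = Hs k + X ^ N k * F k (Hs k) := fun k => rfl
  have h0 : Hs 0 = 0 := rfl
  have hdeg : ∀ k, (Hs k).natDegree ≤ D k := by
    intro k
    induction k with
    | zero => rw [h0]; simp
    | succ k ih =>
      rw [hs]
      refine (Polynomial.natDegree_add_le _ _).trans ?_
      have := (hF k (Hs k) ih).1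
      have := hD k
      apply max_le
      · exact ih.trans (by omega)
      · omega
  have hsum : ∀ k, ∑ j ∈ Finset.range k, X ^ N j * F j (Hs j) = Hs k := by
    intro k
    induction k with
    | zero => simp [h0]
    | succ k ih => rw [Finset.sum_range_succ, ih, hs]
  refine ⟨fun k => F k (Hs k), ?_⟩
  intro k ξ hξ
  rw [hsum]
  exact (hF k (Hs k) (hdeg k)).2 ξ hξ

end Pool.Agent.Lib.MP_7d8448_an
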