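import Pool.Agent.Lib.MP_7d8448_an.Profile
import Pool.Agent.Lib.MP_7d8448_an.Poly

/-!
Parameters and the one-variable data.
-/

set_option autoImplicit false

open Complex Polynomial

namespace Pool.Agent.Lib.MP_7d8448_an

/-- `t_k = t 4^k` -/
def tk (t k : ℕ) : ℕ := t * 4 ^ k
/-- exponents of the cut-offs -/
def ek (t k : ℕ) : ℕ := 2 * tk t k + k
/-- frequencies -/
def nk (t k : ℕ) : ℕ := 2 ^ (ek t k + 1)
/-- order of vanishing -/
def Nk (t k : ℕ) : ℕ := 2 ^ (ek t k) - 1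
/-- degree bounds -/
def Dk (t k : ℕ) : ℕ := 2 ^ (ek t k)
/-- heights -/
noncomputable def Tk (t k : ℕ) : ℝ := (tk t k : ℝ) * Real.log 2

lemma tk_succ (t k : ℕ) : tk t (k + 1) = 4 * tk t k := by
  unfold tk; ring

lemma tk_zero (t : ℕ) : tk t 0 = t := by simp [tk]

lemma le_tk (t k : ℕ) : t ≤ tk t k := by
  unfold tk
  exact Nat.le_mul_of_pos_right t (by positivity)

lemma ek_succ (t k : ℕ) : ek t (k + 1) = ek t k + 6 * tk t k + 1 := by
  unfold ek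
  rw [tk_succ]
  ring

lemma Tk_nonneg (t k : ℕ) : 0 ≤ Tk t k := by
  unfold Tk
  have := Real.log_pos (show (1:ℝ) < 2 by norm_num)
  positivity

lemma Tk_succ (t k : ℕ) : Tk t (k + 1) = 4 * Tk t k := by
  unfold Tk
  rw [tk_succ]
  push_cast
  ring

lemma Tk_mono (t : ℕ) {j k : ℕ} (h : j ≤ k) : Tk t j ≤ Tk t k := by
  induction k, h using Nat.le_induction with
  | base => exact le_rfl
  | succ n _ ih =>
    rw [Tk_succ]
    have := Tk_nonneg t n
    linarith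

lemma Tk_le (t k : ℕ) : Tk t k ≤ tk t k := by
  unfold Tk
  have h1 : Real.log 2 ≤ 1 := by
    have := Real.log_two_lt_d9
    linarith
  have h2 : (0:ℝ) ≤ tk t k := by positivity
  nlinarith

lemma exp_two_Tk (t k : ℕ) : Real.exp (2 * Tk t k) = 2 ^ (2 * tk t k) := by
  unfold Tk
  rw [show 2 * ((tk t k : ℝ) * Real.log 2) = ((2 * tk t k : ℕ) : ℝ) * Real.log 2 by
    push_cast; ring, Real.exp_nat_mul, Real.exp_log (by norm_num)]

lemma pow_bound (m : ℕ) (hm : 3 ≤ m) : 1 + 2 * (8000 * m ^ 2) ≤ 2 ^ (6 * m + 1) := by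
  induction m, hm using Nat.le_induction with
  | base => norm_num
  | succ n hn ih =>
    have h1 : 2 ^ (6 * (n + 1) + 1) = 64 * 2 ^ (6 * n + 1) := by
      rw [show 6 * (n + 1) + 1 = (6 * n + 1) + 6 by ring, pow_add]
      ring
    rw [h1]
    nlinarith

/-- All one-variable data of the construction. -/
structure Data (t : ℕ) where
  Φ : ℕ → Polynomial ℂ
  h' : ℕ → Polynomial ℂ
  Φ_zero_eval : ∀ w, (Φ 0).eval w = -(4 * w + w ^ 2) / 3
  Φ_abs : ∀ k, 1 ≤ k → ∀ w, ‖w‖ ≤ 1 → |((Φ k).eval w).re| ≤ 1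
  Φ_norm : ∀ k, 1 ≤ k → ∀ w, ‖w‖ ≤ 1 → ‖(Φ k).eval w‖ ≤ 32 * tk t k
  Φ_near : ∀ k, 1 ≤ k → ∀ w, 1 - 1 / (32 * (tk t k : ℝ)) ≤ ‖w‖ → ‖w‖ ≤ 1 → ‖w‖ / 4 ≤ w.re →
    1 - ((Φ k).eval w).re ≤ 1 / (2 * tk t k)
  eq : ∀ k ξ, ‖ξ‖ = 1 → (X ^ Nk t k * h' k).eval ξ =
    ((Tk t k - ((∑ j ∈ Finset.range k, X ^ Nk t j * h' j).eval ξ).re : ℝ) : ℂ) *
      (Φ k).eval (ξ ^ nk t k)

theorem exists_data (t : ℕ) (ht : 3 ≤ t) : Nonempty (Data t) := by
  have htk : ∀ k, 3 ≤ tk t k := fun k => ht.trans (le_tk t k)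
  have hp : ∀ k : ℕ, ∃ Φ : Polynomial ℂ, Φ.eval 0 = 0 ∧
      Φ.natDegree ≤ 2000 * (2 * tk t k) ^ 2 ∧
      (∀ w : ℂ, ‖w‖ ≤ 1 → |(Φ.eval w).re| ≤ 1) ∧
      (∀ w : ℂ, ‖w‖ ≤ 1 → ‖Φ.eval w‖ ≤ 32 * (tk t k : ℝ)) ∧
      (∀ w : ℂ, 1 - 1 / (32 * (tk t k : ℝ)) ≤ ‖w‖ → ‖w‖ ≤ 1 → ‖w‖ / 4 ≤ w.re →
        1 - (Φ.eval w).re ≤ 1 / (2 * tk t k)) := by
    intro k
    obtain ⟨Φ, a, b, c, d, e⟩ := exists_profile (2 * tk t k) (by have := htk k; omega)
    refine ⟨Φ, a, b, c, ?_, ?_⟩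
    · intro w hw
      refine (d w hw).trans (le_of_eq ?_)
      push_cast; ring
    · intro w h1 h2 h3
      have h4 := e w (by
        push_cast
        rw [show (16 * (2 * (tk t k : ℝ))) = 32 * (tk t k : ℝ) by ring]
        exact h1) h2 h3
      push_cast at h4
      exact h4
  choose Ψ hΨ using hp
  set Φ : ℕ → Polynomial ℂ := fun k => if k = 0 then C (-1 / 3) * (C 4 * X + X ^ 2) else Ψ k
    with hΦdef
  have hΦ0 : Φ 0 = C (-1 / 3) * (C 4 * X + X ^ 2) := by simp [hΦdef]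
  have hΦk : ∀ k, 1 ≤ k → Φ k = Ψ k := by
    intro k hk
    simp [hΦdef, Nat.one_le_iff_ne_zero.mp hk]
  have hΦ00 : ∀ k, (Φ k).eval 0 = 0 := by
    intro k
    rcases Nat.eq_zero_or_pos k with rfl | hk
    · rw [hΦ0]; simp
    · rw [hΦk k hk]; exact (hΨ k).1
  have hdeg : ∀ k, (Φ k).natDegree ≤ 8000 * (tk t k) ^ 2 := by
    intro k
    rcases Nat.eq_zero_or_pos k with rfl | hk
    · rw [hΦ0]
      refine (natDegree_C_mul_le _ _).trans ?_
      refine (natDegree_add_le _ _).trans ?_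
      apply max_le
      · refine (natDegree_C_mul_le _ _).trans ?_
        rw [natDegree_X]
        nlinarith [htk 0]
      · rw [natDegree_X_pow]
        nlinarith [htk 0]
    · rw [hΦk k hk]
      refine ((hΨ k).2.1).trans (le_of_eq ?_)
      ring
  obtain ⟨h', hh'⟩ := exists_sequence (Tk t) (nk t) (Nk t) (Dk t) Φ hΦ00 (by
    intro k
    unfold Nk Dk nk
    rw [pow_succ]
    omega) (by
    intro k
    unfold Dk nk
    have h1 := hdeg k
    have h2 := pow_bound (tk t k) (htk k)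
    rw [ek_succ]
    calc 2 ^ ek t k + 2 ^ (ek t k + 1) * (Φ k).natDegree
        ≤ 2 ^ ek t k + 2 ^ (ek t k + 1) * (8000 * (tk t k) ^ 2) := by gcongr
      _ = 2 ^ ek t k * (1 + 2 * (8000 * (tk t k) ^ 2)) := by ring
      _ ≤ 2 ^ ek t k * 2 ^ (6 * tk t k + 1) := by gcongr
      _ = 2 ^ (ek t k + 6 * tk t k + 1) := by
          rw [← pow_add]
          congr 1)
  refine ⟨⟨Φ, h', ?_, ?_, ?_, ?_, hh'⟩⟩
  · intro w
    rw [hΦ0]
    simp only [eval_mul, eval_C, eval_add, eval_X, eval_pow]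
    ring
  · intro k hk
    rw [hΦk k hk]
    exact (hΨ k).2.2.1
  · intro k hk
    rw [hΦk k hk]
    exact (hΨ k).2.2.2.1
  · intro k hk
    rw [hΦk k hk]
    exact (hΨ k).2.2.2.2

variable {t : ℕ} (d : Data t)

namespace Data

/-- the polynomials `h_k` -/
noncomputable def h (k : ℕ) : Polynomial ℂ := X ^ Nk t k * d.h' k

/-- the partial sums `H_k` -/
noncomputable def H (k : ℕ) : Polynomial ℂ := ∑ j ∈ Finset.range k, d.h j

/-- real parts of the partial sums -/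
noncomputable def S (k : ℕ) (ξ : ℂ) : ℝ := ((d.H k).eval ξ).re

lemma H_zero : d.H 0 = 0 := by simp [H]

lemma H_succ (k : ℕ) : d.H (k + 1) = d.H k + d.h k := by simp [H, Finset.sum_range_succ]

lemma S_zero (ξ : ℂ) : d.S 0 ξ = 0 := by simp [S, H_zero]

lemma S_succ (k : ℕ) (ξ : ℂ) : d.S (k + 1) ξ = d.S k ξ + ((d.h k).eval ξ).re := by
  simp [S, H_succ]

lemma h_eval (k : ℕ) {ξ : ℂ} (hξ : ‖ξ‖ = 1) :
    (d.h k).eval ξ = ((Tk t k - d.S k ξ : ℝ) : ℂ) * (d.Φ k).eval (ξ ^ nk t k) :=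
  d.eq k ξ hξ

lemma S_step (k : ℕ) {ξ : ℂ} (hξ : ‖ξ‖ = 1) :
    d.S (k + 1) ξ = d.S k ξ + (Tk t k - d.S k ξ) * ((d.Φ k).eval (ξ ^ nk t k)).re := by
  rw [d.S_succ, d.h_eval k hξ, Complex.re_ofReal_mul]

lemma Φ_zero_bounds {w : ℂ} (hw : ‖w‖ = 1) :
    ((d.Φ 0).eval w).re ≤ 1 ∧ -(5/3) ≤ ((d.Φ 0).eval w).re := by
  rw [d.Φ_zero_eval]
  have h1 : (-(4 * w + w ^ 2) / 3).re = -(4 * w.re + (w.re ^ 2 - w.im ^ 2)) / 3 := by
    rw [show -(4 * w + w ^ 2) / 3 = ((-(1 / 3) : ℝ) : ℂ) * (4 * w + w ^ 2) by push_cast; ring,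
      Complex.re_ofReal_mul]
    simp [sq]
    ring
  have h2 : w.re ^ 2 + w.im ^ 2 = 1 := by
    have := Complex.sq_norm_sub_sq_re w
    rw [hw] at this
    linarith
  rw [h1]
  have h3 : -1 ≤ w.re := by
    have := Complex.abs_re_le_norm w
    rw [hw] at this
    exact (abs_le.mp this).1
  have h4 : w.re ≤ 1 := by
    have := Complex.re_le_norm w
    rwa [hw] at this
  constructor <;> nlinarith

lemma S_bounds (k : ℕ) {ξ : ℂ} (hξ : ‖ξ‖ = 1) :
    -Tk t k ≤ d.S k ξ ∧ d.S k ξ ≤ Tk t k ∧ d.S (k + 1) ξ ≤ Tk t k := by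
  have hup : ∀ k, d.S k ξ ≤ Tk t k → d.S (k + 1) ξ ≤ Tk t k := by
    intro k hk
    rw [d.S_step k hξ]
    have h1 : ((d.Φ k).eval (ξ ^ nk t k)).re ≤ 1 := by
      rcases Nat.eq_zero_or_pos k with rfl | hk0
      · exact (d.Φ_zero_bounds (by simp [hξ])).1
      · exact (abs_le.mp (d.Φ_abs k hk0 _ (by simp [hξ]))).2
    nlinarith
  have key : -Tk t k ≤ d.S k ξ ∧ d.S k ξ ≤ Tk t k := by
    induction k with
    | zero =>
      rw [d.S_zero]
      have := Tk_nonneg t 0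
      constructor <;> linarith
    | succ k ih =>
      have h1 := hup k ih.2
      have h2 := Tk_nonneg t k
      rw [Tk_succ]
      refine ⟨?_, by linarith⟩
      rcases Nat.eq_zero_or_pos k with rfl | hk0
      · rw [d.S_step 0 hξ, d.S_zero]
        have := (d.Φ_zero_bounds (w := ξ ^ nk t 0) (by simp [hξ])).2
        nlinarith
      · rw [d.S_step k hξ]
        have := (abs_le.mp (d.Φ_abs k hk0 (ξ ^ nk t k) (by simp [hξ]))).1
        nlinarith [ih.1, ih.2]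
  exact ⟨key.1, key.2, hup k key.2⟩

/-- bound of `h'_k` on the closed disc -/
lemma norm_h'_le (k : ℕ) {w : ℂ} (hw : ‖w‖ ≤ 1) :
    ‖(d.h' k).eval w‖ ≤ 64 * (tk t k : ℝ) ^ 2 := by
  have hcirc : ∀ ξ : ℂ, ‖ξ‖ = 1 → ‖(d.h' k).eval ξ‖ ≤ 64 * (tk t k : ℝ) ^ 2 := by
    intro ξ hξ
    have h1 : ‖(d.h' k).eval ξ‖ = ‖(d.h k).eval ξ‖ := by
      simp [h, hξ]
    rw [h1, d.h_eval k hξ, norm_mul, Complex.norm_real, Real.norm_eq_abs]
    obtain ⟨b1, b2, _⟩ := d.S_bounds k hξ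
    have b3 := Tk_le t k
    have b4 : |Tk t k - d.S k ξ| ≤ 2 * tk t k := by
      rw [abs_le]
      constructor <;> linarith
    have b5 : ‖(d.Φ k).eval (ξ ^ nk t k)‖ ≤ 32 * tk t k := by
      rcases Nat.eq_zero_or_pos k with rfl | hk0
      · rcases Nat.eq_zero_or_pos (tk t 0) with h0 | h0
        · have : Tk t 0 = 0 := by simp [Tk, h0]
          -- t = 0 : the bound is needed only for positive t; use |T-S| = 0 instead
          exfalso
          have h5 := d.Φ_near 1 le_rfl 1 (by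
            have : tk t 1 = 0 := by rw [tk_succ, h0]
            simp [this]) (by simp) (by norm_num)
          have : tk t 1 = 0 := by rw [tk_succ, h0]
          have h6 := d.Φ_norm 1 le_rfl 1 (by simp)
          rw [this] at h5 h6
          simp at h5 h6
          rw [h6] at h5
          norm_num at h5
        · rw [d.Φ_zero_eval, norm_div, norm_neg]
          have h7 : (1:ℝ) ≤ tk t 0 := by exact_mod_cast h0
          have h8 : ‖4 * ξ ^ nk t 0 + (ξ ^ nk t 0) ^ 2‖ ≤ 5 := by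
            refine (norm_add_le _ _).trans ?_
            simp [hξ]
            norm_num
          rw [Complex.norm_ofNat, div_le_iff₀ (by norm_num)]
          linarith
      · exact d.Φ_norm k hk0 _ (by simp [hξ])
    calc |Tk t k - d.S k ξ| * ‖(d.Φ k).eval (ξ ^ nk t k)‖ ≤ (2 * tk t k) * (32 * tk t k) := by
          gcongr
      _ = 64 * (tk t k : ℝ) ^ 2 := by ring
  have h2 := Complex.norm_le_of_forall_mem_frontier_norm_le (U := Metric.ball (0:ℂ) 1)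
    Metric.isBounded_ball (f := fun z => (d.h' k).eval z) (C := 64 * (tk t k : ℝ) ^ 2)
    ((d.h' k).differentiable.diffContOnCl) (by
      intro z hz
      rw [frontier_ball (0:ℂ) one_ne_zero] at hz
      exact hcirc z (by simpa using hz)) (z := w) (by
      rw [closure_ball (0:ℂ) one_ne_zero]; simpa using hw)
  exact h2

lemma norm_h_le (k : ℕ) {w : ℂ} (hw : ‖w‖ ≤ 1) :
    ‖(d.h k).eval w‖ ≤ ‖w‖ ^ Nk t k * (64 * (tk t k : ℝ) ^ 2) := by
  rw [h, eval_mul, eval_pow, eval_X, norm_mul, norm_pow]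
  gcongr
  exact d.norm_h'_le k hw

end Data

end Pool.Agent.Lib.MP_7d8448_an
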