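import Mathlib

/-!
The profile polynomials: real part in `[-1,1]`, vanishing at `0`, and close to `1` on an arc.
-/

set_option autoImplicit false

open Complex

namespace Pool.Agent.Lib.MP_7d8448_an

lemma pi_div_two_sub_arg_le {Q : ℂ} (h1 : 0 < Q.re) (h2 : 0 < Q.im) :
    Real.pi / 2 - Q.arg ≤ Q.re / Q.im := by
  have h3 : |Q.arg| < Real.pi / 2 := Complex.abs_arg_lt_pi_div_two_iff.mpr (Or.inl h1)
  have h4 : 0 ≤ Q.arg := Complex.arg_nonneg_iff.mpr h2.le
  have h5 : Q.arg ≠ 0 := by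
    intro h
    rw [Complex.arg_eq_zero_iff] at h
    linarith [h.2]
  have h6 : 0 < Q.arg := lt_of_le_of_ne h4 (Ne.symm h5)
  rw [abs_of_nonneg h4] at h3
  have h7 := Real.lt_tan (x := Real.pi / 2 - Q.arg) (by linarith) (by linarith)
  rw [Real.tan_pi_div_two_sub, Complex.tan_arg, inv_div] at h7
  exact h7.le

/-- Taylor polynomial of `log (1+z)` -/
noncomputable def LT (n : ℕ) : Polynomial ℂ :=
  ∑ j ∈ Finset.range (n + 1), Polynomial.C ((-1) ^ (j + 1) / (j : ℂ)) * Polynomial.X ^ j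

lemma LT_eval (n : ℕ) (z : ℂ) : (LT n).eval z = logTaylor (n + 1) z := by
  simp only [LT, logTaylor, Polynomial.eval_finsetSum, Polynomial.eval_mul, Polynomial.eval_C,
    Polynomial.eval_pow, Polynomial.eval_X]
  apply Finset.sum_congr rfl
  intro j _
  ring

lemma LT_natDegree (n : ℕ) : (LT n).natDegree ≤ n := by
  unfold LT
  apply Polynomial.natDegree_sum_le_of_forall_le
  intro j hj
  refine (Polynomial.natDegree_C_mul_X_pow_le _ _).trans ?_
  have := Finset.mem_range.mp hj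
  omega

lemma comp_natDegree (n : ℕ) (c : ℂ) :
    ((LT n).comp (Polynomial.C c * Polynomial.X)).natDegree ≤ n := by
  refine (Polynomial.natDegree_comp_le).trans ?_
  have h1 : (Polynomial.C c * Polynomial.X).natDegree ≤ 1 := by
    refine (Polynomial.natDegree_C_mul_le _ _).trans ?_
    simp
  calc (LT n).natDegree * (Polynomial.C c * Polynomial.X).natDegree ≤ n * 1 :=
        Nat.mul_le_mul (LT_natDegree n) h1
    _ = n := mul_one n

lemma quotient_re (z : ℂ) (hz : ‖z‖ < 1) :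
    ((1 + z * I) / (1 - z * I)).re = (1 - ‖z‖ ^ 2) / normSq (1 - z * I) := by
  rw [Complex.div_re, ← Complex.normSq_eq_norm_sq, Complex.normSq_apply z]
  have h : normSq (1 - z * I) ≠ 0 := by
    intro h
    rw [Complex.normSq_eq_zero, sub_eq_zero] at h
    have : ‖z * I‖ = 1 := by rw [← h]; simp
    simp at this
    linarith
  field_simp
  simp
  ring

lemma quotient_im (z : ℂ) (hz : ‖z‖ < 1) :
    ((1 + z * I) / (1 - z * I)).im = 2 * z.re / normSq (1 - z * I) := by
  rw [Complex.div_im]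
  have h : normSq (1 - z * I) ≠ 0 := by
    intro h
    rw [Complex.normSq_eq_zero, sub_eq_zero] at h
    have : ‖z * I‖ = 1 := by rw [← h]; simp
    simp at this
    linarith
  field_simp
  simp
  ring

/-- The profile polynomials. -/
theorem exists_profile (τ : ℕ) (hτ : 1 ≤ τ) :
    ∃ Φ : Polynomial ℂ, Φ.eval 0 = 0 ∧ Φ.natDegree ≤ 2000 * τ ^ 2 ∧
      (∀ w : ℂ, ‖w‖ ≤ 1 → |(Φ.eval w).re| ≤ 1) ∧
      (∀ w : ℂ, ‖w‖ ≤ 1 → ‖Φ.eval w‖ ≤ 16 * τ) ∧
      (∀ w : ℂ, 1 - 1 / (16 * (τ : ℝ)) ≤ ‖w‖ → ‖w‖ ≤ 1 → ‖w‖ / 4 ≤ w.re →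
        1 - (Φ.eval w).re ≤ 1 / τ) := by
  have hτr : (1:ℝ) ≤ τ := by exact_mod_cast hτ
  have hτ0 : (0:ℝ) < τ := by linarith
  set ρ : ℝ := 1 - 1 / (16 * τ) with hρ
  have hi : 1 / (16 * (τ:ℝ)) ≤ 1 / 16 := by
    apply one_div_le_one_div_of_le (by norm_num); linarith
  have hi0 : 0 < 1 / (16 * (τ:ℝ)) := by positivity
  have hρ0 : 0 < ρ := by rw [hρ]; linarith
  have hρ1 : ρ < 1 := by rw [hρ]; linarith
  set n : ℕ := 2000 * τ ^ 2 with hn
  set ε : ℝ := 1 / (8 * τ) with hε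
  have hε0 : 0 < ε := by positivity
  have hε1 : ε ≤ 1 / 8 := by
    apply one_div_le_one_div_of_le (by norm_num); linarith
  set κ : ℂ := ((1 - ε : ℝ) : ℂ) * (-2 * I / Real.pi) with hκ
  have hpi : (0:ℝ) < Real.pi := Real.pi_pos
  have hpi3 : (3:ℝ) < Real.pi := Real.pi_gt_three
  set Φ : Polynomial ℂ := Polynomial.C κ *
    ((LT n).comp (Polynomial.C ((ρ : ℂ) * I) * Polynomial.X) -
      (LT n).comp (Polynomial.C (-((ρ : ℂ) * I)) * Polynomial.X)) with hΦ
  -- the error bound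
  set δ : ℝ := 1 / (100 * τ) with hδ
  have herr : ∀ u : ℂ, ‖u‖ ≤ ρ → ‖log (1 + u) - (LT n).eval u‖ ≤ δ := by
    intro u hu
    rw [LT_eval]
    refine (norm_log_sub_logTaylor_le n (hu.trans_lt hρ1)).trans ?_
    have h1 : ‖u‖ ^ (n + 1) ≤ 1 := pow_le_one₀ (norm_nonneg _) (hu.trans hρ1.le)
    have h2 : (1 - ‖u‖)⁻¹ ≤ 16 * τ := by
      rw [inv_le_comm₀ (by linarith) (by positivity), inv_eq_one_div]
      linarith
    have h3 : (2000 * (τ:ℝ) ^ 2) ≤ (n:ℝ) + 1 := by
      rw [hn]; push_cast; linarith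
    calc ‖u‖ ^ (n + 1) * (1 - ‖u‖)⁻¹ / (n + 1) ≤ 1 * (16 * τ) / (2000 * (τ:ℝ) ^ 2) := by
          gcongr
          · rw [inv_nonneg]; linarith
      _ ≤ δ := by
          rw [hδ]
          rw [div_le_div_iff₀ (by positivity) (by positivity)]
          nlinarith
  have hu1 : ∀ w : ℂ, ‖w‖ ≤ 1 → ‖((ρ : ℂ) * w) * I‖ ≤ ρ := by
    intro w hw
    rw [norm_mul, norm_mul, Complex.norm_real, Real.norm_eq_abs, abs_of_pos hρ0, Complex.norm_I]
    nlinarith
  have heval : ∀ w : ℂ, Φ.eval w = κ * ((LT n).eval (((ρ : ℂ) * w) * I) -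
      (LT n).eval (-(((ρ : ℂ) * w) * I))) := by
    intro w
    rw [hΦ]
    simp only [Polynomial.eval_mul, Polynomial.eval_C, Polynomial.eval_sub, Polynomial.eval_comp,
      Polynomial.eval_X]
    congr 3
    · ring_nf
    · ring_nf
  -- the comparison
  have hκn : ‖κ‖ ≤ 2 / Real.pi := by
    rw [hκ, norm_mul, Complex.norm_real, Real.norm_eq_abs, abs_of_nonneg (by linarith)]
    have : ‖(-2 * I / (Real.pi : ℂ))‖ = 2 / Real.pi := by
      rw [norm_div, norm_mul, Complex.norm_I, Complex.norm_real, Real.norm_eq_abs,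
        abs_of_pos hpi]
      norm_num
    rw [this]
    have h1 : 0 < 2 / Real.pi := by positivity
    nlinarith
  have h2pi : 2 / Real.pi ≤ 1 := by
    rw [div_le_one hpi]; linarith
  have hmain : ∀ w : ℂ, ‖w‖ ≤ 1 →
      |(Φ.eval w).re - (1 - ε) * (2 / Real.pi * ((1 + ((ρ : ℂ) * w) * I) /
        (1 - ((ρ : ℂ) * w) * I)).arg)| ≤ 2 * δ := by
    intro w hw
    set z : ℂ := (ρ : ℂ) * w with hz
    have hz1 : ‖z‖ < 1 := by
      have := hu1 w hw
      rw [norm_mul, Complex.norm_I, mul_one] at this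
      linarith
    have h0 : ∀ Q : ℂ, (1 - ε) * (2 / Real.pi * Q.arg) = (κ * log Q).re := by
      intro Q
      rw [hκ, mul_assoc, Complex.re_ofReal_mul]
      congr 1
      rw [show (-2 * I / (Real.pi:ℂ)) * log Q =
        ((2 / Real.pi : ℝ) : ℂ) * (-I * log Q) by push_cast; ring,
        Complex.re_ofReal_mul]
      congr 1
      simp [Complex.log_im]
    have h1 : (1 - ε) * (2 / Real.pi * ((1 + z * I) / (1 - z * I)).arg) =
        (κ * log ((1 + z * I) / (1 - z * I))).re := h0 _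
    rw [h1, heval w, ← hasSum_arctan_aux hz1, ← Complex.sub_re]
    refine (Complex.abs_re_le_norm _).trans ?_
    rw [← mul_sub, norm_mul]
    have e1 := herr (z * I) (hu1 w hw)
    have e2 := herr (-(z * I)) (by rw [norm_neg]; exact hu1 w hw)
    have e3 : ‖(LT n).eval (z * I) - (LT n).eval (-(z * I)) -
        (log (1 + z * I) + -log (1 - z * I))‖ ≤ 2 * δ := by
      rw [show (LT n).eval (z * I) - (LT n).eval (-(z * I)) -
        (log (1 + z * I) + -log (1 - z * I)) =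
        (log (1 + -(z * I)) - (LT n).eval (-(z * I))) - (log (1 + z * I) - (LT n).eval (z * I)) by
          rw [← sub_eq_add_neg 1 (z * I)]; ring]
      refine (norm_sub_le _ _).trans ?_
      linarith
    calc ‖κ‖ * ‖(LT n).eval (z * I) - (LT n).eval (-(z * I)) -
        (log (1 + z * I) + -log (1 - z * I))‖ ≤ 1 * (2 * δ) := by
          gcongr
          exact hκn.trans h2pi
      _ = 2 * δ := one_mul _
  have hδε : 2 * δ ≤ ε := by
    have e1 : 2 * δ = 1 / (50 * τ) := by rw [hδ]; field_simp; norm_num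
    rw [e1, hε, div_le_div_iff₀ (by positivity) (by positivity)]
    nlinarith
  refine ⟨Φ, ?_, ?_, ?_, ?_, ?_⟩
  · rw [heval]; simp
  · rw [hΦ]
    refine (Polynomial.natDegree_C_mul_le _ _).trans ?_
    refine (Polynomial.natDegree_sub_le _ _).trans ?_
    exact max_le (comp_natDegree n _) (comp_natDegree n _)
  · intro w hw
    have h1 := hmain w hw
    set z : ℂ := (ρ : ℂ) * w with hz
    have hz1 : ‖z‖ < 1 := by
      have := hu1 w hw
      rw [norm_mul, Complex.norm_I, mul_one] at this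
      linarith
    set Q := (1 + z * I) / (1 - z * I) with hQ
    have hre : 0 < Q.re := by
      rw [hQ, quotient_re z hz1]
      apply div_pos
      · nlinarith [norm_nonneg z]
      · apply Complex.normSq_pos.mpr
        intro h
        rw [sub_eq_zero] at h
        have : ‖z * I‖ = 1 := by rw [← h]; simp
        simp at this
        linarith
    have harg : |Q.arg| < Real.pi / 2 := Complex.abs_arg_lt_pi_div_two_iff.mpr (Or.inl hre)
    have h2 : |2 / Real.pi * Q.arg| ≤ 1 := by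
      rw [abs_mul, abs_of_pos (by positivity)]
      calc 2 / Real.pi * |Q.arg| ≤ 2 / Real.pi * (Real.pi / 2) := by gcongr
        _ = 1 := by field_simp
    have h3 : |(1 - ε) * (2 / Real.pi * Q.arg)| ≤ 1 - ε := by
      rw [abs_mul, abs_of_nonneg (by linarith)]
      nlinarith
    rw [abs_le] at h1 h3 ⊢
    constructor <;> linarith [h1.1, h1.2, h3.1, h3.2]
  · intro w hw
    rw [heval, norm_mul]
    have b : ∀ u : ℂ, ‖u‖ ≤ ρ → ‖(LT n).eval u‖ ≤ 8 * τ + 1 + δ := by
      intro u hu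
      have h1 := herr u hu
      have h2 := Complex.norm_log_one_add_le (hu.trans_lt hρ1)
      have h3 : (1 - ‖u‖)⁻¹ ≤ 16 * τ := by
        rw [inv_le_comm₀ (by linarith) (by positivity), inv_eq_one_div]
        linarith
      have h4 : ‖u‖ ^ 2 * (1 - ‖u‖)⁻¹ / 2 ≤ 8 * τ := by
        have h5 : ‖u‖ ^ 2 ≤ 1 := by nlinarith [norm_nonneg u]
        have h6 : 0 ≤ (1 - ‖u‖)⁻¹ := by rw [inv_nonneg]; linarith
        nlinarith
      calc ‖(LT n).eval u‖ = ‖log (1 + u) - (log (1 + u) - (LT n).eval u)‖ := by congr 1; ring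
        _ ≤ ‖log (1 + u)‖ + ‖log (1 + u) - (LT n).eval u‖ := norm_sub_le _ _
        _ ≤ 8 * τ + 1 + δ := by linarith
    have b1 := b _ (hu1 w hw)
    have b2 := b (-(((ρ : ℂ) * w) * I)) (by rw [norm_neg]; exact hu1 w hw)
    have hδ1 : δ ≤ 1 / 100 := by
      apply one_div_le_one_div_of_le (by norm_num); linarith
    have h23 : 2 / Real.pi ≤ 2 / 3 := by gcongr
    calc ‖κ‖ * ‖(LT n).eval ((ρ : ℂ) * w * I) - (LT n).eval (-((ρ : ℂ) * w * I))‖
        ≤ 2 / 3 * ((8 * τ + 1 + δ) + (8 * τ + 1 + δ)) := by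
          gcongr
          · exact hκn.trans h23
          · exact (norm_sub_le _ _).trans (add_le_add b1 b2)
      _ ≤ 16 * τ := by nlinarith
  · intro w hw1 hw2 hw3
    have h1 := hmain w hw2
    set z : ℂ := (ρ : ℂ) * w with hz
    have hzn : ‖z‖ = ρ * ‖w‖ := by
      rw [hz, norm_mul, Complex.norm_real, Real.norm_eq_abs, abs_of_pos hρ0]
    have hz1 : ‖z‖ < 1 := by rw [hzn]; nlinarith
    have hzre : z.re = ρ * w.re := by rw [hz, Complex.re_ofReal_mul]
    set Q := (1 + z * I) / (1 - z * I) with hQ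
    have hnsq : 0 < normSq (1 - z * I) := by
      apply Complex.normSq_pos.mpr
      intro h
      rw [sub_eq_zero] at h
      have : ‖z * I‖ = 1 := by rw [← h]; simp
      simp at this
      linarith
    have hQre : Q.re = (1 - ‖z‖ ^ 2) / normSq (1 - z * I) := quotient_re z hz1
    have hQim : Q.im = 2 * z.re / normSq (1 - z * I) := quotient_im z hz1
    have hlow : (1 - 1 / (8 * (τ:ℝ))) ≤ ‖z‖ := by
      rw [hzn]
      have e : 1 / (8 * (τ:ℝ)) = 2 * (1 / (16 * (τ:ℝ))) := by field_simp; norm_num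
      nlinarith
    have hzlow : 7 / 32 ≤ z.re := by
      rw [hzre]
      have e : 15 / 16 ≤ ‖w‖ := by linarith
      have e2 : 15 / 16 ≤ ρ := by rw [hρ]; linarith
      nlinarith
    have hre : 0 < Q.re := by
      rw [hQre]
      apply div_pos _ hnsq
      nlinarith [norm_nonneg z]
    have him : 0 < Q.im := by
      rw [hQim]
      apply div_pos _ hnsq
      linarith
    have h2 := pi_div_two_sub_arg_le hre him
    have h3 : Q.re / Q.im = (1 - ‖z‖ ^ 2) / (2 * z.re) := by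
      rw [hQre, hQim]
      field_simp
    have h4 : (1 - ‖z‖ ^ 2) / (2 * z.re) ≤ (4 / 7) / τ := by
      rw [div_le_div_iff₀ (by linarith) hτ0]
      have e1 : (1 - ‖z‖ ^ 2) ≤ 2 * (1 / (8 * (τ:ℝ))) := by nlinarith [norm_nonneg z]
      have e2 : (1 - ‖z‖ ^ 2) * τ ≤ 2 * (1 / (8 * (τ:ℝ))) * τ :=
        mul_le_mul_of_nonneg_right e1 hτ0.le
      have e3 : 2 * (1 / (8 * (τ:ℝ))) * τ = 1 / 4 := by field_simp; norm_num
      linarith
    have harg : |Q.arg| < Real.pi / 2 := Complex.abs_arg_lt_pi_div_two_iff.mpr (Or.inl hre)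
    have h5 : 2 / Real.pi * Q.arg ≤ 1 := by
      have := (abs_lt.mp harg).2
      calc 2 / Real.pi * Q.arg ≤ 2 / Real.pi * (Real.pi / 2) := by gcongr
        _ = 1 := by field_simp
    have h6 : 1 - 2 / Real.pi * Q.arg ≤ (2 / 3) * ((4 / 7) / τ) := by
      have e1 : 1 - 2 / Real.pi * Q.arg = 2 / Real.pi * (Real.pi / 2 - Q.arg) := by
        have e0 : 2 / Real.pi * (Real.pi / 2) = 1 := by field_simp
        rw [mul_sub, e0]
      rw [e1]
      have h23 : 2 / Real.pi ≤ 2 / 3 := by gcongr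
      have h7 : Real.pi / 2 - Q.arg ≤ (4 / 7) / τ := h2.trans (h3 ▸ h4)
      have h8 : 0 < Real.pi / 2 - Q.arg := by linarith [(abs_lt.mp harg).2]
      have h9 : 0 < 2 / Real.pi := by positivity
      calc 2 / Real.pi * (Real.pi / 2 - Q.arg) ≤ (2 / 3) * (Real.pi / 2 - Q.arg) := by gcongr
        _ ≤ (2 / 3) * ((4 / 7) / τ) := by gcongr
    have h10 : (1 - ε) * (2 / Real.pi * Q.arg) ≥ (2 / Real.pi * Q.arg) - ε := by
      nlinarith
    have h11 := (abs_le.mp h1).1
    have h12 : ε = (1 / 8) / τ := by rw [hε, div_div]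
    have h13 : 2 * δ = (1 / 50) / τ := by rw [hδ]; field_simp; norm_num
    have h14 : (1:ℝ) / τ = (1 / 8) / τ + (1 / 50) / τ + (2 / 3) * ((4 / 7) / τ) +
      (1 - 1/8 - 1/50 - 8/21) / τ := by ring
    have h15 : 0 ≤ (1 - 1/8 - 1/50 - 8/21) / (τ:ℝ) := by
      apply div_nonneg (by norm_num) hτ0.le
    linarith

end Pool.Agent.Lib.MP_7d8448_an
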