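import Pool.Agent.Lib.MP_7d8448_an.Basic

/-!
Powers of moduli of holomorphic functions are majorised by their Poisson integrals.
-/

set_option autoImplicit false

open MeasureTheory Complex Set Metric

namespace Pool.Agent.Lib.MP_7d8448_an

/-- `|h|^p` has a holomorphic majorant which is sharp on the circle. -/
def Maj (p : ℝ) (h : ℂ → ℂ) : Prop :=
  ∃ G : ℂ → ℂ, DiffContOnCl ℂ G (ball 0 1) ∧ (∀ z, ‖z‖ ≤ 1 → ‖h z‖ ^ p ≤ ‖G z‖) ∧
    (∀ z, ‖z‖ = 1 → ‖G z‖ = ‖h z‖ ^ p)

lemma diffContOnCl_mul {f g : ℂ → ℂ} {s : Set ℂ} (hf : DiffContOnCl ℂ f s)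
    (hg : DiffContOnCl ℂ g s) : DiffContOnCl ℂ (fun z => f z * g z) s :=
  ⟨hf.1.mul hg.1, hf.2.mul hg.2⟩

lemma Maj.const (p : ℝ) (c : ℂ) : Maj p (fun _ => c) := by
  refine ⟨fun _ => ((‖c‖ ^ p : ℝ) : ℂ), diffContOnCl_const, ?_, ?_⟩
  · intro z _
    rw [Complex.norm_real, Real.norm_eq_abs]
    exact le_abs_self _
  · intro z _
    rw [Complex.norm_real, Real.norm_eq_abs, abs_of_nonneg (by positivity)]

lemma Maj.mul {p : ℝ} {h1 h2 : ℂ → ℂ} (H1 : Maj p h1) (H2 : Maj p h2) :
    Maj p (fun z => h1 z * h2 z) := by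
  obtain ⟨G1, a1, b1, c1⟩ := H1
  obtain ⟨G2, a2, b2, c2⟩ := H2
  refine ⟨fun z => G1 z * G2 z, diffContOnCl_mul a1 a2, ?_, ?_⟩
  · intro z hz
    rw [norm_mul, norm_mul, Real.mul_rpow (norm_nonneg _) (norm_nonneg _)]
    exact mul_le_mul (b1 z hz) (b2 z hz) (by positivity) (by positivity)
  · intro z hz
    rw [norm_mul, norm_mul, Real.mul_rpow (norm_nonneg _) (norm_nonneg _), c1 z hz, c2 z hz]

lemma diffContOnCl_cpow {p : ℝ} (hp : 0 < p) {b : ℂ} (hb : ‖b‖ ≤ 1) :
    DiffContOnCl ℂ (fun z => (1 - b * z) ^ (p : ℂ)) (ball 0 1) := by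
  constructor
  · intro z hz
    have hz' : ‖z‖ < 1 := by simpa using hz
    have h1 : ‖b * z‖ < 1 := by
      rw [norm_mul]
      calc ‖b‖ * ‖z‖ ≤ 1 * ‖z‖ := by gcongr
        _ < 1 := by linarith
    have h2 : (1 - b * z) ∈ slitPlane := by
      apply Complex.mem_slitPlane_iff.mpr
      left
      have := Complex.re_le_norm (b * z)
      simp only [Complex.sub_re, Complex.one_re]
      linarith
    apply DifferentiableAt.differentiableWithinAt
    have h3 : DifferentiableAt ℂ (fun z => 1 - b * z) z := by fun_prop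
    exact h3.cpow (differentiableAt_const _) h2
  · rw [closure_ball (0:ℂ) one_ne_zero]
    intro z hz
    have hz' : ‖z‖ ≤ 1 := by simpa using hz
    have h1 : ‖b * z‖ ≤ 1 := by
      rw [norm_mul]
      calc ‖b‖ * ‖z‖ ≤ 1 * 1 := by gcongr
        _ = 1 := by norm_num
    have h2 : 0 ≤ (1 - b * z).re := by
      have := Complex.re_le_norm (b * z)
      simp only [Complex.sub_re, Complex.one_re]
      linarith
    apply ContinuousAt.continuousWithinAt
    have h3 := Complex.continuousAt_cpow_const_of_re_pos (z := 1 - b * z) (w := (p:ℂ))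
      (Or.inl h2) (by simpa using hp)
    exact ContinuousAt.comp (f := fun z => 1 - b * z) (g := fun w => w ^ (p:ℂ)) h3
      (by fun_prop)

lemma Maj.linear {p : ℝ} (hp : 0 < p) (a : ℂ) : Maj p (fun z => z - a) := by
  rcases lt_or_ge ‖a‖ 1 with ha | ha
  · refine ⟨fun z => (1 - (starRingEnd ℂ) a * z) ^ (p : ℂ),
      diffContOnCl_cpow hp (by simpa using ha.le), ?_, ?_⟩
    · intro z hz
      rw [norm_cpow_real]
      apply Real.rpow_le_rpow (norm_nonneg _) _ hp.le
      apply le_of_sq_le_sq _ (norm_nonneg _)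
      rw [← Complex.normSq_eq_norm_sq, ← Complex.normSq_eq_norm_sq, Complex.normSq_sub,
        Complex.normSq_sub]
      simp only [map_one, map_mul, Complex.normSq_conj, one_mul, Complex.conj_conj]
      have e1 : ((a * (starRingEnd ℂ) z).re) = (z * (starRingEnd ℂ) a).re := by
        rw [← Complex.conj_re]; simp [mul_comm]
      rw [e1]
      have h1 : normSq a ≤ 1 := by
        rw [Complex.normSq_eq_norm_sq]; nlinarith [norm_nonneg a]
      have h2 : normSq z ≤ 1 := by
        rw [Complex.normSq_eq_norm_sq]; nlinarith [norm_nonneg z]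
      nlinarith
    · intro z hz
      rw [norm_cpow_real]
      congr 1
      have e1 : z - a = z * (starRingEnd ℂ) (1 - (starRingEnd ℂ) a * z) := by
        have : z * (starRingEnd ℂ) z = 1 := by
          rw [Complex.mul_conj, Complex.normSq_eq_norm_sq, hz]; simp
        simp only [map_sub, map_one, map_mul, Complex.conj_conj]
        linear_combination a * this
      show _ = ‖z - a‖
      rw [e1, norm_mul, hz, one_mul, RCLike.norm_conj]
  · have ha0 : a ≠ 0 := by
      intro h; rw [h] at ha; simp at ha; linarith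
    have h1 : ∀ z : ℂ, ‖z - a‖ = ‖a‖ * ‖1 - a⁻¹ * z‖ := by
      intro z
      rw [← norm_mul, ← norm_neg]
      congr 1
      field_simp
      ring
    refine ⟨fun z => ((‖a‖ ^ p : ℝ) : ℂ) * (1 - a⁻¹ * z) ^ (p : ℂ),
      diffContOnCl_mul diffContOnCl_const (diffContOnCl_cpow hp (by
        rw [norm_inv]; exact inv_le_one_of_one_le₀ ha)), ?_, ?_⟩
    · intro z hz
      rw [norm_mul, norm_cpow_real, Complex.norm_real, Real.norm_eq_abs,
        abs_of_nonneg (by positivity), h1, Real.mul_rpow (norm_nonneg _) (norm_nonneg _)]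
    · intro z hz
      rw [norm_mul, norm_cpow_real, Complex.norm_real, Real.norm_eq_abs,
        abs_of_nonneg (by positivity), h1, Real.mul_rpow (norm_nonneg _) (norm_nonneg _)]

lemma Maj.polynomial {p : ℝ} (hp : 0 < p) (q : Polynomial ℂ) : Maj p (fun z => q.eval z) := by
  have h1 : ∀ s : Multiset ℂ,
      Maj p (fun z => ((s.map (fun a => Polynomial.X - Polynomial.C a)).prod).eval z) := by
    intro s
    induction s using Multiset.induction_on with
    | empty => simpa using Maj.const p 1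
    | cons a s ih =>
      simp only [Multiset.map_cons, Multiset.prod_cons, Polynomial.eval_mul, Polynomial.eval_sub,
        Polynomial.eval_X, Polynomial.eval_C]
      exact (Maj.linear hp a).mul ih
  have h2 := IsAlgClosed.splits q
  have h3 := h2.eq_prod_roots
  rw [h3]
  simp only [Polynomial.eval_mul, Polynomial.eval_C]
  exact (Maj.const p _).mul (h1 _)

lemma Maj.le {p : ℝ} {h : ℂ → ℂ} (H : Maj p h) {z : ℂ} (hz : ‖z‖ < 1) :
    ‖h z‖ ^ p ≤ ∫ θ, PK z θ * ‖h (ee θ)‖ ^ p ∂mu := by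
  obtain ⟨G, a, b, c⟩ := H
  calc ‖h z‖ ^ p ≤ ‖G z‖ := b z hz.le
    _ = ‖∫ θ, (PK z θ : ℂ) * G (ee θ) ∂mu‖ := by rw [poisson a hz]
    _ ≤ ∫ θ, ‖(PK z θ : ℂ) * G (ee θ)‖ ∂mu := norm_integral_le_integral_norm _
    _ = ∫ θ, PK z θ * ‖h (ee θ)‖ ^ p ∂mu := by
      congr 1
      ext θ
      rw [norm_mul, c _ (norm_ee θ), Complex.norm_real, Real.norm_eq_abs,
        abs_of_pos (PK_pos hz θ)]

/-- Poisson majorisation for polynomials -/
theorem sub_poly {p : ℝ} (hp : 0 < p) (q : Polynomial ℂ) {z : ℂ} (hz : ‖z‖ < 1) :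
    ‖q.eval z‖ ^ p ≤ ∫ θ, PK z θ * ‖q.eval (ee θ)‖ ^ p ∂mu :=
  (Maj.polynomial hp q).le hz

/-- uniform approximation by polynomials on the closed disc -/
lemma exists_polynomials {h : ℂ → ℂ} {R : ℝ} (hR : 1 < R) (hh : DifferentiableOn ℂ h (ball 0 R)) :
    ∃ Q : ℕ → Polynomial ℂ,
      TendstoUniformlyOn (fun n z => (Q n).eval z) h Filter.atTop (closedBall 0 1) := by
  obtain ⟨R', hR1, hR2⟩ := exists_between hR
  have hR0 : 0 < R' := by linarith
  lift R' to NNReal using hR0.le
  have h1 : HasFPowerSeriesOnBall h (cauchyPowerSeries h 0 R') 0 R' := by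
    apply DifferentiableOn.hasFPowerSeriesOnBall
    · exact hh.mono (closedBall_subset_ball hR2)
    · exact_mod_cast hR0
  obtain ⟨r', hr1, hr2⟩ := exists_between hR1
  have hr0 : 0 < r' := by linarith
  lift r' to NNReal using hr0.le
  have h2 := h1.tendstoUniformlyOn' (r' := r') (by exact_mod_cast hr2)
  refine ⟨fun n => ∑ k ∈ Finset.range n,
    Polynomial.C ((cauchyPowerSeries h 0 R').coeff k) * Polynomial.X ^ k, ?_⟩
  have h3 : (fun n (z:ℂ) => (∑ k ∈ Finset.range n,
    Polynomial.C ((cauchyPowerSeries h 0 R').coeff k) * Polynomial.X ^ k : Polynomial ℂ).eval z)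
     = fun n z => (cauchyPowerSeries h 0 R').partialSum n (z - 0) := by
    ext n z
    simp only [Polynomial.eval_finsetSum, Polynomial.eval_mul, Polynomial.eval_C,
      Polynomial.eval_pow, Polynomial.eval_X, FormalMultilinearSeries.partialSum, sub_zero]
    apply Finset.sum_congr rfl
    intro k _
    rw [FormalMultilinearSeries.apply_eq_pow_smul_coeff, smul_eq_mul, mul_comm]
  rw [h3]
  exact h2.mono (closedBall_subset_ball hr1)

/-- Poisson majorisation for powers of moduli of holomorphic functions -/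
theorem sub_pow {h : ℂ → ℂ} {R : ℝ} (hR : 1 < R) (hh : DifferentiableOn ℂ h (ball 0 R))
    {p : ℝ} (hp : 0 < p) {z : ℂ} (hz : ‖z‖ < 1) :
    ‖h z‖ ^ p ≤ ∫ θ, PK z θ * ‖h (ee θ)‖ ^ p ∂mu := by
  obtain ⟨Q, hQ⟩ := exists_polynomials hR hh
  have hcont : ContinuousOn h (closedBall 0 1) :=
    hh.continuousOn.mono (closedBall_subset_ball hR)
  have h1 : Filter.Tendsto (fun n => ‖(Q n).eval z‖ ^ p) Filter.atTop (nhds (‖h z‖ ^ p)) := by
    have := (hQ.tendsto_at (x := z) (by simpa using hz.le)).norm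
    exact this.rpow_const (Or.inr hp.le)
  have h2 : Filter.Tendsto (fun n => ∫ θ, PK z θ * ‖(Q n).eval (ee θ)‖ ^ p ∂mu) Filter.atTop
      (nhds (∫ θ, PK z θ * ‖h (ee θ)‖ ^ p ∂mu)) := by
    obtain ⟨C, hC⟩ := (isCompact_closedBall (0:ℂ) 1).exists_bound_of_continuousOn hcont
    apply tendsto_integral_filter_of_dominated_convergence
      (fun θ => PK z θ * (C + 1) ^ p)
    · filter_upwards with n
      apply Continuous.aestronglyMeasurable
      apply (continuous_PK hz).mul
      apply Continuous.rpow_const (by fun_prop)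
      intro x; right; exact hp.le
    · have h3 := Metric.tendstoUniformlyOn_iff.mp hQ 1 one_pos
      filter_upwards [h3] with n hn
      filter_upwards with θ
      have h4 : ee θ ∈ closedBall (0:ℂ) 1 := by simp [norm_ee]
      have h5 := hn (ee θ) h4
      have h6 := hC (ee θ) h4
      rw [norm_mul, Real.norm_eq_abs, abs_of_pos (PK_pos hz θ), Real.norm_eq_abs,
        abs_of_nonneg (by positivity)]
      apply mul_le_mul_of_nonneg_left _ (PK_pos hz θ).le
      apply Real.rpow_le_rpow (norm_nonneg _) _ hp.le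
      rw [dist_eq_norm] at h5
      have : ‖(Q n).eval (ee θ)‖ ≤ ‖h (ee θ)‖ + ‖h (ee θ) - (Q n).eval (ee θ)‖ := by
        have := norm_sub_le (h (ee θ)) (h (ee θ) - (Q n).eval (ee θ))
        simpa using this
      linarith
    · exact integrable_mu ((continuous_PK hz).mul continuous_const)
    · filter_upwards with θ
      have h4 : ee θ ∈ closedBall (0:ℂ) 1 := by simp [norm_ee]
      apply Filter.Tendsto.const_mul
      exact ((hQ.tendsto_at h4).norm).rpow_const (Or.inr hp.le)
  exact le_of_tendsto_of_tendsto' h1 h2 (fun n => sub_poly hp (Q n) hz)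

end Pool.Agent.Lib.MP_7d8448_an
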