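import Pool.Agent.Lib.MP_7d8448_an.Sub

/-!
Poisson majorisation on the bidisc, and its consequences.
-/

set_option autoImplicit false

open MeasureTheory Complex Set Metric

namespace Pool.Agent.Lib.MP_7d8448_an

/-- the point `(r e^{i x₁}, r e^{i x₂})` -/
noncomputable def dil (r : ℝ) (x : ℝ × ℝ) : ℂ × ℂ := ((r : ℂ) * ee x.1, (r : ℂ) * ee x.2)

/-- Poisson kernel of the bidisc -/
noncomputable def K2 (z : ℂ × ℂ) (x : ℝ × ℝ) : ℝ := PK z.1 x.1 * PK z.2 x.2

@[fun_prop]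
lemma continuous_dil (r : ℝ) : Continuous (dil r) := by
  unfold dil; fun_prop

lemma norm_dil {r : ℝ} (hr : 0 ≤ r) (x : ℝ × ℝ) : ‖dil r x‖ = r := by
  simp [dil, Prod.norm_def, norm_ee, abs_of_nonneg hr]

lemma fst_norm_lt {z : ℂ × ℂ} {r : ℝ} (hz : ‖z‖ < r) : ‖z.1‖ < r := (norm_fst_le z).trans_lt hz
lemma snd_norm_lt {z : ℂ × ℂ} {r : ℝ} (hz : ‖z‖ < r) : ‖z.2‖ < r := (norm_snd_le z).trans_lt hz

lemma K2_pos {z : ℂ × ℂ} (hz : ‖z‖ < 1) (x : ℝ × ℝ) : 0 < K2 z x :=
  mul_pos (PK_pos (fst_norm_lt hz) _) (PK_pos (snd_norm_lt hz) _)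

lemma continuous_K2 {z : ℂ × ℂ} (hz : ‖z‖ < 1) : Continuous (K2 z) := by
  unfold K2
  exact ((continuous_PK (fst_norm_lt hz)).comp continuous_fst).mul
    ((continuous_PK (snd_norm_lt hz)).comp continuous_snd)

lemma continuous_K2_comp {X : Type*} [TopologicalSpace X] {a : X → ℂ × ℂ} {b : X → ℝ × ℝ}
    (ha : Continuous a) (hb : Continuous b) (h : ∀ x, ‖a x‖ < 1) :
    Continuous (fun x => K2 (a x) (b x)) := by
  unfold K2
  apply Continuous.mul
  · exact continuous_PK_comp (continuous_fst.comp ha) (continuous_fst.comp hb)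
      (fun x => fst_norm_lt (h x))
  · exact continuous_PK_comp (continuous_snd.comp ha) (continuous_snd.comp hb)
      (fun x => snd_norm_lt (h x))

lemma K2_symm (r : ℝ) (x y : ℝ × ℝ) : K2 (dil r x) y = K2 (dil r y) x := by
  simp only [K2, dil]
  rw [PK_symm r x.1 y.1, PK_symm r x.2 y.2]

lemma integral_K2 {z : ℂ × ℂ} (hz : ‖z‖ < 1) : ∫ x, K2 z x ∂mu2 = 1 := by
  unfold K2 mu2
  rw [integral_prod_mul (f := fun θ => PK z.1 θ) (g := fun θ => PK z.2 θ),
    integral_PK (fst_norm_lt hz), integral_PK (snd_norm_lt hz), one_mul]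

lemma integral_K2_symm {r : ℝ} (hr : 0 ≤ r) (hr1 : r < 1) (y : ℝ × ℝ) :
    ∫ x, K2 (dil r x) y ∂mu2 = 1 := by
  simp_rw [fun x => K2_symm r x y]
  exact integral_K2 (by rw [norm_dil hr]; exact hr1)

lemma mem_ball_prod {R : ℝ} {z : ℂ × ℂ} : z ∈ ball (0 : ℂ × ℂ) R ↔ ‖z.1‖ < R ∧ ‖z.2‖ < R := by
  rw [mem_ball_zero_iff, Prod.norm_def, max_lt_iff]

lemma slice_fst {G : ℂ × ℂ → ℂ} {R : ℝ} (hG : DifferentiableOn ℂ G (ball 0 R)) {w : ℂ}
    (hw : ‖w‖ < R) : DifferentiableOn ℂ (fun z => G (z, w)) (ball 0 R) := by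
  intro z hz
  have h1 : (z, w) ∈ ball (0 : ℂ × ℂ) R := mem_ball_prod.mpr ⟨by simpa using hz, hw⟩
  have h2 := (hG.differentiableAt (isOpen_ball.mem_nhds h1))
  apply DifferentiableAt.differentiableWithinAt
  exact DifferentiableAt.comp (f := fun z : ℂ => (z, w)) (g := G) z h2 (by fun_prop)

lemma slice_snd {G : ℂ × ℂ → ℂ} {R : ℝ} (hG : DifferentiableOn ℂ G (ball 0 R)) {w : ℂ}
    (hw : ‖w‖ < R) : DifferentiableOn ℂ (fun z => G (w, z)) (ball 0 R) := by
  intro z hz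
  have h1 : (w, z) ∈ ball (0 : ℂ × ℂ) R := mem_ball_prod.mpr ⟨hw, by simpa using hz⟩
  have h2 := (hG.differentiableAt (isOpen_ball.mem_nhds h1))
  apply DifferentiableAt.differentiableWithinAt
  exact DifferentiableAt.comp (f := fun z : ℂ => (w, z)) (g := G) z h2 (by fun_prop)

lemma continuous_on_circles {G : ℂ × ℂ → ℂ} {R : ℝ} (hG : DifferentiableOn ℂ G (ball 0 R))
    {X : Type*} [TopologicalSpace X] {a : X → ℂ × ℂ} (ha : Continuous a) (h : ∀ x, ‖a x‖ < R) :
    Continuous (fun x => G (a x)) := by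
  apply hG.continuousOn.comp_continuous ha
  intro x
  simpa using h x

/-- Poisson majorisation on the bidisc -/
theorem sub2 {G : ℂ × ℂ → ℂ} {R : ℝ} (hR : 1 < R) (hG : DifferentiableOn ℂ G (ball 0 R))
    {p : ℝ} (hp : 0 < p) {z : ℂ × ℂ} (hz : ‖z‖ < 1) :
    ‖G z‖ ^ p ≤ ∫ x, K2 z x * ‖G (dil 1 x)‖ ^ p ∂mu2 := by
  have hz1 := fst_norm_lt hz
  have hz2 := snd_norm_lt hz
  have hc : Continuous (fun x : ℝ × ℝ => G (dil 1 x)) :=
    continuous_on_circles hG (continuous_dil 1) (fun x => by rw [norm_dil zero_le_one]; exact hR)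
  have hint : Integrable (fun x => K2 z x * ‖G (dil 1 x)‖ ^ p) mu2 := by
    apply integrable_mu2
    apply (continuous_K2 hz).mul
    exact Continuous.rpow_const hc.norm (fun x => Or.inr hp.le)
  unfold mu2 at hint ⊢
  rw [integral_prod _ hint]
  have h1 := sub_pow hR (slice_fst hG (hz2.trans hR)) hp hz1
  have hc3 : Continuous (fun θ => G (ee θ, z.2)) := by
    apply continuous_on_circles hG (by fun_prop)
    intro θ
    rw [← mem_ball_zero_iff, mem_ball_prod, norm_ee]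
    exact ⟨hR, hz2.trans hR⟩
  calc ‖G z‖ ^ p ≤ ∫ θ, PK z.1 θ * ‖G (ee θ, z.2)‖ ^ p ∂mu := h1
    _ ≤ ∫ θ, ∫ φ, K2 z (θ, φ) * ‖G (dil 1 (θ, φ))‖ ^ p ∂mu ∂mu := by
      apply integral_mono_of_nonneg
      · filter_upwards with θ
        have := (PK_pos hz1 θ).le
        positivity
      · exact hint.integral_prod_left
      · filter_upwards with θ
        have h2 := sub_pow hR (slice_snd hG (w := ee θ) (by rw [norm_ee]; exact hR)) hp hz2
        simp only [K2, dil, ofReal_one, one_mul]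
        simp_rw [mul_assoc]
        rw [integral_const_mul]
        exact mul_le_mul_of_nonneg_left h2 (PK_pos hz1 θ).le

/-- Poisson formula on the bidisc -/
theorem poisson2 {G : ℂ × ℂ → ℂ} {R : ℝ} (hR : 1 < R) (hG : DifferentiableOn ℂ G (ball 0 R))
    {z : ℂ × ℂ} (hz : ‖z‖ < 1) :
    ∫ x, (K2 z x : ℂ) * G (dil 1 x) ∂mu2 = G z := by
  have hz1 := fst_norm_lt hz
  have hz2 := snd_norm_lt hz
  have hc : Continuous (fun x : ℝ × ℝ => G (dil 1 x)) :=
    continuous_on_circles hG (continuous_dil 1) (fun x => by rw [norm_dil zero_le_one]; exact hR)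
  have hint : Integrable (fun x => (K2 z x : ℂ) * G (dil 1 x)) mu2 := by
    apply integrable_mu2
    exact (Complex.continuous_ofReal.comp (continuous_K2 hz)).mul hc
  unfold mu2 at hint ⊢
  rw [integral_prod _ hint]
  have hd : ∀ {h : ℂ → ℂ}, DifferentiableOn ℂ h (ball 0 R) → DiffContOnCl ℂ h (ball 0 1) := by
    intro h hh
    apply DifferentiableOn.diffContOnCl
    rw [closure_ball (0:ℂ) one_ne_zero]
    exact hh.mono (closedBall_subset_ball hR)
  have h1 := poisson (hd (slice_fst hG (hz2.trans hR))) hz1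
  have : G z = G (z.1, z.2) := rfl
  rw [this, ← h1]
  congr 1
  ext θ
  have h2 := poisson (hd (slice_snd hG (w := ee θ) (by rw [norm_ee]; exact hR))) hz2
  simp only [K2, dil, ofReal_one, one_mul, ofReal_mul]
  simp_rw [mul_assoc]
  rw [integral_const_mul, h2]

/-- scaling -/
lemma differentiableOn_scale {g : ℂ × ℂ → ℂ} (hg : DifferentiableOn ℂ g (ball 0 1)) {s : ℝ}
    (hs : 0 < s) : DifferentiableOn ℂ (fun z : ℂ × ℂ => g (((s:ℂ) * z.1, (s:ℂ) * z.2)))
      (ball 0 (1 / s)) := by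
  intro z hz
  have h1 : ((s:ℂ) * z.1, (s:ℂ) * z.2) ∈ ball (0 : ℂ × ℂ) 1 := by
    rw [mem_ball_prod] at hz ⊢
    simp only [norm_mul, Complex.norm_real, Real.norm_eq_abs, abs_of_pos hs]
    have h3 : s * (1 / s) = 1 := by field_simp
    exact ⟨h3 ▸ (mul_lt_mul_of_pos_left hz.1 hs), h3 ▸ (mul_lt_mul_of_pos_left hz.2 hs)⟩
  have h2 := (hg.differentiableAt (isOpen_ball.mem_nhds h1))
  apply DifferentiableAt.differentiableWithinAt
  exact DifferentiableAt.comp (f := fun z : ℂ × ℂ => ((s:ℂ) * z.1, (s:ℂ) * z.2)) (g := g) z h2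
    (by fun_prop)

lemma dil_scale (s r : ℝ) (x : ℝ × ℝ) :
    ((s:ℂ) * (dil r x).1, (s:ℂ) * (dil r x).2) = dil (s * r) x := by
  simp [dil, mul_assoc]

/-- integral means increase with the radius -/
theorem mono2 {G : ℂ × ℂ → ℂ} {R : ℝ} (hR : 1 < R) (hG : DifferentiableOn ℂ G (ball 0 R))
    {p : ℝ} (hp : 0 < p) {r : ℝ} (hr : 0 ≤ r) (hr1 : r ≤ 1) :
    ∫ x, ‖G (dil r x)‖ ^ p ∂mu2 ≤ ∫ x, ‖G (dil 1 x)‖ ^ p ∂mu2 := by
  rcases hr1.eq_or_lt with rfl | hr1
  · exact le_rfl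
  have hc : Continuous (fun x : ℝ × ℝ => G (dil 1 x)) :=
    continuous_on_circles hG (continuous_dil 1) (fun x => by rw [norm_dil zero_le_one]; exact hR)
  have hcr : Continuous (fun x : ℝ × ℝ => G (dil r x)) :=
    continuous_on_circles hG (continuous_dil r) (fun x => by rw [norm_dil hr]; linarith)
  have hK : Continuous (fun y : (ℝ × ℝ) × (ℝ × ℝ) => K2 (dil r y.1) y.2 * ‖G (dil 1 y.2)‖ ^ p) := by
    apply Continuous.mul
    · exact continuous_K2_comp (by fun_prop) (by fun_prop)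
        (fun x => by rw [norm_dil hr]; exact hr1)
    · exact Continuous.rpow_const (hc.comp continuous_snd).norm (fun x => Or.inr hp.le)
  calc ∫ x, ‖G (dil r x)‖ ^ p ∂mu2
      ≤ ∫ x, ∫ y, K2 (dil r x) y * ‖G (dil 1 y)‖ ^ p ∂mu2 ∂mu2 := by
        apply integral_mono_of_nonneg
        · filter_upwards with x; positivity
        · exact (integrable_mu22 hK).integral_prod_left
        · filter_upwards with x
          exact sub2 hR hG hp (by rw [norm_dil hr]; exact hr1)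
    _ = ∫ y, ∫ x, K2 (dil r x) y * ‖G (dil 1 y)‖ ^ p ∂mu2 ∂mu2 :=
        integral_integral_swap (integrable_mu22 hK)
    _ = ∫ x, ‖G (dil 1 x)‖ ^ p ∂mu2 := by
        congr 1
        ext y
        rw [integral_mul_const, integral_K2_symm hr hr1, one_mul]

theorem mono2' {g : ℂ × ℂ → ℂ} (hg : DifferentiableOn ℂ g (ball 0 1))
    {p : ℝ} (hp : 0 < p) {r s : ℝ} (hr : 0 ≤ r) (hrs : r ≤ s) (hs : s < 1) :
    ∫ x, ‖g (dil r x)‖ ^ p ∂mu2 ≤ ∫ x, ‖g (dil s x)‖ ^ p ∂mu2 := by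
  rcases (hr.trans hrs).eq_or_lt with h0 | h0
  · have : r = s := le_antisymm hrs (h0 ▸ hr)
    rw [this]
  · have h1 := mono2 (G := fun z : ℂ × ℂ => g (((s:ℂ) * z.1, (s:ℂ) * z.2)))
      (by rw [lt_div_iff₀ h0]; linarith) (differentiableOn_scale hg h0) hp
      (r := r / s) (by positivity) (by rw [div_le_one h0]; exact hrs)
    simp only [dil_scale] at h1
    rwa [mul_div_cancel₀ _ h0.ne', mul_one] at h1

/-- square means on the diagonal circle -/
theorem diag_sq {f : ℂ × ℂ → ℂ} (hf : DifferentiableOn ℂ f (ball 0 1)) {C : ℝ}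
    (hC : ∀ R : ℝ, 0 < R → R < 1 → ∫ x, ‖f (dil R x)‖ ^ 2 ∂mu2 ≤ C) {r : ℝ} (hr : 0 < r)
    (hr1 : r < 1) : ∫ θ, ‖f ((r:ℂ) * ee θ, (r:ℂ) * ee θ)‖ ^ 2 ∂mu ≤ 4 / (1 - r) * C := by
  set s := Real.sqrt r with hs
  have hs0 : 0 < s := Real.sqrt_pos.mpr hr
  have hs2 : s * s = r := Real.mul_self_sqrt hr.le
  have hs1 : s < 1 := by nlinarith
  have hR : 1 < 1 / s := by rw [lt_div_iff₀ hs0]; linarith
  set G : ℂ × ℂ → ℂ := fun z => f (((s:ℂ) * z.1, (s:ℂ) * z.2)) with hG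
  have hGd : DifferentiableOn ℂ G (ball 0 (1 / s)) := differentiableOn_scale hf hs0
  have hc : Continuous (fun x : ℝ × ℝ => G (dil 1 x)) :=
    continuous_on_circles hGd (continuous_dil 1) (fun x => by rw [norm_dil zero_le_one]; exact hR)
  have hns : ∀ θ : ℝ, ‖(dil s (θ, θ))‖ < 1 := fun θ => by rw [norm_dil hs0.le]; exact hs1
  have hK : Continuous (fun y : ℝ × (ℝ × ℝ) => K2 (dil s (y.1, y.1)) y.2 * ‖G (dil 1 y.2)‖ ^ 2) := by
    apply Continuous.mul
    · exact continuous_K2_comp (by fun_prop) (by fun_prop) (fun x => hns _)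
    · exact (hc.comp continuous_snd).norm.pow 2
  have hi : Integrable (fun y : ℝ × (ℝ × ℝ) => K2 (dil s (y.1, y.1)) y.2 * ‖G (dil 1 y.2)‖ ^ 2)
      (mu.prod mu2) := by
    obtain ⟨C, hC⟩ := ((isCompact_Icc (a := (0:ℝ)) (b := 2 * Real.pi)).prod
      ((isCompact_Icc (a := (0:ℝ)) (b := 2 * Real.pi)).prod
      (isCompact_Icc (a := (0:ℝ)) (b := 2 * Real.pi)))).exists_bound_of_continuousOn
      hK.continuousOn
    apply Integrable.of_bound hK.aestronglyMeasurable C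
    have h1 : ∀ᵐ x ∂(mu.prod mu2), x.1 ∈ Icc 0 (2 * Real.pi) :=
      Measure.quasiMeasurePreserving_fst.ae ae_mem_Icc
    have h2 : ∀ᵐ x ∂(mu.prod mu2), x.2 ∈ Icc 0 (2 * Real.pi) ×ˢ Icc 0 (2 * Real.pi) :=
      Measure.quasiMeasurePreserving_snd.ae ae_mem_Icc2
    filter_upwards [h1, h2] with θ h1 h2 using hC θ ⟨h1, h2⟩
  have key : ∀ y : ℝ × ℝ, ∫ θ, K2 (dil s (θ, θ)) y ∂mu ≤ (1 + s) / (1 - s) := by
    intro y
    have hc1 : Continuous (fun θ : ℝ => PK ((s:ℂ) * ee θ) y.1) :=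
      continuous_PK_comp (by fun_prop) (by fun_prop)
        (fun x => by rw [norm_real_mul_ee hs0.le]; exact hs1)
    have hc2 : Continuous (fun θ : ℝ => PK ((s:ℂ) * ee θ) y.2) :=
      continuous_PK_comp (by fun_prop) (by fun_prop)
        (fun x => by rw [norm_real_mul_ee hs0.le]; exact hs1)
    calc ∫ θ, K2 (dil s (θ, θ)) y ∂mu
        ≤ ∫ θ, (1 + s) / (1 - s) * PK ((s:ℂ) * ee θ) y.2 ∂mu := by
          apply integral_mono (integrable_mu (hc1.mul hc2)) (integrable_mu (hc2.const_mul _))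
          intro θ
          show PK ((s:ℂ) * ee θ) y.1 * PK ((s:ℂ) * ee θ) y.2 ≤ _
          apply mul_le_mul_of_nonneg_right
          · have := PK_le (z := (s:ℂ) * ee θ) (by rw [norm_real_mul_ee hs0.le]; exact hs1) y.1
            rwa [norm_real_mul_ee hs0.le] at this
          · exact (PK_pos (by rw [norm_real_mul_ee hs0.le]; exact hs1) _).le
      _ = (1 + s) / (1 - s) := by
          rw [integral_const_mul, integral_PK_symm hs0.le hs1, mul_one]
  calc ∫ θ, ‖f ((r:ℂ) * ee θ, (r:ℂ) * ee θ)‖ ^ 2 ∂mu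
      ≤ ∫ θ, ∫ y, K2 (dil s (θ, θ)) y * ‖G (dil 1 y)‖ ^ 2 ∂mu2 ∂mu := by
        apply integral_mono_of_nonneg
        · filter_upwards with x; positivity
        · exact hi.integral_prod_left
        · filter_upwards with θ
          have h1 := sub2 hR hGd (p := 2) two_pos (hns θ)
          simp only [Real.rpow_two] at h1
          refine le_trans (le_of_eq ?_) h1
          simp only [hG, dil_scale, hs2]
          rfl
    _ = ∫ y, ∫ θ, K2 (dil s (θ, θ)) y * ‖G (dil 1 y)‖ ^ 2 ∂mu ∂mu2 :=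
        integral_integral_swap hi
    _ = ∫ y, (∫ θ, K2 (dil s (θ, θ)) y ∂mu) * ‖G (dil 1 y)‖ ^ 2 ∂mu2 := by
        congr 1; ext y; rw [integral_mul_const]
    _ ≤ ∫ y, (1 + s) / (1 - s) * ‖G (dil 1 y)‖ ^ 2 ∂mu2 := by
        apply integral_mono_of_nonneg
        · filter_upwards with y
          apply mul_nonneg _ (by positivity)
          exact integral_nonneg (fun θ => (K2_pos (hns θ) _).le)
        · exact (integrable_mu2 ((hc.norm.pow 2).const_mul _))
        · filter_upwards with y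
          exact mul_le_mul_of_nonneg_right (key y) (by positivity)
    _ = (1 + s) / (1 - s) * ∫ y, ‖f (dil s y)‖ ^ 2 ∂mu2 := by
        rw [integral_const_mul]
        simp only [hG, dil_scale, mul_one]
    _ ≤ (1 + s) / (1 - s) * C := by
        apply mul_le_mul_of_nonneg_left (hC s hs0 hs1)
        have : 0 < 1 - s := by linarith
        positivity
    _ ≤ 4 / (1 - r) * C := by
        have hC0 : 0 ≤ C := le_trans (integral_nonneg (fun x => by positivity)) (hC s hs0 hs1)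
        apply mul_le_mul_of_nonneg_right _ hC0
        rw [div_le_div_iff₀ (by linarith) (by linarith)]
        nlinarith

end Pool.Agent.Lib.MP_7d8448_an
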